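import Mathlib

/-!
# Averaging lemma, part A: the one-dimensional inequality (definitions, monotonicity in `τ`)
-/

open Real MeasureTheory Set intervalIntegral

namespace LpSec.Avg

/-- `q α τ v = v^(α-1) (v^α + τ)^(-2-2/α)` -/
noncomputable def q (α τ v : ℝ) : ℝ := v ^ (α - 1) * (v ^ α + τ) ^ (-(2 + 2 / α))

/-- `D α τ a = q (1 - a) - q (1 + a)` -/
noncomputable def D (α τ a : ℝ) : ℝ := q α τ (1 - a) - q α τ (1 + a)

/-- `Gf α τ v = (v^α + τ)^(-1-2/α)` -/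
noncomputable def Gf (α τ v : ℝ) : ℝ := (v ^ α + τ) ^ (-(1 + 2 / α))

/-- the even function `Gf (1 - a) + Gf (1 + a)` -/
noncomputable def Qf (α τ a : ℝ) : ℝ := Gf α τ (1 - a) + Gf α τ (1 + a)

variable {α τ : ℝ}

theorem D_neg (α τ a : ℝ) : D α τ (-a) = -D α τ a := by
  unfold D
  rw [sub_neg_eq_add, ← sub_eq_add_neg]
  ring

theorem Qf_neg (α τ a : ℝ) : Qf α τ (-a) = Qf α τ a := by
  unfold Qf
  rw [sub_neg_eq_add, ← sub_eq_add_neg]
  ring

theorem q_nonneg {v : ℝ} (hv : 0 ≤ v) (hτ : 0 ≤ τ) : 0 ≤ q α τ v := by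
  unfold q
  have h1 : 0 ≤ v ^ α := rpow_nonneg hv _
  have : 0 ≤ v ^ α + τ := by linarith
  positivity

theorem base_pos {v : ℝ} (hv : 0 ≤ v) (hτ : 0 < τ) : 0 < v ^ α + τ := by
  have h1 : 0 ≤ v ^ α := rpow_nonneg hv _
  linarith

theorem q_continuousOn (hα : 1 < α) (hτ : 0 < τ) : ContinuousOn (q α τ) (Ici 0) := by
  unfold q
  refine ContinuousOn.mul ?_ ?_
  · exact (continuous_id.rpow_const fun _ => Or.inr (by linarith)).continuousOn
  · refine ContinuousOn.rpow_const ?_ fun v hv => Or.inl (base_pos hv hτ).ne'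
    exact ((continuous_id.rpow_const fun _ => Or.inr (by linarith)).add
      continuous_const).continuousOn

theorem D_continuousOn (hα : 1 < α) (hτ : 0 < τ) : ContinuousOn (D α τ) (Icc (-1) 1) := by
  unfold D
  refine ContinuousOn.sub ?_ ?_
  · refine (q_continuousOn hα hτ).comp (by fun_prop) fun a ha => ?_
    simp only [mem_Ici]
    linarith [ha.2]
  · refine (q_continuousOn hα hτ).comp (by fun_prop) fun a ha => ?_
    simp only [mem_Ici]
    linarith [ha.1]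

theorem Gf_hasDerivAt (hα : 1 < α) (hτ : 0 < τ) {v : ℝ} (hv : 0 ≤ v) :
    HasDerivAt (Gf α τ) (-((α + 2) * q α τ v)) v := by
  have h1 : HasDerivAt (fun v : ℝ => v ^ α + τ) (α * v ^ (α - 1)) v :=
    (Real.hasDerivAt_rpow_const (Or.inr hα.le)).add_const _
  have h2 := h1.rpow_const (p := -(1 + 2 / α)) (Or.inl (base_pos hv hτ).ne')
  refine h2.congr_deriv ?_
  unfold q
  have e1 : -(1 + 2 / α) - 1 = -(2 + 2 / α) := by ring
  rw [e1]
  have hα0 : α ≠ 0 := by linarith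
  have e2 : α * v ^ (α - 1) * -(1 + 2 / α) = -((α + 2) * v ^ (α - 1)) := by
    field_simp
  rw [e2]
  ring

theorem Qf_hasDerivAt (hα : 1 < α) (hτ : 0 < τ) {a : ℝ} (h1 : -1 ≤ a) (h2 : a ≤ 1) :
    HasDerivAt (Qf α τ) ((α + 2) * D α τ a) a := by
  have h3 : HasDerivAt (fun a => Gf α τ (1 - a)) (-((α + 2) * q α τ (1 - a)) * (-1)) a :=
    (Gf_hasDerivAt hα hτ (by linarith : (0 : ℝ) ≤ 1 - a)).comp a
      ((hasDerivAt_id a).const_sub 1)
  have h4 : HasDerivAt (fun a => Gf α τ (1 + a)) (-((α + 2) * q α τ (1 + a)) * 1) a :=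
    (Gf_hasDerivAt hα hτ (by linarith : (0 : ℝ) ≤ 1 + a)).comp a
      ((hasDerivAt_id a).const_add 1)
  refine (h3.add h4).congr_deriv ?_
  unfold D
  ring

theorem Qf_continuousOn (hα : 1 < α) (hτ : 0 < τ) : ContinuousOn (Qf α τ) (Icc (-1) 1) :=
  fun _ ha => (Qf_hasDerivAt hα hτ ha.1 ha.2).continuousAt.continuousWithinAt

theorem D_intervalIntegrable (hα : 1 < α) (hτ : 0 < τ) {a b : ℝ} (ha : -1 ≤ a) (ha' : a ≤ 1)
    (hb : -1 ≤ b) (hb' : b ≤ 1) : IntervalIntegrable (D α τ) volume a b := by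
  refine ((D_continuousOn hα hτ).mono ?_).intervalIntegrable
  intro x hx
  rcases le_total a b with h | h
  · rw [uIcc_of_le h] at hx
    exact ⟨ha.trans hx.1, hx.2.trans hb'⟩
  · rw [uIcc_of_ge h] at hx
    exact ⟨hb.trans hx.1, hx.2.trans ha'⟩

theorem Qf_sub (hα : 1 < α) (hτ : 0 < τ) {a b : ℝ} (ha : -1 ≤ a) (hab : a ≤ b) (hb : b ≤ 1) :
    Qf α τ b - Qf α τ a = (α + 2) * ∫ t in a..b, D α τ t := by
  rw [← intervalIntegral.integral_const_mul]
  symm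
  refine intervalIntegral.integral_eq_sub_of_hasDerivAt ?_ ?_
  · intro x hx
    rw [uIcc_of_le hab] at hx
    exact Qf_hasDerivAt hα hτ (ha.trans hx.1) (hx.2.trans hb)
  · exact (D_intervalIntegrable hα hτ ha (hab.trans hb) (ha.trans hab) hb).const_mul _

/-- monotonicity in `τ`, small arguments -/
theorem q_mono_small {k v t : ℝ} (hv : 0 ≤ v) (hvk : v ≤ k) (hα : 1 < α) (hτ : 0 < τ)
    (ht : τ ≤ t) :
    (k ^ α + t) ^ (2 + 2 / α) * q α t v ≤ (k ^ α + τ) ^ (2 + 2 / α) * q α τ v := by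
  have hγ : 0 ≤ 2 + 2 / α := by positivity
  have hk : 0 ≤ k := hv.trans hvk
  have ht0 : 0 < t := hτ.trans_le ht
  have h1 := base_pos (α := α) hv ht0
  have h2 := base_pos (α := α) hv hτ
  have h3 := base_pos (α := α) hk ht0
  have h4 := base_pos (α := α) hk hτ
  have hpow : v ^ α ≤ k ^ α := rpow_le_rpow hv hvk (by linarith)
  have key : ((k ^ α + t) / (v ^ α + t)) ^ (2 + 2 / α) ≤
      ((k ^ α + τ) / (v ^ α + τ)) ^ (2 + 2 / α) := by
    refine rpow_le_rpow (by positivity) ?_ hγ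
    rw [div_le_div_iff₀ h1 h2]
    nlinarith
  have e : ∀ s : ℝ, 0 < v ^ α + s → 0 < k ^ α + s →
      (k ^ α + s) ^ (2 + 2 / α) * q α s v =
        v ^ (α - 1) * ((k ^ α + s) / (v ^ α + s)) ^ (2 + 2 / α) := by
    intro s hs hs'
    unfold q
    rw [div_rpow hs'.le hs.le, rpow_neg hs.le]
    ring
  rw [e t h1 h3, e τ h2 h4]
  exact mul_le_mul_of_nonneg_left key (rpow_nonneg hv _)

/-- monotonicity in `τ`, large arguments -/
theorem q_mono_large {k v t : ℝ} (hk : 0 ≤ k) (hvk : k ≤ v) (hα : 1 < α) (hτ : 0 < τ)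
    (ht : τ ≤ t) :
    (k ^ α + τ) ^ (2 + 2 / α) * q α τ v ≤ (k ^ α + t) ^ (2 + 2 / α) * q α t v := by
  have hγ : 0 ≤ 2 + 2 / α := by positivity
  have hv : 0 ≤ v := hk.trans hvk
  have ht0 : 0 < t := hτ.trans_le ht
  have h1 := base_pos (α := α) hv ht0
  have h2 := base_pos (α := α) hv hτ
  have h3 := base_pos (α := α) hk ht0
  have h4 := base_pos (α := α) hk hτ
  have hpow : k ^ α ≤ v ^ α := rpow_le_rpow hk hvk (by linarith)
  have key : ((k ^ α + τ) / (v ^ α + τ)) ^ (2 + 2 / α) ≤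
      ((k ^ α + t) / (v ^ α + t)) ^ (2 + 2 / α) := by
    refine rpow_le_rpow (by positivity) ?_ hγ
    rw [div_le_div_iff₀ h2 h1]
    nlinarith
  have e : ∀ s : ℝ, 0 < v ^ α + s → 0 < k ^ α + s →
      (k ^ α + s) ^ (2 + 2 / α) * q α s v =
        v ^ (α - 1) * ((k ^ α + s) / (v ^ α + s)) ^ (2 + 2 / α) := by
    intro s hs hs'
    unfold q
    rw [div_rpow hs'.le hs.le, rpow_neg hs.le]
    ring
  rw [e t h1 h3, e τ h2 h4]
  exact mul_le_mul_of_nonneg_left key (rpow_nonneg hv _)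

/-- monotonicity of `D` in `τ` -/
theorem D_mono {a t : ℝ} (ha : 0 ≤ a) (ha1 : a ≤ 1) (hα : 1 < α) (hτ : 0 < τ) (ht : τ ≤ t) :
    (1 + t) ^ (2 + 2 / α) * D α t a ≤ (1 + τ) ^ (2 + 2 / α) * D α τ a := by
  have h1 := q_mono_small (k := 1) (v := 1 - a) (by linarith) (by linarith) hα hτ ht
  have h2 := q_mono_large (k := 1) (v := 1 + a) (by norm_num) (by linarith) hα hτ ht
  rw [one_rpow] at h1 h2
  unfold D
  rw [mul_sub, mul_sub]
  linarith

theorem D_nonneg_of {a t : ℝ} (ha : 0 ≤ a) (ha1 : a ≤ 1) (hα : 1 < α) (hτ : 0 < τ) (ht : τ ≤ t)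
    (h : 0 ≤ D α t a) : 0 ≤ D α τ a := by
  have h1 := D_mono ha ha1 hα hτ ht
  have h2 : 0 ≤ (1 + t) ^ (2 + 2 / α) * D α t a :=
    mul_nonneg (rpow_nonneg (by linarith [hτ.trans_le ht]) _) h
  have h3 : 0 < (1 + τ) ^ (2 + 2 / α) := rpow_pos_of_pos (by linarith) _
  exact nonneg_of_mul_nonneg_right (h2.trans h1) h3

/-- an upper bound for `q 1 (2 - x)` -/
theorem q_far_le {v : ℝ} (hα : 1 < α) (hv : 0 < v) (hτ : 0 < τ) {w : ℝ} (hw : 0 < w)
    (hwv : w * v ≤ 1) :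
    q α τ v ≤ v ^ (-(α + 3)) * (1 + τ * w ^ α) ^ (-(2 + 2 / α)) := by
  have hα0 : α ≠ 0 := by linarith
  unfold q
  have h0 : 0 < v ^ α := rpow_pos_of_pos hv _
  have hwα : 0 < w ^ α := rpow_pos_of_pos hw _
  have h1 : v ^ α * (1 + τ * w ^ α) ≤ v ^ α + τ := by
    have : v ^ α * w ^ α ≤ 1 := by
      rw [← mul_rpow hv.le hw.le]
      exact rpow_le_one (by positivity) (by linarith) (by linarith)
    nlinarith
  have h2 : (v ^ α + τ) ^ (-(2 + 2 / α)) ≤ (v ^ α * (1 + τ * w ^ α)) ^ (-(2 + 2 / α)) := by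
    refine rpow_le_rpow_of_nonpos (by positivity) h1 ?_
    have : 0 ≤ 2 + 2 / α := by positivity
    linarith
  refine (mul_le_mul_of_nonneg_left h2 (rpow_nonneg hv.le _)).trans (le_of_eq ?_)
  rw [mul_rpow h0.le (by positivity), ← rpow_mul hv.le, ← mul_assoc, ← rpow_add hv]
  congr 2
  field_simp
  ring

/-- `D α 1 a ≥ 0` if `(1 - a)^(α-1) (1 + a)^(α+3) ≥ 1` -/
theorem D_one_nonneg {a : ℝ} (hα : 1 < α) (ha : 0 ≤ a) (ha1 : a < 1)
    (h : 1 ≤ (1 - a ^ 2) ^ (α - 1) * (1 + a) ^ (4 : ℕ)) : 0 ≤ D α 1 a := by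
  have h1 := q_far_le (v := 1 + a) (w := 1 - a) hα (by linarith) one_pos (by linarith)
    (by nlinarith)
  unfold D
  rw [sub_nonneg]
  refine h1.trans ?_
  unfold q
  rw [one_mul, add_comm 1 ((1 - a) ^ α)]
  refine mul_le_mul_of_nonneg_right ?_ (rpow_nonneg (by
    have := rpow_nonneg (by linarith : (0 : ℝ) ≤ 1 - a) α
    linarith) _)
  have h2 : 0 < 1 + a := by linarith
  have h3 : (1 - a ^ 2) ^ (α - 1) = (1 - a) ^ (α - 1) * (1 + a) ^ (α - 1) := by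
    rw [← mul_rpow (by linarith) h2.le]
    congr 1
    ring
  have h4 : (1 + a) ^ (-(α + 3)) = ((1 + a) ^ (α - 1) * (1 + a) ^ (4 : ℕ))⁻¹ := by
    rw [← rpow_natCast, ← rpow_add h2, rpow_neg h2.le]
    congr 2
    push_cast
    ring
  rw [h4]
  rw [h3] at h
  have h5 : 0 < (1 + a) ^ (α - 1) * (1 + a) ^ (4 : ℕ) := by positivity
  rw [inv_le_iff_one_le_mul₀ h5]
  linarith

end LpSec.Avg
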