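import Mathlib
import Pool.Agent.Lib.MP_1dbab3_gt.WAvg.A1

/-!
# Averaging lemma, part A2: sign of `D`, the pointwise lemmas
-/

open Real MeasureTheory Set intervalIntegral

namespace LpSec.Avg

variable {α τ : ℝ}

/-- Bernoulli: `x ^ t ≤ 1 + t (x - 1)` for `0 ≤ t ≤ 1` -/
theorem rpow_le_chord {x t : ℝ} (hx : 0 ≤ x) (ht : 0 ≤ t) (ht1 : t ≤ 1) :
    x ^ t ≤ 1 + t * (x - 1) := by
  have h := rpow_one_add_le_one_add_mul_self (s := x - 1) (by linarith) ht ht1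
  rw [add_sub_cancel] at h
  exact h

/-- Bernoulli: `1 + t (x - 1) ≤ x ^ t` for `1 ≤ t` -/
theorem chord_le_rpow {x t : ℝ} (hx : 0 ≤ x) (ht : 1 ≤ t) : 1 + t * (x - 1) ≤ x ^ t := by
  have h := one_add_mul_self_le_rpow_one_add (s := x - 1) (by linarith) ht
  rw [add_sub_cancel] at h
  exact h

/-- `D α 1 ≥ 0` on `[0, 24/25]` for `α ≤ 2` -/
theorem D_one_nonneg_I {a : ℝ} (hα : 1 < α) (hα2 : α ≤ 2) (ha : 0 ≤ a) (ha1 : a ≤ 24 / 25) :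
    0 ≤ D α 1 a := by
  refine D_one_nonneg hα ha (by linarith) ?_
  have h0 : 0 < 1 - a ^ 2 := by nlinarith
  have h1 : (1 - a ^ 2) ^ (1 : ℝ) ≤ (1 - a ^ 2) ^ (α - 1) :=
    rpow_le_rpow_of_exponent_ge h0 (by nlinarith) (by linarith)
  rw [rpow_one] at h1
  have h2 : 1 ≤ (1 - a ^ 2) * (1 + a) ^ (4 : ℕ) := by
    have e : (1 - a ^ 2) * (1 + a) ^ (4 : ℕ) - 1 = a * (4 + 5 * a - 5 * a ^ 3 - 4 * a ^ 4 - a ^ 5) := by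
      ring
    have h3 : 0 ≤ 4 + 5 * a - 5 * a ^ 3 - 4 * a ^ 4 - a ^ 5 := by
      have a2 : a ^ 2 ≤ 24 / 25 * a := by nlinarith
      have a3 : a ^ 3 ≤ 24 / 25 * a ^ 2 := by nlinarith [sq_nonneg a]
      have a4 : a ^ 4 ≤ 24 / 25 * a ^ 3 := by nlinarith [pow_nonneg ha 3]
      have a5 : a ^ 5 ≤ 24 / 25 * a ^ 4 := by nlinarith [pow_nonneg ha 4]
      nlinarith
    nlinarith
  refine h2.trans ?_
  exact mul_le_mul_of_nonneg_right h1 (by positivity)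

/-- `D α 1 ≥ 0` on `[0, 5/6]` for `α ≤ 3` -/
theorem D_one_nonneg_II {a : ℝ} (hα : 1 < α) (hα3 : α ≤ 3) (ha : 0 ≤ a) (ha1 : a ≤ 5 / 6) :
    0 ≤ D α 1 a := by
  refine D_one_nonneg hα ha (by linarith) ?_
  have h0 : 0 < 1 - a ^ 2 := by nlinarith
  have h1 : (1 - a ^ 2) ^ (2 : ℝ) ≤ (1 - a ^ 2) ^ (α - 1) :=
    rpow_le_rpow_of_exponent_ge h0 (by nlinarith) (by linarith)
  have h2 : 1 ≤ (1 - a) * (1 + a) ^ (3 : ℕ) := by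
    have e : (1 - a) * (1 + a) ^ (3 : ℕ) - 1 = a * (2 - 2 * a ^ 2 - a ^ 3) := by
      ring
    have h3 : 0 ≤ 2 - 2 * a ^ 2 - a ^ 3 := by
      have a2 : a ^ 2 ≤ (5 / 6) ^ 2 := pow_le_pow_left₀ ha ha1 2
      have a3 : a ^ 3 ≤ (5 / 6) ^ 3 := pow_le_pow_left₀ ha ha1 3
      linarith
    nlinarith
  have h4 : 1 ≤ (1 - a ^ 2) ^ (2 : ℝ) * (1 + a) ^ (4 : ℕ) := by
    rw [rpow_two]
    have e : (1 - a ^ 2) ^ 2 * (1 + a) ^ 4 = ((1 - a) * (1 + a) ^ 3) ^ 2 := by ring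
    rw [e]
    nlinarith
  refine h4.trans ?_
  exact mul_le_mul_of_nonneg_right h1 (by positivity)

/-- `D α 1 ≥ 0` on `[0, 2/3]` for `α ≤ 4` -/
theorem D_one_nonneg_III {a : ℝ} (hα : 1 < α) (hα4 : α ≤ 4) (ha : 0 ≤ a) (ha1 : a ≤ 2 / 3) :
    0 ≤ D α 1 a := by
  refine D_one_nonneg hα ha (by linarith) ?_
  have h0 : 0 < 1 - a ^ 2 := by nlinarith
  have h1 : (1 - a ^ 2) ^ (3 : ℝ) ≤ (1 - a ^ 2) ^ (α - 1) :=
    rpow_le_rpow_of_exponent_ge h0 (by nlinarith) (by linarith)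
  have h4 : 1 ≤ (1 - a ^ 2) ^ (3 : ℝ) * (1 + a) ^ (4 : ℕ) := by
    rw [show (3 : ℝ) = ((3 : ℕ) : ℝ) by norm_num, rpow_natCast]
    have e : (1 - a ^ 2) ^ 3 * (1 + a) ^ 4 - 1 =
        a * (4 + 3 * a - 8 * a ^ 2 - 14 * a ^ 3 + 14 * a ^ 5 + 8 * a ^ 6 - 3 * a ^ 7 - 4 * a ^ 8
          - a ^ 9) := by
      ring
    have h3 : 0 ≤ 4 + 3 * a - 8 * a ^ 2 - 14 * a ^ 3 + 14 * a ^ 5 + 8 * a ^ 6 - 3 * a ^ 7
        - 4 * a ^ 8 - a ^ 9 := by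
      have e2 : 4 + 3 * a - 8 * a ^ 2 - 14 * a ^ 3 + 14 * a ^ 5 + 8 * a ^ 6 - 3 * a ^ 7
        - 4 * a ^ 8 - a ^ 9 = (4 + 3 * a - 8 * a ^ 2 - 14 * a ^ 3 + 14 * a ^ 5) +
          a ^ 6 * (8 - 3 * a - 4 * a ^ 2 - a ^ 3) := by ring
      have h5 : 0 ≤ 8 - 3 * a - 4 * a ^ 2 - a ^ 3 := by nlinarith [pow_nonneg ha 2, pow_nonneg ha 3]
      have h6 : 0 ≤ 4 + 3 * a - 8 * a ^ 2 - 14 * a ^ 3 + 14 * a ^ 5 := by
        nlinarith [pow_nonneg ha 2, pow_nonneg ha 3, sq_nonneg (a - 2 / 3), sq_nonneg (a ^ 2 - 4 / 9),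
          mul_nonneg ha (sq_nonneg (a ^ 2 - 4 / 9)), mul_nonneg ha (sub_nonneg.2 ha1)]
      rw [e2]
      have : 0 ≤ a ^ 6 * (8 - 3 * a - 4 * a ^ 2 - a ^ 3) := mul_nonneg (by positivity) h5
      linarith
    nlinarith
  refine h4.trans ?_
  exact mul_le_mul_of_nonneg_right h1 (by positivity)

end LpSec.Avg
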