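import Mathlib
import Pool.Agent.Lib.MP_1dbab3_gt.WAvg.A2

/-!
# Averaging lemma, part A3: the integrals of `D` over intervals starting below `1/2`
-/

open Real MeasureTheory Set intervalIntegral

namespace LpSec.Avg

variable {α τ : ℝ}

theorem q_intervalIntegrable (hα : 1 < α) (hτ : 0 < τ) {a b : ℝ} (ha : 0 ≤ a) (hb : 0 ≤ b) :
    IntervalIntegrable (q α τ) volume a b := by
  refine ((q_continuousOn hα hτ).mono ?_).intervalIntegrable
  intro x hx
  rw [mem_Ici]
  rcases le_total a b with h | h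
  · rw [uIcc_of_le h] at hx
    exact ha.trans hx.1
  · rw [uIcc_of_ge h] at hx
    exact hb.trans hx.1

/-- the numerical inequality behind `intD_one` -/
theorem num_one (hα : 1 < α) (hα4 : α ≤ 4) :
    ((2 / 3 : ℝ) ^ (α + 2) - (1 / 2) ^ (α + 2)) / (α + 2) ≤
      ((1 / 2 : ℝ) ^ α - (1 / 3) ^ α) / α := by
  have e1 : (2 / 3 : ℝ) ^ (α + 2) = (1 / 2) ^ α * ((4 / 3) ^ α * (4 / 9)) := by
    rw [rpow_add (by norm_num), ← mul_assoc, ← mul_rpow (by norm_num) (by norm_num)]
    norm_num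
  have e2 : (1 / 2 : ℝ) ^ (α + 2) = (1 / 2) ^ α * (1 / 4) := by
    rw [rpow_add (by norm_num)]
    norm_num
  have e3 : (1 / 3 : ℝ) ^ α = (1 / 2) ^ α * (2 / 3) ^ α := by
    rw [← mul_rpow (by norm_num) (by norm_num)]
    norm_num
  rw [e1, e2, e3]
  have h2 : 0 < (1 / 2 : ℝ) ^ α := by positivity
  have key : α * ((4 / 3 : ℝ) ^ α * (4 / 9) - 1 / 4) ≤ (α + 2) * (1 - (2 / 3) ^ α) := by
    rcases le_total α 2 with h | h
    · have a1 : (4 / 3 : ℝ) ^ α ≤ (4 / 3) ^ (2 : ℝ) :=
        rpow_le_rpow_of_exponent_le (by norm_num) h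
      have a2 : (2 / 3 : ℝ) ^ α ≤ (2 / 3) ^ (1 : ℝ) :=
        rpow_le_rpow_of_exponent_ge (by norm_num) (by norm_num) hα.le
      rw [rpow_two] at a1
      rw [rpow_one] at a2
      nlinarith
    rcases le_total α 3 with h' | h'
    · have a1 : (4 / 3 : ℝ) ^ α ≤ (4 / 3) ^ (3 : ℝ) :=
        rpow_le_rpow_of_exponent_le (by norm_num) h'
      have a2 : (2 / 3 : ℝ) ^ α ≤ (2 / 3) ^ (2 : ℝ) :=
        rpow_le_rpow_of_exponent_ge (by norm_num) (by norm_num) h
      rw [rpow_two] at a2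
      rw [show (3 : ℝ) = ((3 : ℕ) : ℝ) by norm_num, rpow_natCast] at a1
      nlinarith
    · obtain ⟨t, rfl⟩ : ∃ t, α = 3 + t := ⟨α - 3, by ring⟩
      have ht : 0 ≤ t := by linarith
      have ht1 : t ≤ 1 := by linarith
      have a1 := rpow_le_chord (x := 4 / 3) (by norm_num) ht ht1
      have a2 := rpow_le_chord (x := 2 / 3) (by norm_num) ht ht1
      have b1 : (4 / 3 : ℝ) ^ (3 + t) = 64 / 27 * (4 / 3) ^ t := by
        rw [rpow_add (by norm_num)]
        norm_num
      have b2 : (2 / 3 : ℝ) ^ (3 + t) = 8 / 27 * (2 / 3) ^ t := by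
        rw [rpow_add (by norm_num)]
        norm_num
      rw [b1, b2]
      nlinarith
  rw [div_le_div_iff₀ (by linarith) (by linarith)]
  have e : ((1 / 2 : ℝ) ^ α * ((4 / 3) ^ α * (4 / 9)) - (1 / 2) ^ α * (1 / 4)) * α =
      (1 / 2 : ℝ) ^ α * (α * ((4 / 3 : ℝ) ^ α * (4 / 9) - 1 / 4)) := by ring
  have e' : ((1 / 2 : ℝ) ^ α - (1 / 2) ^ α * (2 / 3) ^ α) * (α + 2) =
      (1 / 2 : ℝ) ^ α * ((α + 2) * (1 - (2 / 3) ^ α)) := by ring
  rw [e, e']
  exact mul_le_mul_of_nonneg_left key h2.le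

/-- `∫_{3/2}^2 q ≤ ∫_{1/3}^{1/2} q` -/
theorem int_q_compare (hα : 1 < α) (hα4 : α ≤ 4) :
    ∫ v in (3 / 2 : ℝ)..2, q α 1 v ≤ ∫ v in (1 / 3 : ℝ)..(1 / 2), q α 1 v := by
  set B : ℝ := (1 + (1 / 2 : ℝ) ^ α) ^ (-(2 + 2 / α)) with hB
  have hB0 : 0 < B := by positivity
  have hγ : 0 ≤ 2 + 2 / α := by positivity
  have h1 : ∫ v in (3 / 2 : ℝ)..2, q α 1 v ≤ ∫ v in (3 / 2 : ℝ)..2, v ^ (-(α + 3)) * B := by
    refine intervalIntegral.integral_mono_on (by norm_num)
      (q_intervalIntegrable hα one_pos (by norm_num) (by norm_num)) ?_ ?_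
    · refine ContinuousOn.intervalIntegrable ?_
      refine ContinuousOn.mul ?_ continuousOn_const
      refine ContinuousOn.rpow_const continuousOn_id fun x hx => Or.inl ?_
      rw [uIcc_of_le (by norm_num)] at hx
      have := hx.1
      linarith
    · intro v hv
      have h := q_far_le (v := v) (w := 1 / 2) hα (by linarith [hv.1]) one_pos (by norm_num)
        (by linarith [hv.2])
      rw [one_mul] at h
      exact h
  have h2 : ∫ v in (1 / 3 : ℝ)..(1 / 2), v ^ (α - 1) * B ≤ ∫ v in (1 / 3 : ℝ)..(1 / 2), q α 1 v := by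
    refine intervalIntegral.integral_mono_on (by norm_num) ?_
      (q_intervalIntegrable hα one_pos (by norm_num) (by norm_num)) ?_
    · refine ContinuousOn.intervalIntegrable ?_
      exact ((continuous_id.rpow_const fun _ => Or.inr (by linarith)).mul
        continuous_const).continuousOn
    · intro v hv
      have hv0 : 0 ≤ v := by linarith [hv.1]
      unfold q
      refine mul_le_mul_of_nonneg_left ?_ (rpow_nonneg hv0 _)
      rw [hB]
      have h3 : v ^ α ≤ (1 / 2) ^ α := rpow_le_rpow hv0 hv.2 (by linarith)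
      refine rpow_le_rpow_of_nonpos (base_pos hv0 one_pos) (by linarith) (by linarith)
  refine h1.trans (le_trans ?_ h2)
  rw [intervalIntegral.integral_mul_const, intervalIntegral.integral_mul_const]
  refine mul_le_mul_of_nonneg_right ?_ hB0.le
  rw [integral_rpow (Or.inr ⟨by linarith, by
    rw [uIcc_of_le (by norm_num)]
    intro h
    have := h.1
    linarith⟩), integral_rpow (Or.inl (by linarith))]
  have e1 : -(α + 3) + 1 = -(α + 2) := by ring
  have e2 : α - 1 + 1 = α := by ring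
  rw [e1, e2]
  refine le_trans (le_of_eq ?_) (num_one hα hα4)
  rw [rpow_neg (by norm_num), rpow_neg (by norm_num), ← inv_rpow (by norm_num),
    ← inv_rpow (by norm_num), div_neg, ← neg_div, neg_sub]
  norm_num

theorem D_ge_neg {a : ℝ} (ha : a ≤ 1) (hτ : 0 < τ) : -q α τ (1 + a) ≤ D α τ a := by
  have := q_nonneg (α := α) (v := 1 - a) (by linarith) hτ.le
  unfold D
  linarith

theorem intD_one (hα : 1 < α) (hα4 : α ≤ 4) {a b : ℝ} (ha : 0 ≤ a) (ha2 : a ≤ 1 / 2) (hab : a ≤ b)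
    (hb : b ≤ 1) : 0 ≤ ∫ t in a..b, D α 1 t := by
  rcases le_total b (2 / 3) with h | h
  · exact intervalIntegral.integral_nonneg hab fun x hx =>
      D_one_nonneg_III hα hα4 (ha.trans hx.1) (hx.2.trans h)
  have hi : ∀ {c d : ℝ}, 0 ≤ c → c ≤ 1 → 0 ≤ d → d ≤ 1 → IntervalIntegrable (D α 1) volume c d :=
    fun hc hc' hd hd' => D_intervalIntegrable hα one_pos (by linarith) hc' (by linarith) hd'
  have hq1 : ∀ {c d : ℝ}, 0 ≤ c → 0 ≤ d →
      IntervalIntegrable (fun a => q α 1 (1 + a)) volume c d := by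
    intro c d hc hd
    have := (q_intervalIntegrable (τ := 1) hα one_pos (by linarith : (0 : ℝ) ≤ 1 + c)
      (by linarith : (0 : ℝ) ≤ 1 + d)).comp_add_left 1
    simpa using this
  have hq2 : ∀ {c d : ℝ}, c ≤ 1 → d ≤ 1 →
      IntervalIntegrable (fun a => q α 1 (1 - a)) volume c d := by
    intro c d hc hd
    have := (q_intervalIntegrable (τ := 1) hα one_pos (by linarith : (0 : ℝ) ≤ 1 - c)
      (by linarith : (0 : ℝ) ≤ 1 - d)).comp_sub_left 1
    simpa using this
  have s1 : ∫ t in a..b, D α 1 t = (∫ t in a..(1 / 2), D α 1 t) +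
      (∫ t in (1 / 2)..(2 / 3), D α 1 t) + ∫ t in (2 / 3)..b, D α 1 t := by
    rw [intervalIntegral.integral_add_adjacent_intervals
      (hi ha (by linarith) (by norm_num) (by norm_num))
      (hi (by norm_num) (by norm_num) (by norm_num) (by norm_num)),
      intervalIntegral.integral_add_adjacent_intervals
      (hi ha (by linarith) (by norm_num) (by norm_num))
      (hi (by norm_num) (by norm_num) (by linarith) hb)]
  have s2 : 0 ≤ ∫ t in a..(1 / 2), D α 1 t :=
    intervalIntegral.integral_nonneg ha2 fun x hx =>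
      D_one_nonneg_III hα hα4 (ha.trans hx.1) (hx.2.trans (by norm_num))
  have s3 : ∫ t in (1 / 2 : ℝ)..(2 / 3), D α 1 t = (∫ v in (1 / 3 : ℝ)..(1 / 2), q α 1 v) -
      ∫ t in (1 / 2 : ℝ)..(2 / 3), q α 1 (1 + t) := by
    unfold D
    rw [intervalIntegral.integral_sub (hq2 (by norm_num) (by norm_num))
      (hq1 (by norm_num) (by norm_num)), intervalIntegral.integral_comp_sub_left (q α 1)]
    norm_num
  have s4 : -(∫ t in (2 / 3 : ℝ)..b, q α 1 (1 + t)) ≤ ∫ t in (2 / 3 : ℝ)..b, D α 1 t := by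
    rw [← intervalIntegral.integral_neg]
    exact intervalIntegral.integral_mono_on h (hq1 (by norm_num) (by linarith)).neg
      (hi (by norm_num) (by norm_num) (by linarith) hb) fun x hx =>
        D_ge_neg (hx.2.trans hb) one_pos
  have s5 : (∫ t in (1 / 2 : ℝ)..(2 / 3), q α 1 (1 + t)) + (∫ t in (2 / 3 : ℝ)..b, q α 1 (1 + t)) +
      (∫ t in b..1, q α 1 (1 + t)) = ∫ v in (3 / 2 : ℝ)..2, q α 1 v := by
    rw [intervalIntegral.integral_add_adjacent_intervals (hq1 (by norm_num) (by norm_num))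
      (hq1 (by norm_num) (by linarith)),
      intervalIntegral.integral_add_adjacent_intervals (hq1 (by norm_num) (by linarith))
      (hq1 (by linarith) (by norm_num)), intervalIntegral.integral_comp_add_left (q α 1)]
    norm_num
  have s6 : 0 ≤ ∫ t in b..1, q α 1 (1 + t) :=
    intervalIntegral.integral_nonneg hb fun x hx =>
      q_nonneg (by linarith [hx.1]) zero_le_one
  have s7 := int_q_compare hα hα4
  linarith

theorem intD_nonneg (hα : 1 < α) (hα4 : α ≤ 4) (hτ : 0 < τ) (hτ1 : τ ≤ 1) {a b : ℝ} (ha : 0 ≤ a)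
    (ha2 : a ≤ 1 / 2) (hab : a ≤ b) (hb : b ≤ 1) : 0 ≤ ∫ t in a..b, D α τ t := by
  have h1 := intD_one hα hα4 ha ha2 hab hb
  have h2 : (∫ t in a..b, (1 + 1) ^ (2 + 2 / α) * D α 1 t) ≤
      ∫ t in a..b, (1 + τ) ^ (2 + 2 / α) * D α τ t := by
    refine intervalIntegral.integral_mono_on hab
      ((D_intervalIntegrable hα one_pos (by linarith) (by linarith) (by linarith) hb).const_mul _)
      ((D_intervalIntegrable hα hτ (by linarith) (by linarith) (by linarith) hb).const_mul _) ?_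
    intro x hx
    exact D_mono (ha.trans hx.1) (hx.2.trans hb) hα hτ hτ1
  rw [intervalIntegral.integral_const_mul, intervalIntegral.integral_const_mul] at h2
  have h3 : 0 < (1 + τ) ^ (2 + 2 / α) := by positivity
  have h4 : 0 ≤ (1 + 1 : ℝ) ^ (2 + 2 / α) * ∫ t in a..b, D α 1 t := by positivity
  exact nonneg_of_mul_nonneg_right (h4.trans h2) h3

end LpSec.Avg
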