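import Mathlib
import Pool.Agent.Lib.MP_1dbab3_gt.WAvg.A3

/-!
# Averaging lemma, part A4: intervals starting above `1/2` and `τ` small
-/

open Real MeasureTheory Set intervalIntegral

namespace LpSec.Avg

variable {α τ : ℝ}

theorem intD_nonneg_far (hα : 1 < α) (hα4 : α ≤ 4) (hτ : 0 < τ) {a b : ℝ} (ha : 1 / 2 ≤ a)
    (hτ1 : τ ≤ (1 - a) ^ α) (hab : a ≤ b) (hb : b ≤ 1) : 0 ≤ ∫ t in a..b, D α τ t := by
  rcases eq_or_lt_of_le (hab.trans hb) with h | ha1
  · rw [h, sub_self, zero_rpow (by linarith)] at hτ1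
    linarith
  set k := 1 - a with hk
  have hk0 : 0 < k := by linarith
  have hk2 : k ≤ 1 / 2 := by linarith
  have hkα : 0 < k ^ α := rpow_pos_of_pos hk0 _
  have hγ : 0 ≤ 2 + 2 / α := by positivity
  have hi : IntervalIntegrable (D α (k ^ α)) volume a b :=
    D_intervalIntegrable hα hkα (by linarith) (by linarith) (by linarith) hb
  -- lower bound for `D` with `τ = k ^ α`
  set C : ℝ := (2 * k ^ α) ^ (-(2 + 2 / α)) with hC
  have hC0 : 0 < C := by positivity
  have h1 : ∫ t in a..b, ((1 - t) ^ (α - 1) * C - (3 / 2 : ℝ) ^ (-(α + 3))) ≤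
      ∫ t in a..b, D α (k ^ α) t := by
    refine intervalIntegral.integral_mono_on hab ?_ hi ?_
    · refine ContinuousOn.intervalIntegrable ?_
      refine ContinuousOn.sub (ContinuousOn.mul ?_ continuousOn_const) continuousOn_const
      exact ((continuous_const.sub continuous_id).rpow_const fun _ =>
        Or.inr (by linarith)).continuousOn
    · intro t ht
      have ht1 : 0 ≤ 1 - t := by linarith [ht.2]
      have htk : 1 - t ≤ k := by linarith [ht.1]
      have b1 : (1 - t) ^ (α - 1) * C ≤ q α (k ^ α) (1 - t) := by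
        unfold q
        refine mul_le_mul_of_nonneg_left ?_ (rpow_nonneg ht1 _)
        rw [hC]
        have h3 : (1 - t) ^ α ≤ k ^ α := rpow_le_rpow ht1 htk (by linarith)
        exact rpow_le_rpow_of_nonpos (base_pos ht1 hkα) (by linarith) (by linarith)
      have b2 : q α (k ^ α) (1 + t) ≤ (3 / 2 : ℝ) ^ (-(α + 3)) := by
        have hv : 0 < 1 + t := by linarith [ht.1]
        have h := q_far_le (v := 1 + t) (w := (1 + t)⁻¹) hα hv hkα (by positivity)
          (by rw [inv_mul_cancel₀ hv.ne'])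
        refine h.trans ?_
        have c1 : (1 + t) ^ (-(α + 3)) ≤ (3 / 2 : ℝ) ^ (-(α + 3)) :=
          rpow_le_rpow_of_nonpos (by norm_num) (by linarith [ht.1]) (by linarith)
        have c2 : (1 + k ^ α * ((1 + t)⁻¹) ^ α) ^ (-(2 + 2 / α)) ≤ 1 := by
          refine rpow_le_one_of_one_le_of_nonpos ?_ (by linarith)
          have : 0 ≤ k ^ α * ((1 + t)⁻¹) ^ α := by positivity
          linarith
        calc (1 + t) ^ (-(α + 3)) * (1 + k ^ α * ((1 + t)⁻¹) ^ α) ^ (-(2 + 2 / α))
            ≤ (1 + t) ^ (-(α + 3)) * 1 :=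
              mul_le_mul_of_nonneg_left c2 (rpow_nonneg hv.le _)
          _ ≤ _ := by rw [mul_one]; exact c1
      unfold D
      linarith
  -- the integral of the lower bound
  have h2 : ∫ t in a..b, ((1 - t) ^ (α - 1) * C - (3 / 2 : ℝ) ^ (-(α + 3))) =
      (k ^ α - (1 - b) ^ α) / α * C - (b - a) * (3 / 2 : ℝ) ^ (-(α + 3)) := by
    rw [intervalIntegral.integral_sub, intervalIntegral.integral_mul_const,
      intervalIntegral.integral_const, smul_eq_mul]
    · congr 2
      have := intervalIntegral.integral_comp_sub_left (fun x => x ^ (α - 1)) (1 : ℝ) (a := a)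
        (b := b)
      rw [this, integral_rpow (Or.inl (by linarith)), sub_add_cancel]
    · refine ContinuousOn.intervalIntegrable (ContinuousOn.mul ?_ continuousOn_const)
      exact ((continuous_const.sub continuous_id).rpow_const fun _ =>
        Or.inr (by linarith)).continuousOn
    · exact intervalIntegrable_const
  have h3 : (b - a) * k ^ (α - 1) ≤ k ^ α - (1 - b) ^ α := by
    have e1 : k ^ α = k * k ^ (α - 1) := by
      rw [← rpow_one_add' hk0.le (by linarith)]
      congr 1
      ring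
    have e2 : (1 - b) ^ α ≤ (1 - b) * k ^ (α - 1) := by
      have hb1 : 0 ≤ 1 - b := by linarith
      have e3 : (1 - b) ^ α = (1 - b) * (1 - b) ^ (α - 1) := by
        rw [← rpow_one_add' hb1 (by linarith)]
        congr 1
        ring
      rw [e3]
      exact mul_le_mul_of_nonneg_left (rpow_le_rpow hb1 (by linarith) (by linarith)) hb1
    rw [e1]
    have : b - a = k - (1 - b) := by rw [hk]; ring
    rw [this, sub_mul]
    linarith
  have h4 : (3 / 2 : ℝ) ^ (-(α + 3)) ≤ k ^ (α - 1) / α * C := by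
    have e1 : C = 2 ^ (-(2 + 2 / α)) * k ^ (-(2 * α + 2)) := by
      rw [hC, mul_rpow (by norm_num) hkα.le, ← rpow_mul hk0.le]
      congr 2
      field_simp
    have e2 : k ^ (α - 1) * k ^ (-(2 * α + 2)) = k ^ (-(α + 3)) := by
      rw [← rpow_add hk0]
      congr 1
      ring
    have e3 : (1 / 2 : ℝ) ^ (-(α + 3)) ≤ k ^ (-(α + 3)) :=
      rpow_le_rpow_of_nonpos hk0 hk2 (by linarith)
    have e4 : (1 / 2 : ℝ) ^ (-(α + 3)) = 2 ^ (α + 3) := by
      rw [rpow_neg (by norm_num), ← inv_rpow (by norm_num)]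
      norm_num
    have e5 : (1 : ℝ) ≤ 2 ^ (-(2 + 2 / α)) * 2 ^ (α + 3) := by
      rw [← rpow_add (by norm_num)]
      refine one_le_rpow (by norm_num) ?_
      have : 2 / α ≤ 2 := by
        rw [div_le_iff₀ (by linarith)]
        linarith
      linarith
    have e6 : (3 / 2 : ℝ) ^ (-(α + 3)) ≤ 1 / 4 := by
      have : (3 / 2 : ℝ) ^ (-(α + 3)) ≤ (3 / 2 : ℝ) ^ (-4 : ℝ) :=
        rpow_le_rpow_of_exponent_le (by norm_num) (by linarith)
      refine this.trans ?_
      rw [show (-4 : ℝ) = ((-4 : ℤ) : ℝ) by norm_num, rpow_intCast]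
      norm_num
    have e7 : 1 / 4 ≤ 1 / α := one_div_le_one_div_of_le (by linarith) hα4
    have e8 : (1 : ℝ) ≤ k ^ (α - 1) * C := by
      rw [e1]
      calc (1 : ℝ) ≤ 2 ^ (-(2 + 2 / α)) * 2 ^ (α + 3) := e5
        _ ≤ 2 ^ (-(2 + 2 / α)) * k ^ (-(α + 3)) := by
            rw [← e4]
            exact mul_le_mul_of_nonneg_left e3 (by positivity)
        _ = _ := by rw [← e2]; ring
    calc (3 / 2 : ℝ) ^ (-(α + 3)) ≤ 1 / α := e6.trans e7
      _ ≤ (k ^ (α - 1) * C) / α := by
          refine div_le_div_of_nonneg_right e8 (by linarith)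
      _ = _ := by ring
  have h5 : 0 ≤ ∫ t in a..b, D α (k ^ α) t := by
    refine le_trans ?_ h1
    rw [h2]
    have hba : 0 ≤ b - a := by linarith
    have c1 : (b - a) * (3 / 2 : ℝ) ^ (-(α + 3)) ≤ (b - a) * (k ^ (α - 1) / α * C) :=
      mul_le_mul_of_nonneg_left h4 hba
    have c2 : (b - a) * (k ^ (α - 1) / α * C) ≤ (k ^ α - (1 - b) ^ α) / α * C := by
      have : (b - a) * (k ^ (α - 1) / α * C) = ((b - a) * k ^ (α - 1)) / α * C := by ring
      rw [this]
      exact mul_le_mul_of_nonneg_right (div_le_div_of_nonneg_right h3 (by linarith)) hC0.le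
    linarith
  have h6 : (∫ t in a..b, (k ^ α + k ^ α) ^ (2 + 2 / α) * D α (k ^ α) t) ≤
      ∫ t in a..b, (k ^ α + τ) ^ (2 + 2 / α) * D α τ t := by
    refine intervalIntegral.integral_mono_on hab (hi.const_mul _)
      ((D_intervalIntegrable hα hτ (by linarith) (by linarith) (by linarith) hb).const_mul _) ?_
    intro x hx
    have c1 := q_mono_small (k := k) (v := 1 - x) (by linarith [hx.2]) (by linarith [hx.1]) hα hτ
      hτ1
    have c2 := q_mono_large (k := k) (v := 1 + x) hk0.le (by linarith [hx.1]) hα hτ hτ1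
    unfold D
    rw [mul_sub, mul_sub]
    linarith
  rw [intervalIntegral.integral_const_mul, intervalIntegral.integral_const_mul] at h6
  have h7 : 0 < (k ^ α + τ) ^ (2 + 2 / α) := by positivity
  have h8 : 0 ≤ (k ^ α + k ^ α) ^ (2 + 2 / α) * ∫ t in a..b, D α (k ^ α) t := by positivity
  exact nonneg_of_mul_nonneg_right (h8.trans h6) h7

end LpSec.Avg
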