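import Mathlib
import Pool.Agent.Lib.MP_1dbab3_gt.WAvg.A4

/-!
# Averaging lemma, part A5: the semicircle form and the estimate with `lam`
-/

open Real MeasureTheory Set intervalIntegral

namespace LpSec.Avg

variable {α τ : ℝ}

/-- integration by parts and substitution: the integral of `cos φ Q` in semicircle form -/
theorem int_cos_Q (hα : 1 < α) (hτ : 0 < τ) {p r : ℝ} (hp : 0 ≤ p) (hr : 0 < r) (h1 : r + p ≤ 1) :
    r * ∫ φ in (0 : ℝ)..π, cos φ * Qf α τ (p + r * cos φ) =
      (α + 2) * ∫ a in (p - r)..(p + r), √(r ^ 2 - (a - p) ^ 2) * D α τ a := by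
  have hrng : ∀ φ : ℝ, -1 ≤ p + r * cos φ ∧ p + r * cos φ ≤ 1 := by
    intro φ
    have c1 := Real.cos_le_one φ
    have c2 := Real.neg_one_le_cos φ
    constructor <;> nlinarith
  have hDc : Continuous fun φ => D α τ (p + r * cos φ) := by
    have : ContinuousOn (fun φ => D α τ (p + r * cos φ)) univ :=
      (D_continuousOn hα hτ).comp (by fun_prop) fun φ _ => hrng φ
    exact continuousOn_univ.1 this
  -- integration by parts
  have h2 : ∫ φ in (0 : ℝ)..π, Qf α τ (p + r * cos φ) * cos φ =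
      Qf α τ (p + r * cos π) * sin π - Qf α τ (p + r * cos 0) * sin 0 -
        ∫ φ in (0 : ℝ)..π, ((α + 2) * D α τ (p + r * cos φ) * (r * -sin φ)) * sin φ := by
    refine intervalIntegral.integral_mul_deriv_eq_deriv_mul ?_ ?_ ?_ ?_
    · intro φ _
      have d1 : HasDerivAt (fun φ => p + r * cos φ) (r * -sin φ) φ :=
        ((Real.hasDerivAt_cos φ).const_mul r).const_add p
      exact (Qf_hasDerivAt hα hτ (hrng φ).1 (hrng φ).2).comp φ d1
    · intro φ _
      exact Real.hasDerivAt_sin φ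
    · refine Continuous.intervalIntegrable ?_ _ _
      exact (continuous_const.mul hDc).mul (continuous_const.mul continuous_sin.neg)
    · exact continuous_cos.intervalIntegrable _ _
  -- substitution
  have h3 : ∫ φ in (0 : ℝ)..π, (fun a => √(r ^ 2 - (a - p) ^ 2) * D α τ a) (p + r * cos φ) *
      (r * -sin φ) = ∫ a in (p + r * cos 0)..(p + r * cos π),
        √(r ^ 2 - (a - p) ^ 2) * D α τ a := by
    refine intervalIntegral.integral_comp_mul_deriv' (f := fun φ => p + r * cos φ)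
      (g := fun a => √(r ^ 2 - (a - p) ^ 2) * D α τ a) ?_ ?_ ?_
    · intro φ _
      exact ((Real.hasDerivAt_cos φ).const_mul r).const_add p
    · exact (continuous_const.mul continuous_sin.neg).continuousOn
    · refine ContinuousOn.mul (by fun_prop) ((D_continuousOn hα hτ).mono ?_)
      rintro _ ⟨φ, _, rfl⟩
      exact hrng φ
  rw [Real.cos_zero, Real.cos_pi, intervalIntegral.integral_symm (p + r * -1) (p + r * 1)] at h3
  rw [Real.sin_pi, Real.sin_zero] at h2
  have h4 : ∫ φ in (0 : ℝ)..π, (fun a => √(r ^ 2 - (a - p) ^ 2) * D α τ a) (p + r * cos φ) *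
      (r * -sin φ) = ∫ φ in (0 : ℝ)..π, (r * sin φ) * D α τ (p + r * cos φ) * (r * -sin φ) := by
    refine intervalIntegral.integral_congr fun φ hφ => ?_
    rw [uIcc_of_le pi_pos.le] at hφ
    simp only
    have hs := Real.sin_nonneg_of_nonneg_of_le_pi hφ.1 hφ.2
    have e : r ^ 2 - (p + r * cos φ - p) ^ 2 = (r * sin φ) ^ 2 := by
      have := Real.sin_sq_add_cos_sq φ
      nlinarith
    rw [e, Real.sqrt_sq (by positivity)]
  rw [h4] at h3
  have h5 : ∫ φ in (0 : ℝ)..π, cos φ * Qf α τ (p + r * cos φ) =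
      (α + 2) * (r * ∫ φ in (0 : ℝ)..π, D α τ (p + r * cos φ) * (sin φ * sin φ)) := by
    have : ∫ φ in (0 : ℝ)..π, cos φ * Qf α τ (p + r * cos φ) =
        ∫ φ in (0 : ℝ)..π, Qf α τ (p + r * cos φ) * cos φ := by
      refine intervalIntegral.integral_congr fun φ _ => ?_
      ring
    rw [this, h2, ← intervalIntegral.integral_const_mul, ← intervalIntegral.integral_const_mul,
      mul_zero, mul_zero, sub_zero, zero_sub, ← intervalIntegral.integral_neg]
    refine intervalIntegral.integral_congr fun φ _ => ?_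
    ring
  have h6 : ∫ a in (p - r)..(p + r), √(r ^ 2 - (a - p) ^ 2) * D α τ a =
      r ^ 2 * ∫ φ in (0 : ℝ)..π, D α τ (p + r * cos φ) * (sin φ * sin φ) := by
    have e1 : p + r * -1 = p - r := by ring
    have e2 : p + r * 1 = p + r := by ring
    rw [e1, e2] at h3
    rw [← neg_neg (∫ a in (p - r)..(p + r), √(r ^ 2 - (a - p) ^ 2) * D α τ a), ← h3,
      ← intervalIntegral.integral_neg, ← intervalIntegral.integral_const_mul]
    refine intervalIntegral.integral_congr fun φ _ => ?_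
    ring
  rw [h5, h6]
  ring

/-- folding with the oddness of `D` -/
theorem fold_D (hα : 1 < α) (hτ : 0 < τ) {p r : ℝ} (hp : 0 ≤ p) (hr : 0 < r) (h1 : r + p ≤ 1) :
    ∫ a in (p - r)..(p + r), √(r ^ 2 - (a - p) ^ 2) * D α τ a =
      ∫ a in (0 : ℝ)..1, (√(r ^ 2 - (a - p) ^ 2) - √(r ^ 2 - (a + p) ^ 2)) * D α τ a := by
  have hc : ContinuousOn (fun a => √(r ^ 2 - (a - p) ^ 2) * D α τ a) (Icc (-1) 1) :=
    ContinuousOn.mul (by fun_prop) (D_continuousOn hα hτ)
  have hi : ∀ {c d : ℝ}, -1 ≤ c → c ≤ d → d ≤ 1 →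
      IntervalIntegrable (fun a => √(r ^ 2 - (a - p) ^ 2) * D α τ a) volume c d := by
    intro c d hc' hcd hd
    refine (hc.mono ?_).intervalIntegrable
    rw [uIcc_of_le hcd]
    exact Icc_subset_Icc hc' hd
  have hc2 : ContinuousOn (fun a => √(r ^ 2 - (a + p) ^ 2) * D α τ a) (Icc (-1) 1) :=
    ContinuousOn.mul (by fun_prop) (D_continuousOn hα hτ)
  have z1 : ∫ a in (-1 : ℝ)..(p - r), √(r ^ 2 - (a - p) ^ 2) * D α τ a = 0 := by
    rw [intervalIntegral.integral_congr (g := fun _ => (0 : ℝ)), intervalIntegral.integral_zero]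
    intro a ha
    rw [uIcc_of_le (by linarith)] at ha
    simp only
    rw [Real.sqrt_eq_zero_of_nonpos, zero_mul]
    nlinarith [ha.2]
  have z2 : ∫ a in (p + r)..1, √(r ^ 2 - (a - p) ^ 2) * D α τ a = 0 := by
    rw [intervalIntegral.integral_congr (g := fun _ => (0 : ℝ)), intervalIntegral.integral_zero]
    intro a ha
    rw [uIcc_of_le (by linarith)] at ha
    simp only
    rw [Real.sqrt_eq_zero_of_nonpos, zero_mul]
    nlinarith [ha.1]
  have s1 : ∫ a in (p - r)..(p + r), √(r ^ 2 - (a - p) ^ 2) * D α τ a =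
      (∫ a in (-1 : ℝ)..0, √(r ^ 2 - (a - p) ^ 2) * D α τ a) +
        ∫ a in (0 : ℝ)..1, √(r ^ 2 - (a - p) ^ 2) * D α τ a := by
    rw [intervalIntegral.integral_add_adjacent_intervals (hi le_rfl (by norm_num) (by norm_num))
      (hi (by norm_num) (by norm_num) le_rfl)]
    have a1 := intervalIntegral.integral_add_adjacent_intervals
      (hi (c := -1) (d := p - r) le_rfl (by linarith) (by linarith))
      (hi (c := p - r) (d := p + r) (by linarith) (by linarith) (by linarith))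
    have a2 := intervalIntegral.integral_add_adjacent_intervals
      (hi (c := -1) (d := p + r) le_rfl (by linarith) (by linarith))
      (hi (c := p + r) (d := 1) (by linarith) (by linarith) le_rfl)
    linarith
  have s2 : ∫ a in (-1 : ℝ)..0, √(r ^ 2 - (a - p) ^ 2) * D α τ a =
      -∫ a in (0 : ℝ)..1, √(r ^ 2 - (a + p) ^ 2) * D α τ a := by
    have h := intervalIntegral.integral_comp_neg (a := (0 : ℝ)) (b := 1)
      (fun a => √(r ^ 2 - (a - p) ^ 2) * D α τ a)
    rw [neg_zero] at h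
    rw [← h, ← intervalIntegral.integral_neg]
    refine intervalIntegral.integral_congr fun a _ => ?_
    rw [D_neg]
    have e : (-a - p) ^ 2 = (a + p) ^ 2 := by ring
    rw [e]
    ring
  rw [s1, s2, neg_add_eq_sub, ← intervalIntegral.integral_sub (hi (by norm_num) (by norm_num) le_rfl)]
  · refine intervalIntegral.integral_congr fun a _ => ?_
    ring
  · refine (hc2.mono ?_).intervalIntegrable
    rw [uIcc_of_le (by norm_num)]
    exact Icc_subset_Icc (by norm_num) le_rfl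

/-- the integral of `lam` over `[1 - c, 1]` -/
theorem int_lam_le {p r c s : ℝ} (hp : 0 ≤ p) (hr : 0 < r) (h1 : r + p ≤ 1) (hc : 0 ≤ c)
    (hcp : c + p ≤ 1) (hs : 0 ≤ s) (hsc : 2 * c - c ^ 2 ≤ s ^ 2) :
    ∫ a in (1 - c)..1, (√(r ^ 2 - (a - p) ^ 2) - √(r ^ 2 - (a + p) ^ 2)) ≤ 2 * p * s := by
  have hw : Continuous fun z : ℝ => √(r ^ 2 - z ^ 2) := by fun_prop
  have e1 : ∫ a in (1 - c)..1, √(r ^ 2 - (a - p) ^ 2) =
      ∫ z in (1 - c - p)..(1 - p), √(r ^ 2 - z ^ 2) :=
    intervalIntegral.integral_comp_sub_right (fun z => √(r ^ 2 - z ^ 2)) p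
  have e2 : ∫ a in (1 - c)..1, √(r ^ 2 - (a + p) ^ 2) =
      ∫ z in (1 - c + p)..(1 + p), √(r ^ 2 - z ^ 2) :=
    intervalIntegral.integral_comp_add_right (fun z => √(r ^ 2 - z ^ 2)) p
  rw [intervalIntegral.integral_sub (Continuous.intervalIntegrable (by fun_prop) _ _)
    (Continuous.intervalIntegrable (by fun_prop) _ _), e1, e2]
  have e3 := intervalIntegral.integral_interval_sub_interval_comm
    (hw.intervalIntegrable (μ := volume) (1 - c - p) (1 - p))
    (hw.intervalIntegrable (μ := volume) (1 - c + p) (1 + p))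
    (hw.intervalIntegrable (μ := volume) (1 - c - p) (1 - c + p))
  rw [e3]
  have h2 : 0 ≤ ∫ z in (1 - p)..(1 + p), √(r ^ 2 - z ^ 2) :=
    intervalIntegral.integral_nonneg (by linarith) fun z _ => Real.sqrt_nonneg _
  have h3 : ∫ z in (1 - c - p)..(1 - c + p), √(r ^ 2 - z ^ 2) ≤
      ∫ _ in (1 - c - p)..(1 - c + p), s := by
    refine intervalIntegral.integral_mono_on (by linarith) (hw.intervalIntegrable _ _)
      intervalIntegrable_const fun z hz => ?_
    refine Real.sqrt_le_iff.2 ⟨hs, ?_⟩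
    have h4 : 0 ≤ 1 - c - p := by linarith
    have h5 : (1 - c - p) ^ 2 ≤ z ^ 2 := pow_le_pow_left₀ h4 hz.1 2
    have h6 : r ^ 2 ≤ (1 - p) ^ 2 := pow_le_pow_left₀ hr.le (by linarith) 2
    nlinarith
  rw [intervalIntegral.integral_const, smul_eq_mul] at h3
  have e4 : (1 - c + p - (1 - c - p)) * s = 2 * p * s := by ring
  rw [e4] at h3
  linarith

theorem lam_ge {p r a : ℝ} (hp : 0 ≤ p) (h1 : r + p ≤ 1) (h2 : 1 / 2 ≤ r - p) (ha : 0 ≤ a)
    (ha1 : a ≤ 1 / 2) : 2 * p * a ≤ √(r ^ 2 - (a - p) ^ 2) - √(r ^ 2 - (a + p) ^ 2) := by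
  have c1 : (a + p) ^ 2 ≤ r ^ 2 := pow_le_pow_left₀ (by linarith) (by linarith) 2
  have c2 : (a - p) ^ 2 ≤ r ^ 2 := by
    refine le_trans ?_ c1
    nlinarith [mul_nonneg ha hp]
  have c3 : r ^ 2 ≤ 1 ^ 2 := pow_le_pow_left₀ (by linarith) (by linarith) 2
  have hA2 : √(r ^ 2 - (a - p) ^ 2) ^ 2 = r ^ 2 - (a - p) ^ 2 := Real.sq_sqrt (by linarith)
  have hB2 : √(r ^ 2 - (a + p) ^ 2) ^ 2 = r ^ 2 - (a + p) ^ 2 := Real.sq_sqrt (by linarith)
  have hA1 : √(r ^ 2 - (a - p) ^ 2) ≤ 1 :=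
    Real.sqrt_le_one.2 (by linarith [sq_nonneg (a - p)])
  have hB1 : √(r ^ 2 - (a + p) ^ 2) ≤ 1 :=
    Real.sqrt_le_one.2 (by linarith [sq_nonneg (a + p)])
  have hAB : √(r ^ 2 - (a + p) ^ 2) ≤ √(r ^ 2 - (a - p) ^ 2) :=
    Real.sqrt_le_sqrt (by nlinarith [mul_nonneg ha hp])
  set A := √(r ^ 2 - (a - p) ^ 2)
  set B := √(r ^ 2 - (a + p) ^ 2)
  have e : (A - B) * (A + B) = 4 * (p * a) := by nlinarith
  have e2 : (A - B) * (A + B) ≤ (A - B) * 2 :=
    mul_le_mul_of_nonneg_left (by linarith) (by linarith)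
  linarith

/-- the main estimate -/
theorem lam_main (hα : 1 < α) (hτ : 0 < τ) {p r c s t M : ℝ} (hp : 0 ≤ p) (hr : 0 < r)
    (h1 : r + p ≤ 1) (h2 : 1 / 2 ≤ r - p) (ht : τ ≤ t) (hc : 0 ≤ c) (hc4 : c ≤ 1 / 4)
    (hs : 0 ≤ s) (hsc : 2 * c - c ^ 2 ≤ s ^ 2) (hD : ∀ a, 0 ≤ a → a ≤ 1 - c → 0 ≤ D α t a)
    (hM : ∀ a, 1 - c ≤ a → a ≤ 1 → q α t (1 + a) ≤ M) (hM0 : 0 ≤ M)
    (hmain : s * M ≤ ∫ a in (0 : ℝ)..(1 / 2), a * D α t a) :
    0 ≤ ∫ a in (0 : ℝ)..1, (√(r ^ 2 - (a - p) ^ 2) - √(r ^ 2 - (a + p) ^ 2)) * D α τ a := by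
  have ht0 : 0 < t := hτ.trans_le ht
  set lam : ℝ → ℝ := fun a => √(r ^ 2 - (a - p) ^ 2) - √(r ^ 2 - (a + p) ^ 2) with hlam
  have hlc : Continuous lam := by
    rw [hlam]
    fun_prop
  have hl0 : ∀ a, 0 ≤ a → 0 ≤ lam a := by
    intro a ha
    rw [hlam]
    simp only [sub_nonneg]
    exact Real.sqrt_le_sqrt (by nlinarith)
  have hi : ∀ {b : ℝ}, 0 < b → ∀ {c d : ℝ}, 0 ≤ c → c ≤ d → d ≤ 1 →
      IntervalIntegrable (fun a => lam a * D α b a) volume c d := by
    intro b hb c d hc' hcd hd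
    refine ContinuousOn.intervalIntegrable ?_
    refine hlc.continuousOn.mul ((D_continuousOn hα hb).mono ?_)
    rw [uIcc_of_le hcd]
    exact Icc_subset_Icc (by linarith) hd
  -- lower bound with `t`
  have key : 0 ≤ ∫ a in (0 : ℝ)..1, lam a * D α t a := by
    have s1 : ∫ a in (0 : ℝ)..1, lam a * D α t a = (∫ a in (0 : ℝ)..(1 / 2), lam a * D α t a) +
        (∫ a in (1 / 2)..(1 - c), lam a * D α t a) + ∫ a in (1 - c)..1, lam a * D α t a := by
      rw [intervalIntegral.integral_add_adjacent_intervals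
        (hi ht0 le_rfl (by norm_num) (by norm_num))
        (hi ht0 (by norm_num) (by linarith) (by linarith)),
        intervalIntegral.integral_add_adjacent_intervals
        (hi ht0 le_rfl (by linarith) (by linarith))
        (hi ht0 (by linarith) (by linarith) le_rfl)]
    have s2 : 0 ≤ ∫ a in (1 / 2)..(1 - c), lam a * D α t a :=
      intervalIntegral.integral_nonneg (by linarith) fun a ha =>
        mul_nonneg (hl0 a (by linarith [ha.1])) (hD a (by linarith [ha.1]) ha.2)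
    have s3 : (∫ a in (0 : ℝ)..(1 / 2), 2 * p * (a * D α t a)) ≤
        ∫ a in (0 : ℝ)..(1 / 2), lam a * D α t a := by
      refine intervalIntegral.integral_mono_on (by norm_num) ?_
        (hi ht0 le_rfl (by norm_num) (by norm_num)) ?_
      · refine ContinuousOn.intervalIntegrable ?_
        refine continuousOn_const.mul (continuousOn_id.mul ((D_continuousOn hα ht0).mono ?_))
        rw [uIcc_of_le (by norm_num)]
        exact Icc_subset_Icc (by norm_num) (by norm_num)
      · intro a ha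
        have ha1 : a ≤ 1 / 2 := ha.2
        have hDa := hD a ha.1 (by linarith)
        have h3 : 2 * p * a ≤ lam a := lam_ge hp h1 h2 ha.1 ha.2
        calc 2 * p * (a * D α t a) = (2 * p * a) * D α t a := by ring
          _ ≤ _ := mul_le_mul_of_nonneg_right h3 hDa
    rw [intervalIntegral.integral_const_mul] at s3
    have s4 : (∫ a in (1 - c)..1, -M * lam a) ≤ ∫ a in (1 - c)..1, lam a * D α t a := by
      refine intervalIntegral.integral_mono_on (by linarith)
        ((continuous_const.mul hlc).intervalIntegrable _ _)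
        (hi ht0 (by linarith) (by linarith) le_rfl) ?_
      intro a ha
      have h3 := D_ge_neg (α := α) ha.2 ht0
      have h4 := hM a ha.1 ha.2
      have h5 := hl0 a (by linarith [ha.1])
      nlinarith
    rw [intervalIntegral.integral_const_mul] at s4
    have s5 := int_lam_le (c := c) hp hr h1 hc (by linarith) hs hsc
    have s6 : M * (∫ a in (1 - c)..1, lam a) ≤ M * (2 * p * s) :=
      mul_le_mul_of_nonneg_left s5 hM0
    have s7 : 2 * p * (s * M) ≤ 2 * p * ∫ a in (0 : ℝ)..(1 / 2), a * D α t a :=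
      mul_le_mul_of_nonneg_left hmain (by linarith)
    rw [s1]
    nlinarith
  have h6 : (∫ a in (0 : ℝ)..1, (1 + t) ^ (2 + 2 / α) * (lam a * D α t a)) ≤
      ∫ a in (0 : ℝ)..1, (1 + τ) ^ (2 + 2 / α) * (lam a * D α τ a) := by
    refine intervalIntegral.integral_mono_on (by norm_num)
      ((hi ht0 le_rfl (by norm_num) le_rfl).const_mul _)
      ((hi hτ le_rfl (by norm_num) le_rfl).const_mul _) ?_
    intro a ha
    have h3 := D_mono ha.1 ha.2 hα hτ ht
    have h4 := mul_le_mul_of_nonneg_left h3 (hl0 a ha.1)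
    nlinarith
  rw [intervalIntegral.integral_const_mul, intervalIntegral.integral_const_mul] at h6
  have h7 : 0 < (1 + τ) ^ (2 + 2 / α) := by positivity
  have h8 : 0 ≤ (1 + t) ^ (2 + 2 / α) * ∫ a in (0 : ℝ)..1, lam a * D α t a := by positivity
  exact nonneg_of_mul_nonneg_right (h8.trans h6) h7

end LpSec.Avg
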