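import Mathlib
import Pool.Agent.Lib.MP_1dbab3_gt.WAvg.A5

/-!
# Averaging lemma, part A6: the numerical inequality in three ranges of `α`
-/

open Real MeasureTheory Set intervalIntegral

namespace LpSec.Avg

variable {α τ : ℝ}

/-- transport: `∫_0^{1/2} a D_t(a) da ≥ ∫_{1/2}^{2/3} (1-x) q_t(x) dx` -/
theorem int_aD_ge {t : ℝ} (hα : 1 < α) (ht : 0 < t) (ht1 : t ≤ 1) :
    ∫ x in (1 / 2 : ℝ)..(2 / 3), (1 - x) * q α t x ≤ ∫ a in (0 : ℝ)..(1 / 2), a * D α t a := by
  have hqc := q_continuousOn hα ht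
  have hi1 : ∀ {c d : ℝ}, 0 ≤ c → c ≤ d →
      IntervalIntegrable (fun x => (1 - x) * q α t x) volume c d := by
    intro c d hc hcd
    refine ContinuousOn.intervalIntegrable (ContinuousOn.mul (by fun_prop) (hqc.mono ?_))
    rw [uIcc_of_le hcd]
    exact fun x hx => hc.trans hx.1
  have c1 : ContinuousOn (fun a => a * q α t (1 - a)) (uIcc 0 (1 / 2)) := by
    refine continuousOn_id.mul (hqc.comp (by fun_prop) fun a ha => ?_)
    rw [uIcc_of_le (by norm_num)] at ha
    rw [mem_Ici]
    linarith [ha.2]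
  have c2 : ContinuousOn (fun a => a * q α t (1 + a)) (uIcc 0 (1 / 2)) := by
    refine continuousOn_id.mul (hqc.comp (by fun_prop) fun a ha => ?_)
    rw [uIcc_of_le (by norm_num)] at ha
    rw [mem_Ici]
    linarith [ha.1]
  have s1 : ∫ a in (0 : ℝ)..(1 / 2), a * D α t a =
      (∫ a in (0 : ℝ)..(1 / 2), a * q α t (1 - a)) - ∫ a in (0 : ℝ)..(1 / 2), a * q α t (1 + a) := by
    rw [← intervalIntegral.integral_sub c1.intervalIntegrable c2.intervalIntegrable]
    refine intervalIntegral.integral_congr fun a _ => ?_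
    simp only [D]
    ring
  have s2 : ∫ a in (0 : ℝ)..(1 / 2), a * q α t (1 - a) =
      ∫ x in (1 / 2 : ℝ)..1, (1 - x) * q α t x := by
    have h := intervalIntegral.integral_comp_sub_left (a := (0 : ℝ)) (b := 1 / 2)
      (fun x => (1 - x) * q α t x) 1
    have e : ((1 : ℝ) - 1 / 2) = 1 / 2 := by norm_num
    rw [e, sub_zero] at h
    rw [← h]
    refine intervalIntegral.integral_congr fun a _ => ?_
    simp only [sub_sub_cancel]
  have s3 : ∫ a in (0 : ℝ)..(1 / 2), a * q α t (1 + a) =
      ∫ y in (2 / 3 : ℝ)..1, (y⁻¹ - 1) * q α t (1 + (y⁻¹ - 1)) * (y ^ 2)⁻¹ := by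
    have h := intervalIntegral.integral_comp_mul_deriv' (a := 2 / 3) (b := (1 : ℝ))
      (f := fun y => y⁻¹ - 1) (f' := fun y => -(y ^ 2)⁻¹) (g := fun a => a * q α t (1 + a))
      ?_ ?_ ?_
    · have e1 : ((2 / 3 : ℝ)⁻¹ - 1) = 1 / 2 := by norm_num
      have e2 : ((1 : ℝ)⁻¹ - 1) = 0 := by norm_num
      rw [e1, e2, intervalIntegral.integral_symm (0 : ℝ) (1 / 2)] at h
      rw [← neg_neg (∫ a in (0 : ℝ)..(1 / 2), a * q α t (1 + a)), ← h,
        ← intervalIntegral.integral_neg]
      refine intervalIntegral.integral_congr fun y _ => ?_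
      simp only [Function.comp]
      ring
    · intro y hy
      rw [uIcc_of_le (by norm_num)] at hy
      have hy0 : y ≠ 0 := by
        have := hy.1
        intro h
        rw [h] at this
        norm_num at this
      exact (hasDerivAt_inv hy0).sub_const 1
    · refine ContinuousOn.neg (ContinuousOn.inv₀ (by fun_prop) fun y hy => ?_)
      rw [uIcc_of_le (by norm_num)] at hy
      have := hy.1
      have : 0 < y := by linarith
      positivity
    · refine c2.mono ?_
      rintro _ ⟨y, hy, rfl⟩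
      rw [uIcc_of_le (by norm_num)] at hy ⊢
      have hy0 : 0 < y := by linarith [hy.1]
      constructor
      · simp only [sub_nonneg]
        rw [one_le_inv₀ hy0]
        exact hy.2
      · simp only
        have : y⁻¹ ≤ (2 / 3 : ℝ)⁻¹ := inv_anti₀ (by norm_num) hy.1
        norm_num at this
        linarith
  have s4 : ∫ y in (2 / 3 : ℝ)..1, (y⁻¹ - 1) * q α t (1 + (y⁻¹ - 1)) * (y ^ 2)⁻¹ ≤
      ∫ y in (2 / 3 : ℝ)..1, (1 - y) * q α t y := by
    refine intervalIntegral.integral_mono_on (by norm_num) ?_ (hi1 (by norm_num) (by norm_num)) ?_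
    · refine ContinuousOn.intervalIntegrable ?_
      have hne : ∀ y ∈ uIcc (2 / 3 : ℝ) 1, 0 < y := by
        intro y hy
        rw [uIcc_of_le (by norm_num)] at hy
        linarith [hy.1]
      refine ContinuousOn.mul (ContinuousOn.mul ?_ ?_) ?_
      · exact (ContinuousOn.inv₀ continuousOn_id fun y hy => (hne y hy).ne').sub continuousOn_const
      · refine hqc.comp ?_ ?_
        · exact continuousOn_const.add
            ((ContinuousOn.inv₀ continuousOn_id fun y hy => (hne y hy).ne').sub continuousOn_const)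
        · intro y hy
          have := inv_pos.2 (hne y hy)
          rw [mem_Ici]
          simp only [add_sub_cancel]
          exact this.le
      · refine ContinuousOn.inv₀ (by fun_prop) fun y hy => ?_
        have := hne y hy
        positivity
    · intro y hy
      have hy0 : 0 < y := by linarith [hy.1]
      have hy1 := hy.2
      rw [add_sub_cancel]
      have h := q_far_le (v := y⁻¹) (w := y) hα (inv_pos.2 hy0) ht hy0
        (by rw [mul_inv_cancel₀ hy0.ne'])
      have hyα : 0 < y ^ α := rpow_pos_of_pos hy0 _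
      have hyα1 : y ^ α ≤ 1 := rpow_le_one hy0.le hy1 (by linarith)
      have h2 : (1 + t * y ^ α) ^ (-(2 + 2 / α)) ≤ (y ^ α + t) ^ (-(2 + 2 / α)) := by
        refine rpow_le_rpow_of_nonpos (by positivity) ?_ ?_
        · nlinarith
        · have : 0 ≤ 2 + 2 / α := by positivity
          linarith
      have e1 : (y⁻¹) ^ (-(α + 3)) = y ^ (α - 1) * y ^ 4 := by
        rw [inv_rpow hy0.le, rpow_neg hy0.le, inv_inv]
        rw [show y ^ 4 = y ^ (4 : ℝ) by norm_cast, ← rpow_add hy0]
        congr 1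
        ring
      rw [e1] at h
      have h3 : q α t y⁻¹ ≤ y ^ 4 * q α t y := by
        refine h.trans ?_
        unfold q
        have : y ^ (α - 1) * y ^ 4 * (1 + t * y ^ α) ^ (-(2 + 2 / α)) ≤
            y ^ (α - 1) * y ^ 4 * (y ^ α + t) ^ (-(2 + 2 / α)) :=
          mul_le_mul_of_nonneg_left h2 (by positivity)
        refine this.trans (le_of_eq ?_)
        ring
      have h4 : 0 ≤ (y⁻¹ - 1) * (y ^ 2)⁻¹ := by
        have : 1 ≤ y⁻¹ := (one_le_inv₀ hy0).2 hy1
        have : 0 ≤ y⁻¹ - 1 := by linarith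
        positivity
      have hq0 := q_nonneg (α := α) hy0.le ht.le
      calc (y⁻¹ - 1) * q α t y⁻¹ * (y ^ 2)⁻¹ = ((y⁻¹ - 1) * (y ^ 2)⁻¹) * q α t y⁻¹ := by ring
        _ ≤ ((y⁻¹ - 1) * (y ^ 2)⁻¹) * (y ^ 4 * q α t y) := mul_le_mul_of_nonneg_left h3 h4
        _ = y * ((1 - y) * q α t y) := by field_simp
        _ ≤ 1 * ((1 - y) * q α t y) := by
            refine mul_le_mul_of_nonneg_right hy1 (mul_nonneg (by linarith) hq0)
        _ = _ := one_mul _
  have s5 : (∫ x in (1 / 2 : ℝ)..(2 / 3), (1 - x) * q α t x) +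
      (∫ x in (2 / 3 : ℝ)..1, (1 - x) * q α t x) = ∫ x in (1 / 2 : ℝ)..1, (1 - x) * q α t x :=
    intervalIntegral.integral_add_adjacent_intervals (hi1 (by norm_num) (by norm_num))
      (hi1 (by norm_num) (by norm_num))
  rw [s1, s2, s3]
  linarith

/-- the bound of `q` far from zero -/
theorem q_far {t c a : ℝ} (hα : 1 < α) (ht : 0 < t) (hc : c ≤ 1 / 4) (ha : 1 - c ≤ a)
    (ha1 : a ≤ 1) :
    q α t (1 + a) ≤ (1 / (2 - c)) ^ (α + 3) * (1 + t * (1 / 2) ^ α) ^ (-(2 + 2 / α)) := by
  have h := q_far_le (v := 1 + a) (w := 1 / 2) hα (by linarith) ht (by norm_num) (by linarith)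
  refine h.trans (mul_le_mul_of_nonneg_right ?_ (by positivity))
  rw [one_div, inv_rpow (by linarith), ← rpow_neg (by linarith)]
  exact rpow_le_rpow_of_nonpos (by linarith) (by linarith) (by linarith)

theorem int_lin (k β : ℝ) :
    ∫ x in (1 / 2 : ℝ)..(2 / 3), (1 - x) * (1 + β * (x / k - 1)) =
      5 / 72 + β * (13 / 324 / k - 5 / 72) := by
  have : ∀ x : ℝ, (1 - x) * (1 + β * (x / k - 1)) =
      (1 - β) + (β / k - (1 - β)) * x - β / k * x ^ 2 := by
    intro x
    ring
  simp_rw [this]
  rw [intervalIntegral.integral_sub (Continuous.intervalIntegrable (by fun_prop) _ _)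
    (Continuous.intervalIntegrable (by fun_prop) _ _),
    intervalIntegral.integral_add (Continuous.intervalIntegrable (by fun_prop) _ _)
    (Continuous.intervalIntegrable (by fun_prop) _ _),
    intervalIntegral.integral_const_mul, intervalIntegral.integral_const_mul, integral_id,
    integral_pow, intervalIntegral.integral_const]
  norm_num
  ring

end LpSec.Avg
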