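import Mathlib
import Pool.Agent.Lib.MP_1dbab3_gt.WAvg.A6

/-!
# Averaging lemma, part A7: three ranges of `α`
-/

open Real MeasureTheory Set intervalIntegral

namespace LpSec.Avg

variable {α τ : ℝ}

theorem q_int_lower {t C : ℝ} {f : ℝ → ℝ} (hα : 1 < α) (ht : 0 < t) (hf : Continuous f)
    (h : ∀ x, 1 / 2 ≤ x → x ≤ 2 / 3 → C * f x ≤ q α t x) :
    C * ∫ x in (1 / 2 : ℝ)..(2 / 3), (1 - x) * f x ≤
      ∫ x in (1 / 2 : ℝ)..(2 / 3), (1 - x) * q α t x := by
  rw [← intervalIntegral.integral_const_mul]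
  refine intervalIntegral.integral_mono_on (by norm_num)
    (Continuous.intervalIntegrable (by fun_prop) _ _) ?_ ?_
  · refine ContinuousOn.intervalIntegrable (ContinuousOn.mul (by fun_prop)
      ((q_continuousOn hα ht).mono ?_))
    rw [uIcc_of_le (by norm_num)]
    intro x hx
    rw [mem_Ici]
    linarith [hx.1]
  · intro x hx
    have h1 := h x hx.1 hx.2
    have h2 : 0 ≤ 1 - x := by linarith [hx.2]
    calc C * ((1 - x) * f x) = (1 - x) * (C * f x) := by ring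
      _ ≤ _ := mul_le_mul_of_nonneg_left h1 h2

/-- range `1 < α ≤ 2` -/
theorem hmain_I (hα : 1 < α) (hα2 : α ≤ 2) :
    (7 / 25) * ((25 / 49 : ℝ) ^ (α + 3) * (1 + 1 * (1 / 2) ^ α) ^ (-(2 + 2 / α))) ≤
      ∫ a in (0 : ℝ)..(1 / 2), a * D α 1 a := by
  refine le_trans ?_ (int_aD_ge hα one_pos le_rfl)
  have hγ0 : 0 < 2 + 2 / α := by positivity
  have hγ : 2 + 2 / α ≤ 4 := by
    have : 2 / α ≤ 2 := by
      rw [div_le_iff₀ (by linarith)]
      linarith
    linarith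
  set P : ℝ := (1 / 2) ^ (α - 1) with hP
  set B : ℝ := (1 + 1 * (1 / 2 : ℝ) ^ α) ^ (-(2 + 2 / α)) with hB
  have hP0 : 0 < P := by positivity
  have hB0 : 0 < B := by positivity
  have h1 := q_int_lower (f := fun _ => 1) (C := P * ((81 / 256) * B)) hα one_pos
    continuous_const ?_
  · have e : ∫ x in (1 / 2 : ℝ)..(2 / 3), (1 - x) * 1 = 5 / 72 := by
      have := int_lin 1 0
      simp only [zero_mul, add_zero] at this
      exact this
    rw [e] at h1
    refine le_trans ?_ h1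
    have h2 : (25 / 49 : ℝ) ^ (α + 3) ≤ (25 / 49) ^ 4 * (50 / 49) * P := by
      have e1 : (25 / 49 : ℝ) ^ (α + 3) = (25 / 49) ^ 4 * ((50 / 49) ^ (α - 1) * P) := by
        rw [hP, ← mul_rpow (by norm_num) (by norm_num)]
        rw [show (α + 3) = (4 : ℕ) + (α - 1) by push_cast; ring, rpow_add (by norm_num),
          rpow_natCast]
        norm_num
      have e2 : (50 / 49 : ℝ) ^ (α - 1) ≤ (50 / 49) ^ (1 : ℝ) :=
        rpow_le_rpow_of_exponent_le (by norm_num) (by linarith)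
      rw [rpow_one] at e2
      rw [e1, mul_assoc]
      gcongr
    calc 7 / 25 * ((25 / 49 : ℝ) ^ (α + 3) * B) ≤
        7 / 25 * (((25 / 49) ^ 4 * (50 / 49) * P) * B) := by gcongr
      _ = (7 / 25 * ((25 / 49) ^ 4 * (50 / 49))) * (P * B) := by ring
      _ ≤ (81 / 256 * (5 / 72)) * (P * B) := by
          refine mul_le_mul_of_nonneg_right (by norm_num) (by positivity)
      _ = _ := by ring
  · intro x hx1 hx2
    have hx0 : 0 < x := by linarith
    rw [mul_one]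
    unfold q
    have a1 : P ≤ x ^ (α - 1) := rpow_le_rpow (by norm_num) hx1 (by linarith)
    have a2 : (81 / 256) * B ≤ (x ^ α + 1) ^ (-(2 + 2 / α)) := by
      have b1 : x ^ α + 1 ≤ 4 / 3 * (1 + 1 * (1 / 2 : ℝ) ^ α) := by
        have c1 : x ^ α ≤ x ^ (1 : ℝ) := rpow_le_rpow_of_exponent_ge hx0 (by linarith) hα.le
        have c2 : (1 / 2 : ℝ) ^ (2 : ℝ) ≤ (1 / 2) ^ α :=
          rpow_le_rpow_of_exponent_ge (by norm_num) (by norm_num) hα2
        rw [rpow_one] at c1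
        rw [rpow_two] at c2
        linarith
      have b2 : (4 / 3 * (1 + 1 * (1 / 2 : ℝ) ^ α)) ^ (-(2 + 2 / α)) ≤
          (x ^ α + 1) ^ (-(2 + 2 / α)) :=
        rpow_le_rpow_of_nonpos (base_pos hx0.le one_pos) b1 (by linarith)
      rw [mul_rpow (by norm_num) (by positivity)] at b2
      have b3 : (81 / 256 : ℝ) ≤ (4 / 3) ^ (-(2 + 2 / α)) := by
        have d1 : (4 / 3 : ℝ) ^ (-4 : ℝ) ≤ (4 / 3) ^ (-(2 + 2 / α)) :=
          rpow_le_rpow_of_exponent_le (by norm_num) (by linarith)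
        refine le_trans ?_ d1
        rw [show (-4 : ℝ) = ((-4 : ℤ) : ℝ) by norm_num, rpow_intCast]
        norm_num
      refine le_trans ?_ b2
      exact mul_le_mul_of_nonneg_right b3 hB0.le
    exact mul_le_mul a1 a2 (by positivity) (by positivity)

/-- range `2 ≤ α ≤ 3` -/
theorem hmain_II (hα2 : 2 ≤ α) (hα3 : α ≤ 3) :
    (553 / 1000) * ((6 / 11 : ℝ) ^ (α + 3) * (1 + 7 / 9 * (1 / 2) ^ α) ^ (-(2 + 2 / α))) ≤
      ∫ a in (0 : ℝ)..(1 / 2), a * D α (7 / 9) a := by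
  have hα : 1 < α := by linarith
  refine le_trans ?_ (int_aD_ge hα (by norm_num) (by norm_num))
  have hγ0 : 0 < 2 + 2 / α := by positivity
  have hγ : 2 + 2 / α ≤ 3 := by
    have : 2 / α ≤ 1 := by
      rw [div_le_iff₀ (by linarith)]
      linarith
    linarith
  set P : ℝ := (6 / 11) ^ (α - 1) with hP
  set B : ℝ := (79 / 72 : ℝ) ^ (-(2 + 2 / α)) with hB
  have hP0 : 0 < P := by positivity
  have hB0 : 0 < B := by positivity
  have h1 := q_int_lower (f := fun x => 1 + (α - 1) * (x / (6 / 11) - 1))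
    (C := P * ((79 / 88) ^ 3 * B)) hα (t := 7 / 9) (by norm_num) (by fun_prop) ?_
  · rw [int_lin] at h1
    refine le_trans ?_ h1
    have h2 : (6 / 11 : ℝ) ^ (α + 3) = (6 / 11) ^ 4 * P := by
      rw [hP, show (α + 3) = (4 : ℕ) + (α - 1) by push_cast; ring, rpow_add (by norm_num),
        rpow_natCast]
    have h3 : (1 + 7 / 9 * (1 / 2 : ℝ) ^ α) ^ (-(2 + 2 / α)) ≤ B := by
      refine rpow_le_rpow_of_nonpos (by norm_num) ?_ (by linarith)
      have c2 : (1 / 2 : ℝ) ^ (3 : ℝ) ≤ (1 / 2) ^ α :=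
        rpow_le_rpow_of_exponent_ge (by norm_num) (by norm_num) hα3
      rw [show (3 : ℝ) = ((3 : ℕ) : ℝ) by norm_num, rpow_natCast] at c2
      norm_num at c2
      linarith
    have h4 : (5 / 72 : ℝ) ≤ 5 / 72 + (α - 1) * (13 / 324 / (6 / 11) - 5 / 72) := by
      have : 0 ≤ (α - 1) * (13 / 324 / (6 / 11) - 5 / 72 : ℝ) :=
        mul_nonneg (by linarith) (by norm_num)
      linarith
    calc 553 / 1000 * ((6 / 11 : ℝ) ^ (α + 3) * (1 + 7 / 9 * (1 / 2 : ℝ) ^ α) ^ (-(2 + 2 / α)))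
        ≤ 553 / 1000 * (((6 / 11) ^ 4 * P) * B) := by
          rw [h2]
          gcongr
      _ = (553 / 1000 * (6 / 11) ^ 4) * (P * B) := by ring
      _ ≤ ((79 / 88) ^ 3 * (5 / 72)) * (P * B) := by
          refine mul_le_mul_of_nonneg_right (by norm_num) (by positivity)
      _ = P * ((79 / 88) ^ 3 * B) * (5 / 72) := by ring
      _ ≤ _ := mul_le_mul_of_nonneg_left h4 (by positivity)
  · intro x hx1 hx2
    have hx0 : 0 < x := by linarith
    unfold q
    have a1 : P * (1 + (α - 1) * (x / (6 / 11) - 1)) ≤ x ^ (α - 1) := by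
      have e : x ^ (α - 1) = P * (x / (6 / 11)) ^ (α - 1) := by
        rw [hP, ← mul_rpow (by norm_num) (by positivity)]
        congr 1
        ring
      rw [e]
      exact mul_le_mul_of_nonneg_left (chord_le_rpow (by positivity) (by linarith)) hP0.le
    have a2 : (79 / 88) ^ 3 * B ≤ (x ^ α + 7 / 9) ^ (-(2 + 2 / α)) := by
      have b1 : x ^ α + 7 / 9 ≤ 88 / 79 * (79 / 72) := by
        have c1 : x ^ α ≤ x ^ (2 : ℝ) := rpow_le_rpow_of_exponent_ge hx0 (by linarith) hα2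
        rw [rpow_two] at c1
        nlinarith
      have b2 : (88 / 79 * (79 / 72) : ℝ) ^ (-(2 + 2 / α)) ≤
          (x ^ α + 7 / 9) ^ (-(2 + 2 / α)) :=
        rpow_le_rpow_of_nonpos (base_pos hx0.le (by norm_num)) b1 (by linarith)
      rw [mul_rpow (by norm_num) (by norm_num)] at b2
      have b3 : ((79 / 88) ^ 3 : ℝ) ≤ (88 / 79) ^ (-(2 + 2 / α)) := by
        have d1 : (88 / 79 : ℝ) ^ (-3 : ℝ) ≤ (88 / 79) ^ (-(2 + 2 / α)) :=
          rpow_le_rpow_of_exponent_le (by norm_num) (by linarith)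
        refine le_trans ?_ d1
        rw [show (-3 : ℝ) = ((-3 : ℤ) : ℝ) by norm_num, rpow_intCast]
        norm_num
      refine le_trans ?_ b2
      exact mul_le_mul_of_nonneg_right b3 hB0.le
    calc P * ((79 / 88) ^ 3 * B) * (1 + (α - 1) * (x / (6 / 11) - 1))
        = (P * (1 + (α - 1) * (x / (6 / 11) - 1))) * ((79 / 88) ^ 3 * B) := by ring
      _ ≤ x ^ (α - 1) * ((79 / 88) ^ 3 * B) := mul_le_mul_of_nonneg_right a1 (by positivity)
      _ ≤ _ := mul_le_mul_of_nonneg_left a2 (by positivity)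

/-- range `3 ≤ α ≤ 4` -/
theorem hmain_III (hα3 : 3 ≤ α) :
    (1323 / 2000) * ((4 / 7 : ℝ) ^ (α + 3) * (1 + 2 / 3 * (1 / 2) ^ α) ^ (-(2 + 2 / α))) ≤
      ∫ a in (0 : ℝ)..(1 / 2), a * D α (2 / 3) a := by
  have hα : 1 < α := by linarith
  refine le_trans ?_ (int_aD_ge hα (by norm_num) (by norm_num))
  have hγ0 : 0 < 2 + 2 / α := by positivity
  have hγ2 : 2 ≤ 2 + 2 / α := by
    have : 0 ≤ 2 / α := by positivity
    linarith
  set P : ℝ := (4 / 7) ^ (α - 1) with hP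
  have hP0 : 0 < P := by positivity
  have h1 := q_int_lower (f := fun x => 1 + (α - 1) * (x / (4 / 7) - 1))
    (C := P * (27 / 26) ^ 2) hα (t := 2 / 3) (by norm_num) (by fun_prop) ?_
  · rw [int_lin] at h1
    refine le_trans ?_ h1
    have h2 : (4 / 7 : ℝ) ^ (α + 3) = (4 / 7) ^ 4 * P := by
      rw [hP, show (α + 3) = (4 : ℕ) + (α - 1) by push_cast; ring, rpow_add (by norm_num),
        rpow_natCast]
    have h3 : (1 + 2 / 3 * (1 / 2 : ℝ) ^ α) ^ (-(2 + 2 / α)) ≤ 1 := by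
      refine rpow_le_one_of_one_le_of_nonpos ?_ (by linarith)
      have : 0 ≤ (1 / 2 : ℝ) ^ α := by positivity
      linarith
    have h4 : (5 / 72 : ℝ) ≤ 5 / 72 + (α - 1) * (13 / 324 / (4 / 7) - 5 / 72) := by
      have : 0 ≤ (α - 1) * (13 / 324 / (4 / 7) - 5 / 72 : ℝ) :=
        mul_nonneg (by linarith) (by norm_num)
      linarith
    calc 1323 / 2000 * ((4 / 7 : ℝ) ^ (α + 3) * (1 + 2 / 3 * (1 / 2 : ℝ) ^ α) ^ (-(2 + 2 / α)))
        ≤ 1323 / 2000 * (((4 / 7) ^ 4 * P) * 1) := by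
          rw [h2]
          gcongr
      _ = (1323 / 2000 * (4 / 7) ^ 4) * P := by ring
      _ ≤ ((27 / 26) ^ 2 * (5 / 72)) * P := by
          refine mul_le_mul_of_nonneg_right (by norm_num) (by positivity)
      _ = P * (27 / 26) ^ 2 * (5 / 72) := by ring
      _ ≤ _ := mul_le_mul_of_nonneg_left h4 (by positivity)
  · intro x hx1 hx2
    have hx0 : 0 < x := by linarith
    unfold q
    have a1 : P * (1 + (α - 1) * (x / (4 / 7) - 1)) ≤ x ^ (α - 1) := by
      have e : x ^ (α - 1) = P * (x / (4 / 7)) ^ (α - 1) := by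
        rw [hP, ← mul_rpow (by norm_num) (by positivity)]
        congr 1
        ring
      rw [e]
      exact mul_le_mul_of_nonneg_left (chord_le_rpow (by positivity) (by linarith)) hP0.le
    have a2 : ((27 / 26) ^ 2 : ℝ) ≤ (x ^ α + 2 / 3) ^ (-(2 + 2 / α)) := by
      have b1 : x ^ α + 2 / 3 ≤ 26 / 27 := by
        have c1 : x ^ α ≤ x ^ (3 : ℝ) := rpow_le_rpow_of_exponent_ge hx0 (by linarith) hα3
        rw [show (3 : ℝ) = ((3 : ℕ) : ℝ) by norm_num, rpow_natCast] at c1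
        have c2 : x ^ 3 ≤ (2 / 3) ^ 3 := pow_le_pow_left₀ hx0.le hx2 3
        norm_num at c2
        linarith
      have b2 : (26 / 27 : ℝ) ^ (-(2 + 2 / α)) ≤
          (x ^ α + 2 / 3) ^ (-(2 + 2 / α)) :=
        rpow_le_rpow_of_nonpos (base_pos hx0.le (by norm_num)) b1 (by linarith)
      have b3 : ((27 / 26) ^ 2 : ℝ) ≤ (26 / 27) ^ (-(2 + 2 / α)) := by
        have d1 : (26 / 27 : ℝ) ^ (-2 : ℝ) ≤ (26 / 27) ^ (-(2 + 2 / α)) :=
          rpow_le_rpow_of_exponent_ge (by norm_num) (by norm_num) (by linarith)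
        refine le_trans ?_ d1
        rw [show (-2 : ℝ) = ((-2 : ℤ) : ℝ) by norm_num, rpow_intCast]
        norm_num
      exact b3.trans b2
    calc P * (27 / 26) ^ 2 * (1 + (α - 1) * (x / (4 / 7) - 1))
        = (P * (1 + (α - 1) * (x / (4 / 7) - 1))) * (27 / 26) ^ 2 := by ring
      _ ≤ x ^ (α - 1) * (27 / 26) ^ 2 := mul_le_mul_of_nonneg_right a1 (by positivity)
      _ ≤ _ := mul_le_mul_of_nonneg_left a2 (by positivity)

/-- sign of `D α (2/3)` on `[2/3, 3/4]` -/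
theorem D_nonneg_III' {a : ℝ} (hα3 : 3 ≤ α) (hα4 : α ≤ 4) (ha : 2 / 3 ≤ a) (ha1 : a ≤ 3 / 4) :
    0 ≤ D α (2 / 3) a := by
  have hα : 1 < α := by linarith
  have hγ0 : 0 < 2 + 2 / α := by positivity
  have h2 : 0 < 1 + a := by linarith
  have h1 := q_far_le (v := 1 + a) (w := (1 + a)⁻¹) (τ := 2 / 3) hα h2 (by norm_num)
    (by positivity) (by rw [inv_mul_cancel₀ h2.ne'])
  have h1' : q α (2 / 3) (1 + a) ≤ (1 + a) ^ (-(α + 3)) := by
    refine h1.trans ?_
    have c2 : (1 + 2 / 3 * ((1 + a)⁻¹) ^ α) ^ (-(2 + 2 / α)) ≤ 1 := by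
      refine rpow_le_one_of_one_le_of_nonpos ?_ (by linarith)
      have : 0 ≤ 2 / 3 * ((1 + a)⁻¹) ^ α := by positivity
      linarith
    calc (1 + a) ^ (-(α + 3)) * (1 + 2 / 3 * ((1 + a)⁻¹) ^ α) ^ (-(2 + 2 / α))
        ≤ (1 + a) ^ (-(α + 3)) * 1 := mul_le_mul_of_nonneg_left c2 (rpow_nonneg h2.le _)
      _ = _ := mul_one _
  have hx0 : 0 < 1 - a := by linarith
  have h3 : (27 / 19) ^ 2 * (1 - a) ^ (α - 1) ≤ q α (2 / 3) (1 - a) := by
    unfold q
    rw [mul_comm]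
    refine mul_le_mul_of_nonneg_left ?_ (rpow_nonneg hx0.le _)
    have b1 : (1 - a) ^ α + 2 / 3 ≤ 19 / 27 := by
      have c1 : (1 - a) ^ α ≤ (1 - a) ^ (3 : ℝ) :=
        rpow_le_rpow_of_exponent_ge hx0 (by linarith) hα3
      rw [show (3 : ℝ) = ((3 : ℕ) : ℝ) by norm_num, rpow_natCast] at c1
      have c2 : (1 - a) ^ 3 ≤ (1 / 3) ^ 3 := pow_le_pow_left₀ hx0.le (by linarith) 3
      norm_num at c2
      linarith
    have b2 : (19 / 27 : ℝ) ^ (-(2 + 2 / α)) ≤ ((1 - a) ^ α + 2 / 3) ^ (-(2 + 2 / α)) :=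
      rpow_le_rpow_of_nonpos (base_pos hx0.le (by norm_num)) b1 (by linarith)
    have b3 : ((27 / 19) ^ 2 : ℝ) ≤ (19 / 27) ^ (-(2 + 2 / α)) := by
      have : 0 ≤ 2 / α := by positivity
      have d1 : (19 / 27 : ℝ) ^ (-2 : ℝ) ≤ (19 / 27) ^ (-(2 + 2 / α)) :=
        rpow_le_rpow_of_exponent_ge (by norm_num) (by norm_num) (by linarith)
      refine le_trans ?_ d1
      rw [show (-2 : ℝ) = ((-2 : ℤ) : ℝ) by norm_num, rpow_intCast]
      norm_num
    exact b3.trans b2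
  unfold D
  rw [sub_nonneg]
  refine h1'.trans (le_trans ?_ h3)
  have e4 : (1 + a) ^ (-(α + 3)) = ((1 + a) ^ (α - 1) * (1 + a) ^ (4 : ℕ))⁻¹ := by
    rw [← rpow_natCast, ← rpow_add h2, rpow_neg h2.le]
    congr 2
    push_cast
    ring
  rw [e4]
  have h5 : 0 < (1 + a) ^ (α - 1) * (1 + a) ^ (4 : ℕ) := by positivity
  rw [inv_le_iff_one_le_mul₀ h5]
  have e5 : (27 / 19) ^ 2 * (1 - a) ^ (α - 1) * ((1 + a) ^ (α - 1) * (1 + a) ^ 4) =
      (27 / 19) ^ 2 * ((1 - a ^ 2) ^ (α - 1) * (1 + a) ^ 4) := by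
    have : (1 - a ^ 2) ^ (α - 1) = (1 - a) ^ (α - 1) * (1 + a) ^ (α - 1) := by
      rw [← mul_rpow hx0.le h2.le]
      congr 1
      ring
    rw [this]
    ring
  rw [e5]
  have h6 : (7 / 16 : ℝ) ^ 3 ≤ (1 - a ^ 2) ^ (α - 1) := by
    have c1 : (7 / 16 : ℝ) ^ (3 : ℝ) ≤ (7 / 16) ^ (α - 1) :=
      rpow_le_rpow_of_exponent_ge (by norm_num) (by norm_num) (by linarith)
    rw [show (3 : ℝ) = ((3 : ℕ) : ℝ) by norm_num, rpow_natCast] at c1
    have c2 : (7 / 16 : ℝ) ^ (α - 1) ≤ (1 - a ^ 2) ^ (α - 1) :=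
      rpow_le_rpow (by norm_num) (by nlinarith) (by linarith)
    exact c1.trans c2
  have h7 : (5 / 3 : ℝ) ^ 4 ≤ (1 + a) ^ 4 := pow_le_pow_left₀ (by norm_num) (by linarith) 4
  calc (1 : ℝ) ≤ (27 / 19) ^ 2 * ((7 / 16) ^ 3 * (5 / 3) ^ 4) := by norm_num
    _ ≤ _ := by
        refine mul_le_mul_of_nonneg_left ?_ (by positivity)
        exact mul_le_mul h6 h7 (by positivity) (by
          have : (0 : ℝ) ≤ (7 / 16) ^ 3 := by positivity
          linarith)

/-- the main case -/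
theorem lam_nonneg (hα : 1 < α) (hα4 : α ≤ 4) (hτ : 0 < τ) (hτ1 : τ ≤ 1)
    (hτ2 : 2 ≤ α → τ ≤ 7 / 9) (hτ3 : 3 ≤ α → τ ≤ 2 / 3) {p r : ℝ} (hp : 0 ≤ p)
    (hr : 0 < r) (h1 : r + p ≤ 1) (h2 : 1 / 2 ≤ r - p) :
    0 ≤ ∫ a in (0 : ℝ)..1, (√(r ^ 2 - (a - p) ^ 2) - √(r ^ 2 - (a + p) ^ 2)) * D α τ a := by
  rcases le_or_gt α 2 with h | h
  · refine lam_main (c := 1 / 25) (s := 7 / 25) (t := 1) hα hτ hp hr h1 h2 hτ1 (by norm_num)
      (by norm_num) (by norm_num) (by norm_num) ?_ ?_ (by positivity) (hmain_I hα h)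
    · intro a ha ha1
      exact D_one_nonneg_I hα h ha (by linarith)
    · intro a ha ha1
      have := q_far (t := 1) (c := 1 / 25) hα one_pos (by norm_num) ha ha1
      norm_num at this ⊢
      exact this
  rcases le_or_gt α 3 with h' | h'
  · refine lam_main (c := 1 / 6) (s := 553 / 1000) (t := 7 / 9) hα hτ hp hr h1 h2 (hτ2 h.le)
      (by norm_num) (by norm_num) (by norm_num) (by norm_num) ?_ ?_ (by positivity)
      (hmain_II h.le h')
    · intro a ha ha1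
      exact D_nonneg_of ha (by linarith) hα (by norm_num) (by norm_num)
        (D_one_nonneg_II hα h' ha (by linarith))
    · intro a ha ha1
      have := q_far (t := 7 / 9) (c := 1 / 6) hα (by norm_num) (by norm_num) ha ha1
      norm_num at this ⊢
      exact this
  · refine lam_main (c := 1 / 4) (s := 1323 / 2000) (t := 2 / 3) hα hτ hp hr h1 h2 (hτ3 h'.le)
      (by norm_num) (by norm_num) (by norm_num) (by norm_num) ?_ ?_ (by positivity)
      (hmain_III h'.le)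
    · intro a ha ha1
      rcases le_total a (2 / 3) with h3 | h3
      · exact D_nonneg_of ha (by linarith) hα (by norm_num) (by norm_num)
          (D_one_nonneg_III hα hα4 ha h3)
      · exact D_nonneg_III' h'.le hα4 h3 (by linarith)
    · intro a ha ha1
      have := q_far (t := 2 / 3) (c := 1 / 4) hα (by norm_num) (by norm_num) ha ha1
      norm_num at this ⊢
      exact this

end LpSec.Avg
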