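import Mathlib
import Pool.Agent.Lib.MP_1dbab3_gt.WAvg.A7

/-!
# Averaging lemma, part A8: the one-dimensional inequality

`σ = cos θ`, `sθ = sin θ`, `S = cos η`, `C = sin η`, `p = σ S`, `r = sθ C`.
-/

open Real MeasureTheory Set intervalIntegral

namespace LpSec.Avg

variable {α τ : ℝ}

/-- `Y σ = ((1+σ)/2)^α + ((1-σ)/2)^α` -/
noncomputable def Yf (α s : ℝ) : ℝ := ((1 + s) / 2) ^ α + ((1 - s) / 2) ^ α

theorem Yf_le_one {s : ℝ} (hα : 1 < α) (h0 : -1 ≤ s) (h1 : s ≤ 1) : Yf α s ≤ 1 := by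
  unfold Yf
  have a1 : 0 ≤ (1 + s) / 2 := by linarith
  have a2 : 0 ≤ (1 - s) / 2 := by linarith
  have b1 : ((1 + s) / 2) ^ α ≤ (1 + s) / 2 := by
    calc ((1 + s) / 2) ^ α ≤ ((1 + s) / 2) ^ (1 : ℝ) :=
          rpow_le_rpow_of_exponent_ge' a1 (by linarith) zero_le_one hα.le
      _ = _ := rpow_one _
  have b2 : ((1 - s) / 2) ^ α ≤ (1 - s) / 2 := by
    calc ((1 - s) / 2) ^ α ≤ ((1 - s) / 2) ^ (1 : ℝ) :=
          rpow_le_rpow_of_exponent_ge' a2 (by linarith) zero_le_one hα.le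
      _ = _ := rpow_one _
  linarith

theorem Yf_neg (α s : ℝ) : Yf α (-s) = Yf α s := by
  unfold Yf
  rw [sub_neg_eq_add, ← sub_eq_add_neg, add_comm]

/-- rotation: `σ ≤ s0 + S` if `r + p > 2/3` -/
theorem sigma_le {σ s S C : ℝ} (hσ : σ ^ 2 + s ^ 2 = 1) (hS : S ^ 2 + C ^ 2 = 1)
    (hS0 : 0 ≤ S) (hC0 : 0 ≤ C) (h : 2 / 3 ≤ s * C + σ * S) :
    σ ≤ √5 / 3 + S := by
  set A := s * C + σ * S with hA
  set B := σ * C - s * S with hB
  have h1 : A ^ 2 + B ^ 2 = 1 := by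
    have : A ^ 2 + B ^ 2 = (σ ^ 2 + s ^ 2) * (S ^ 2 + C ^ 2) := by rw [hA, hB]; ring
    rw [this, hσ, hS, one_mul]
  have h2 : σ = C * B + S * A := by
    have : C * B + S * A = σ * (S ^ 2 + C ^ 2) := by rw [hA, hB]; ring
    rw [this, hS, mul_one]
  have hC1 : C ≤ 1 := by nlinarith
  have hA1 : A ≤ 1 := by nlinarith [sq_nonneg B]
  have h5 : √5 ^ 2 = 5 := Real.sq_sqrt (by norm_num)
  have hB1 : B ≤ √5 / 3 := by
    refine le_of_sq_le_sq ?_ (by positivity)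
    nlinarith
  have h3 : C * B ≤ √5 / 3 := by
    rcases le_total 0 B with hb | hb
    · nlinarith
    · have : C * B ≤ 0 := mul_nonpos_of_nonneg_of_nonpos hC0 hb
      have : 0 ≤ √5 / 3 := by positivity
      linarith
  have h4 : S * A ≤ S := by nlinarith
  linarith

/-- bounds of `τ` when `r + p > 2/3` -/
theorem tau_le {σ s S C : ℝ} (hσ : σ ^ 2 + s ^ 2 = 1) (hS : S ^ 2 + C ^ 2 = 1)
    (hσ0 : 0 ≤ σ) (hS0 : 0 ≤ S) (hC0 : 0 ≤ C) (h : 2 / 3 ≤ s * C + σ * S)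
    (hτ : τ ≤ Yf α σ * (1 - S) ^ α) : (2 ≤ α → τ ≤ 7 / 9) ∧ (3 ≤ α → τ ≤ 2 / 3) := by
  have hσ1 : σ ≤ 1 := by nlinarith
  have hS1 : S ≤ 1 := by nlinarith
  have h5 : √5 ^ 2 = 5 := Real.sq_sqrt (by norm_num)
  have h50 : 0 ≤ √5 := Real.sqrt_nonneg _
  have h53 : √5 ≤ 3 := by nlinarith
  have hle := sigma_le hσ hS hS0 hC0 h
  have ha0 : 0 ≤ (1 - S) * ((1 + σ) / 2) := mul_nonneg (by linarith) (by linarith)
  have hb0 : 0 ≤ (1 - S) * ((1 - σ) / 2) := mul_nonneg (by linarith) (by linarith)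
  have ha1 : (1 - S) * ((1 + σ) / 2) ≤ 1 := by nlinarith
  have hb1 : (1 - S) * ((1 - σ) / 2) ≤ 1 := by nlinarith
  have e : Yf α σ * (1 - S) ^ α =
      ((1 - S) * ((1 + σ) / 2)) ^ α + ((1 - S) * ((1 - σ) / 2)) ^ α := by
    unfold Yf
    rw [mul_rpow (by linarith) (by linarith), mul_rpow (by linarith) (by linarith)]
    ring
  rw [e] at hτ
  set x := (1 - S) * ((1 + σ) / 2) with hx
  set y := (1 - S) * ((1 - σ) / 2) with hy
  -- either `σ ≤ √5/3` or the product bounds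
  have key : x ^ 2 + y ^ 2 ≤ 7 / 9 ∧ x ^ 3 + y ^ 3 ≤ 2 / 3 := by
    rcases le_total σ (√5 / 3) with h1 | h1
    · have hσ2 : σ ^ 2 ≤ 5 / 9 := by nlinarith
      have b2 : (1 - S) ^ 2 ≤ 1 := by nlinarith
      have b3 : (1 - S) ^ 3 ≤ 1 := pow_le_one₀ (by linarith) (by linarith)
      have e2 : x ^ 2 + y ^ 2 = (1 - S) ^ 2 * ((1 + σ ^ 2) / 2) := by rw [hx, hy]; ring
      have e3 : x ^ 3 + y ^ 3 = (1 - S) ^ 3 * ((1 + 3 * σ ^ 2) / 4) := by rw [hx, hy]; ring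
      rw [e2, e3]
      constructor
      · calc (1 - S) ^ 2 * ((1 + σ ^ 2) / 2) ≤ 1 * ((1 + σ ^ 2) / 2) :=
              mul_le_mul_of_nonneg_right b2 (by positivity)
          _ ≤ _ := by linarith
      · calc (1 - S) ^ 3 * ((1 + 3 * σ ^ 2) / 4) ≤ 1 * ((1 + 3 * σ ^ 2) / 4) :=
              mul_le_mul_of_nonneg_right b3 (by positivity)
          _ ≤ _ := by linarith
    · have hx1 : x ≤ (1 + √5 / 3) / 2 := by
        rw [hx]
        nlinarith
      have hy1 : y ≤ (1 - √5 / 3) / 2 := by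
        rw [hy]
        nlinarith
      have hy2 : 0 ≤ (1 - √5 / 3) / 2 := by linarith
      have c1 : x ^ 2 ≤ ((1 + √5 / 3) / 2) ^ 2 := pow_le_pow_left₀ ha0 hx1 2
      have c2 : y ^ 2 ≤ ((1 - √5 / 3) / 2) ^ 2 := pow_le_pow_left₀ hb0 hy1 2
      have c3 : x ^ 3 ≤ ((1 + √5 / 3) / 2) ^ 3 := pow_le_pow_left₀ ha0 hx1 3
      have c4 : y ^ 3 ≤ ((1 - √5 / 3) / 2) ^ 3 := pow_le_pow_left₀ hb0 hy1 3
      have e2 : ((1 + √5 / 3) / 2) ^ 2 + ((1 - √5 / 3) / 2) ^ 2 = 7 / 9 := by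
        have : ((1 + √5 / 3) / 2) ^ 2 + ((1 - √5 / 3) / 2) ^ 2 = 1 / 2 + √5 ^ 2 / 18 := by ring
        rw [this, h5]
        norm_num
      have e3 : ((1 + √5 / 3) / 2) ^ 3 + ((1 - √5 / 3) / 2) ^ 3 = 2 / 3 := by
        have : ((1 + √5 / 3) / 2) ^ 3 + ((1 - √5 / 3) / 2) ^ 3 = 1 / 4 + √5 ^ 2 / 12 := by ring
        rw [this, h5]
        norm_num
      constructor <;> linarith
  constructor
  · intro h2
    have c1 : x ^ α ≤ x ^ (2 : ℝ) := rpow_le_rpow_of_exponent_ge' ha0 ha1 (by norm_num) h2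
    have c2 : y ^ α ≤ y ^ (2 : ℝ) := rpow_le_rpow_of_exponent_ge' hb0 hb1 (by norm_num) h2
    rw [rpow_two] at c1 c2
    linarith [key.1]
  · intro h3
    have c1 : x ^ α ≤ x ^ (3 : ℝ) := rpow_le_rpow_of_exponent_ge' ha0 ha1 (by norm_num) h3
    have c2 : y ^ α ≤ y ^ (3 : ℝ) := rpow_le_rpow_of_exponent_ge' hb0 hb1 (by norm_num) h3
    rw [show (3 : ℝ) = ((3 : ℕ) : ℝ) by norm_num, rpow_natCast] at c1 c2
    linarith [key.2]

/-- the integral over `[0,π]` from pointwise comparison on `[0,π/2]` -/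
theorem int_cos_Q_of_pointwise (hα : 1 < α) (hτ : 0 < τ) {p r : ℝ} (hp : 0 ≤ p) (hr : 0 ≤ r)
    (h1 : r + p ≤ 1)
    (h : ∀ ρ, 0 ≤ ρ → ρ ≤ r → 0 ≤ ∫ t in |ρ - p|..(ρ + p), D α τ t) :
    0 ≤ ∫ φ in (0 : ℝ)..π, cos φ * Qf α τ (p + r * cos φ) := by
  have hrng : ∀ φ : ℝ, -1 ≤ p + r * cos φ ∧ p + r * cos φ ≤ 1 := by
    intro φ
    have c1 := Real.cos_le_one φ
    have c2 := Real.neg_one_le_cos φ
    constructor <;> nlinarith
  have hQc : Continuous fun φ => Qf α τ (p + r * cos φ) := by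
    have : ContinuousOn (fun φ => Qf α τ (p + r * cos φ)) univ :=
      (Qf_continuousOn hα hτ).comp (by fun_prop) fun φ _ => hrng φ
    exact continuousOn_univ.1 this
  have hfc : Continuous fun φ => cos φ * Qf α τ (p + r * cos φ) := continuous_cos.mul hQc
  have s1 := intervalIntegral.integral_add_adjacent_intervals
    (hfc.intervalIntegrable (μ := volume) 0 (π / 2)) (hfc.intervalIntegrable (π / 2) π)
  have s2 := intervalIntegral.integral_comp_sub_left (a := (0 : ℝ)) (b := π / 2)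
    (fun φ => cos φ * Qf α τ (p + r * cos φ)) π
  have e1 : π - π / 2 = π / 2 := by ring
  rw [e1, sub_zero] at s2
  have hfc2 : Continuous fun φ => cos (π - φ) * Qf α τ (p + r * cos (π - φ)) :=
    hfc.comp (continuous_const.sub continuous_id : Continuous fun φ : ℝ => π - φ)
  rw [← s1, ← s2, ← intervalIntegral.integral_add (hfc.intervalIntegrable _ _)
    (hfc2.intervalIntegrable _ _)]
  refine intervalIntegral.integral_nonneg (by positivity) fun φ hφ => ?_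
  simp only [Real.cos_pi_sub]
  have hc0 : 0 ≤ cos φ := Real.cos_nonneg_of_mem_Icc ⟨by linarith [hφ.1, pi_pos], hφ.2⟩
  have hc1 := Real.cos_le_one φ
  have hρ0 : 0 ≤ r * cos φ := mul_nonneg hr hc0
  have hρ1 : r * cos φ ≤ r := by nlinarith
  have h2 := h (r * cos φ) hρ0 hρ1
  have habs : |r * cos φ - p| ≤ r * cos φ + p := abs_le.2 ⟨by linarith, by linarith⟩
  have h3 := Qf_sub hα hτ (a := |r * cos φ - p|) (b := r * cos φ + p)
    (by linarith [abs_nonneg (r * cos φ - p)]) habs (by linarith)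
  have h4 : Qf α τ |r * cos φ - p| = Qf α τ (p + r * -cos φ) := by
    rcases abs_cases (r * cos φ - p) with ⟨h5, _⟩ | ⟨h5, _⟩
    · rw [h5, ← Qf_neg]
      congr 1
      ring
    · rw [h5]
      congr 1
      ring
  have h5 : 0 ≤ (α + 2) * ∫ t in |r * cos φ - p|..(r * cos φ + p), D α τ t :=
    mul_nonneg (by linarith) h2
  rw [h4] at h3
  rw [← h3] at h5
  have e2 : r * cos φ + p = p + r * cos φ := by ring
  rw [e2] at h5
  have : cos φ * Qf α τ (p + r * cos φ) + -cos φ * Qf α τ (p + r * -cos φ) =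
      cos φ * (Qf α τ (p + r * cos φ) - Qf α τ (p + r * -cos φ)) := by ring
  rw [this]
  exact mul_nonneg hc0 h5

/-- The one-dimensional inequality. -/
theorem PS (hα : 1 < α) (hα4 : α ≤ 4) (hτ : 0 < τ) {σ s S C : ℝ} (hσ : σ ^ 2 + s ^ 2 = 1)
    (hS : S ^ 2 + C ^ 2 = 1) (hs0 : 0 ≤ s) (hσ0 : 0 ≤ σ) (hS0 : 0 ≤ S) (hC0 : 0 ≤ C)
    (hτ1 : τ ≤ Yf α σ * (1 - S) ^ α) :
    0 ≤ ∫ φ in (0 : ℝ)..π, cos φ * Qf α τ (σ * S + s * C * cos φ) := by
  have hσ1 : σ ≤ 1 := by nlinarith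
  have hS1 : S ≤ 1 := by nlinarith
  have hp : 0 ≤ σ * S := mul_nonneg hσ0 hS0
  have hr : 0 ≤ s * C := mul_nonneg hs0 hC0
  have h1 : s * C + σ * S ≤ 1 := by nlinarith [sq_nonneg (s - C), sq_nonneg (σ - S)]
  have hY := Yf_le_one (α := α) hα (by linarith) hσ1
  have hSα : (1 - S) ^ α ≤ 1 := rpow_le_one (by linarith) (by linarith) (by linarith)
  have hSα0 : 0 ≤ (1 - S) ^ α := rpow_nonneg (by linarith) _
  have hτS : τ ≤ (1 - S) ^ α := by nlinarith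
  have hτ2 : τ ≤ 1 := hτS.trans hSα
  rcases le_or_gt (1 / 2) (s * C - σ * S) with hB | hB
  · rcases le_or_gt (s * C + σ * S) (2 / 3) with h3 | h3
    · refine int_cos_Q_of_pointwise hα hτ hp hr h1 fun ρ hρ hρr => ?_
      have habs : |ρ - σ * S| ≤ ρ + σ * S := abs_le.2 ⟨by linarith, by linarith⟩
      refine intervalIntegral.integral_nonneg habs fun t ht => ?_
      have ht0 : 0 ≤ t := (abs_nonneg _).trans ht.1
      have ht1 : t ≤ 2 / 3 := by linarith [ht.2]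
      exact D_nonneg_of ht0 (by linarith) hα hτ hτ2 (D_one_nonneg_III hα hα4 ht0 ht1)
    · have hr0 : 0 < s * C := by linarith
      obtain ⟨t2, t3⟩ := tau_le hσ hS hσ0 hS0 hC0 h3.le hτ1
      have h4 := lam_nonneg hα hα4 hτ hτ2 t2 t3 hp hr0 h1 hB
      have h5 := int_cos_Q hα hτ hp hr0 h1
      rw [fold_D hα hτ hp hr0 h1] at h5
      refine nonneg_of_mul_nonneg_right ?_ hr0
      rw [h5]
      exact mul_nonneg (by linarith) h4
  · refine int_cos_Q_of_pointwise hα hτ hp hr h1 fun ρ hρ hρr => ?_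
    have habs : |ρ - σ * S| ≤ ρ + σ * S := abs_le.2 ⟨by linarith, by linarith⟩
    rcases le_total |ρ - σ * S| (1 / 2) with h3 | h3
    · exact intD_nonneg hα hα4 hτ hτ2 (abs_nonneg _) h3 habs (by linarith)
    · refine intD_nonneg_far hα hα4 hτ h3 (hτS.trans ?_) habs (by linarith)
      refine rpow_le_rpow (by linarith) ?_ (by linarith)
      -- `|ρ - p| ≤ p ≤ S`
      have h6 : |ρ - σ * S| ≤ S := by
        rcases abs_cases (ρ - σ * S) with ⟨h7, _⟩ | ⟨h7, _⟩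
        · rw [h7] at h3
          exfalso
          linarith
        · rw [h7]
          nlinarith
      linarith

end LpSec.Avg
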