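import Mathlib
import Pool.Agent.Lib.MP_1dbab3_gt.WAvg.A8

/-!
# Averaging lemma, part B1: the integral on the box, derivatives
-/

open Real MeasureTheory Set intervalIntegral Function

namespace LpSec.Avg

variable {α B : ℝ}

theorem swapC {F : ℝ → ℝ → ℝ} (h : Continuous (uncurry F)) (a b c d : ℝ) :
    ∫ x in a..b, ∫ y in c..d, F x y = ∫ y in c..d, ∫ x in a..b, F x y := by
  refine intervalIntegral_intervalIntegral_swap ?_
  have h1 : IntegrableOn (uncurry F) (uIcc a b ×ˢ uIcc c d) :=
    h.continuousOn.integrableOn_compact (isCompact_uIcc.prod isCompact_uIcc)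
  exact h1.mono_set (prod_mono uIoc_subset_uIcc uIoc_subset_uIcc)

/-- `v = 1 + cos θ cos η + sin θ sin η cos φ` -/
noncomputable def vv (η θ φ : ℝ) : ℝ := 1 + cos θ * cos η + sin θ * sin η * cos φ

theorem vv_nonneg (η θ φ : ℝ) : 0 ≤ vv η θ φ := by
  unfold vv
  have h1 := Real.sin_sq_add_cos_sq θ
  have h2 := Real.sin_sq_add_cos_sq η
  have h3 := Real.sin_sq_add_cos_sq φ
  nlinarith [sq_nonneg (cos θ + cos η), sq_nonneg (sin θ + sin η * cos φ),
    mul_nonneg (sq_nonneg (sin η)) (sq_nonneg (sin φ))]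

theorem cont_vv {X : Type*} [TopologicalSpace X] {f g h : X → ℝ} (hf : Continuous f)
    (hg : Continuous g) (hh : Continuous h) : Continuous fun z => vv (f z) (g z) (h z) := by
  unfold vv
  fun_prop

theorem Yf_pos {s : ℝ} (h0 : -1 ≤ s) (h1 : s ≤ 1) : 0 < Yf α s := by
  unfold Yf
  rcases le_total 0 s with h | h
  · have : 0 < ((1 + s) / 2) ^ α := rpow_pos_of_pos (by linarith) _
    have : 0 ≤ ((1 - s) / 2) ^ α := rpow_nonneg (by linarith) _
    linarith
  · have : 0 ≤ ((1 + s) / 2) ^ α := rpow_nonneg (by linarith) _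
    have : 0 < ((1 - s) / 2) ^ α := rpow_pos_of_pos (by linarith) _
    linarith

/-- the base -/
noncomputable def EE (α B η θ φ : ℝ) : ℝ := Yf α (cos θ) + B * vv η θ φ ^ α

theorem EE_pos (hB : 0 ≤ B) (η θ φ : ℝ) : 0 < EE α B η θ φ := by
  unfold EE
  have h1 := Yf_pos (α := α) (Real.neg_one_le_cos θ) (Real.cos_le_one θ)
  have h2 : 0 ≤ vv η θ φ ^ α := rpow_nonneg (vv_nonneg _ _ _) _
  have := mul_nonneg hB h2
  linarith

theorem cont_vvpow {X : Type*} [TopologicalSpace X] {f g h : X → ℝ} (hf : Continuous f)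
    (hg : Continuous g) (hh : Continuous h) {a : ℝ} (ha : 0 ≤ a) :
    Continuous fun z => vv (f z) (g z) (h z) ^ a :=
  (cont_vv hf hg hh).rpow_const fun _ => Or.inr ha

theorem cont_Yf (hα : 1 < α) {X : Type*} [TopologicalSpace X] {g : X → ℝ} (hg : Continuous g) :
    Continuous fun z => Yf α (cos (g z)) := by
  unfold Yf
  refine Continuous.add ?_ ?_
  · exact Continuous.rpow_const (by fun_prop) fun _ => Or.inr (by linarith)
  · exact Continuous.rpow_const (by fun_prop) fun _ => Or.inr (by linarith)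

theorem cont_EE (hα : 1 < α) {X : Type*} [TopologicalSpace X] {f g h : X → ℝ} (hf : Continuous f)
    (hg : Continuous g) (hh : Continuous h) : Continuous fun z => EE α B (f z) (g z) (h z) := by
  unfold EE
  exact (cont_Yf hα hg).add (continuous_const.mul (cont_vvpow hf hg hh (by linarith)))

theorem cont_EEpow (hα : 1 < α) (hB : 0 ≤ B) {X : Type*} [TopologicalSpace X] {f g h : X → ℝ}
    (hf : Continuous f) (hg : Continuous g) (hh : Continuous h) (a : ℝ) :
    Continuous fun z => EE α B (f z) (g z) (h z) ^ a :=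
  (cont_EE hα hf hg hh).rpow_const fun _ => Or.inl (EE_pos hB _ _ _).ne'

/-- the integrand -/
noncomputable def HH (α B η θ φ : ℝ) : ℝ := EE α B η θ φ ^ (-(2 / α))

/-- derivative of the outer power -/
noncomputable def PP (α B η θ φ : ℝ) : ℝ := -(2 / α) * EE α B η θ φ ^ (-(2 / α) - 1)

/-- derivative of `Yf` -/
noncomputable def Yd (α s : ℝ) : ℝ := α / 2 * (((1 + s) / 2) ^ (α - 1) - ((1 - s) / 2) ^ (α - 1))

theorem cont_HH (hα : 1 < α) (hB : 0 ≤ B) {X : Type*} [TopologicalSpace X] {f g h : X → ℝ}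
    (hf : Continuous f) (hg : Continuous g) (hh : Continuous h) :
    Continuous fun z => HH α B (f z) (g z) (h z) := cont_EEpow hα hB hf hg hh _

theorem cont_PP (hα : 1 < α) (hB : 0 ≤ B) {X : Type*} [TopologicalSpace X] {f g h : X → ℝ}
    (hf : Continuous f) (hg : Continuous g) (hh : Continuous h) :
    Continuous fun z => PP α B (f z) (g z) (h z) :=
  continuous_const.mul (cont_EEpow hα hB hf hg hh _)

theorem cont_Yd (hα : 1 < α) {X : Type*} [TopologicalSpace X] {g : X → ℝ} (hg : Continuous g) :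
    Continuous fun z => Yd α (cos (g z)) := by
  unfold Yd
  refine continuous_const.mul (Continuous.sub ?_ ?_)
  · exact Continuous.rpow_const (by fun_prop) fun _ => Or.inr (by linarith)
  · exact Continuous.rpow_const (by fun_prop) fun _ => Or.inr (by linarith)

theorem vv_hasDerivAt_η (η θ φ : ℝ) :
    HasDerivAt (fun η => vv η θ φ) (-(cos θ * sin η) + sin θ * cos η * cos φ) η := by
  unfold vv
  have h1 := ((Real.hasDerivAt_cos η).const_mul (cos θ)).const_add 1
  have h2 := ((Real.hasDerivAt_sin η).const_mul (sin θ)).mul_const (cos φ)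
  refine (h1.add h2).congr_deriv ?_
  ring

theorem vv_hasDerivAt_θ (η θ φ : ℝ) :
    HasDerivAt (fun θ => vv η θ φ) (-(sin θ * cos η) + cos θ * sin η * cos φ) θ := by
  unfold vv
  have h1 := ((Real.hasDerivAt_cos θ).mul_const (cos η)).const_add 1
  have h2 := ((Real.hasDerivAt_sin θ).mul_const (sin η)).mul_const (cos φ)
  refine (h1.add h2).congr_deriv ?_
  ring

theorem vv_hasDerivAt_φ (η θ φ : ℝ) :
    HasDerivAt (fun φ => vv η θ φ) (-(sin θ * sin η * sin φ)) φ := by
  unfold vv
  have h2 := ((Real.hasDerivAt_cos φ).const_mul (sin θ * sin η)).const_add (1 + cos θ * cos η)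
  refine h2.congr_deriv ?_
  ring

theorem Yf_hasDerivAt (hα : 1 < α) (θ : ℝ) :
    HasDerivAt (fun θ => Yf α (cos θ)) (-(sin θ * Yd α (cos θ))) θ := by
  unfold Yf Yd
  have h1 := (((Real.hasDerivAt_cos θ).const_add 1).div_const 2).rpow_const (p := α)
    (Or.inr hα.le)
  have h2 := (((Real.hasDerivAt_cos θ).const_sub 1).div_const 2).rpow_const (p := α)
    (Or.inr hα.le)
  refine (h1.add h2).congr_deriv ?_
  ring

/-- common factor `B α v^(α-1)` -/
noncomputable def RR (α B η θ φ : ℝ) : ℝ := B * (α * vv η θ φ ^ (α - 1))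

theorem cont_RR (hα : 1 < α) {X : Type*} [TopologicalSpace X] {f g h : X → ℝ}
    (hf : Continuous f) (hg : Continuous g) (hh : Continuous h) :
    Continuous fun z => RR α B (f z) (g z) (h z) :=
  continuous_const.mul (continuous_const.mul (cont_vvpow hf hg hh (by linarith)))

theorem HH_hasDerivAt_η (hα : 1 < α) (hB : 0 ≤ B) (η θ φ : ℝ) :
    HasDerivAt (fun η => HH α B η θ φ)
      (PP α B η θ φ * (RR α B η θ φ * (-(cos θ * sin η) + sin θ * cos η * cos φ))) η := by
  have h1 := (((vv_hasDerivAt_η η θ φ).rpow_const (p := α) (Or.inr hα.le)).const_mul B).const_add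
    (Yf α (cos θ))
  have h2 := h1.rpow_const (p := -(2 / α)) (Or.inl (EE_pos (α := α) hB η θ φ).ne')
  refine h2.congr_deriv ?_
  unfold PP RR EE
  ring

theorem HH_hasDerivAt_φ (hα : 1 < α) (hB : 0 ≤ B) (η θ φ : ℝ) :
    HasDerivAt (fun φ => HH α B η θ φ)
      (PP α B η θ φ * (RR α B η θ φ * (-(sin θ * sin η * sin φ)))) φ := by
  have h1 := (((vv_hasDerivAt_φ η θ φ).rpow_const (p := α) (Or.inr hα.le)).const_mul B).const_add
    (Yf α (cos θ))
  have h2 := h1.rpow_const (p := -(2 / α)) (Or.inl (EE_pos (α := α) hB η θ φ).ne')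
  refine h2.congr_deriv ?_
  unfold PP RR EE
  ring

theorem HH_hasDerivAt_θ (hα : 1 < α) (hB : 0 ≤ B) (η θ φ : ℝ) :
    HasDerivAt (fun θ => HH α B η θ φ)
      (PP α B η θ φ * (-(sin θ * Yd α (cos θ)) +
        RR α B η θ φ * (-(sin θ * cos η) + cos θ * sin η * cos φ))) θ := by
  have h1 := (Yf_hasDerivAt hα θ).add
    (((vv_hasDerivAt_θ η θ φ).rpow_const (p := α) (Or.inr hα.le)).const_mul B)
  have h2 := h1.rpow_const (p := -(2 / α)) (Or.inl (EE_pos (α := α) hB η θ φ).ne')
  refine h2.congr_deriv ?_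
  unfold PP RR EE
  simp only [Pi.add_apply]
  ring

/-- the integral over the box -/
noncomputable def II (α B η : ℝ) : ℝ :=
  ∫ θ in (0 : ℝ)..π, sin θ * ∫ φ in (0 : ℝ)..π, HH α B η θ φ

/-- its derivative -/
noncomputable def dI (α B η : ℝ) : ℝ :=
  ∫ θ in (0 : ℝ)..π, sin θ * ∫ φ in (0 : ℝ)..π,
    PP α B η θ φ * (RR α B η θ φ * (-(cos θ * sin η) + sin θ * cos η * cos φ))

theorem II_sub (hα : 1 < α) (hB : 0 ≤ B) (a b : ℝ) :
    II α B b - II α B a = ∫ η in a..b, dI α B η := by
  set G : ℝ → ℝ → ℝ → ℝ := fun η θ φ =>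
    PP α B η θ φ * (RR α B η θ φ * (-(cos θ * sin η) + sin θ * cos η * cos φ)) with hG
  have hGc : ∀ {X : Type} [TopologicalSpace X] {f g h : X → ℝ}, Continuous f → Continuous g →
      Continuous h → Continuous fun z => G (f z) (g z) (h z) := by
    intro X _ f g h hf hg hh
    rw [hG]
    exact (cont_PP hα hB hf hg hh).mul ((cont_RR hα hf hg hh).mul (by fun_prop))
  have hHc : ∀ {X : Type} [TopologicalSpace X] {f g h : X → ℝ}, Continuous f → Continuous g →
      Continuous h → Continuous fun z => HH α B (f z) (g z) (h z) := fun hf hg hh =>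
    cont_HH hα hB hf hg hh
  have s1 : ∀ θ φ, HH α B b θ φ - HH α B a θ φ = ∫ η in a..b, G η θ φ := by
    intro θ φ
    symm
    exact intervalIntegral.integral_eq_sub_of_hasDerivAt (fun η _ => HH_hasDerivAt_η hα hB η θ φ)
      ((hGc continuous_id continuous_const continuous_const).intervalIntegrable _ _)
  have s2 : ∀ θ, (∫ φ in (0 : ℝ)..π, HH α B b θ φ) - (∫ φ in (0 : ℝ)..π, HH α B a θ φ) =
      ∫ η in a..b, ∫ φ in (0 : ℝ)..π, G η θ φ := by
    intro θ
    have c1 : ∀ η, Continuous fun φ => HH α B η θ φ := fun η =>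
      hHc continuous_const continuous_const continuous_id
    rw [← intervalIntegral.integral_sub ((c1 b).intervalIntegrable _ _)
      ((c1 a).intervalIntegrable _ _)]
    simp_rw [s1 θ]
    exact swapC (F := fun φ η => G η θ φ) (hGc continuous_snd continuous_const continuous_fst) _ _ _ _
  have hpar : Continuous (uncurry fun θ η => sin θ * ∫ φ in (0 : ℝ)..π, G η θ φ) := by
    refine Continuous.mul (by fun_prop) ?_
    exact intervalIntegral.continuous_parametric_intervalIntegral_of_continuous'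
      (f := fun (z : ℝ × ℝ) φ => G z.2 z.1 φ)
      (hGc (continuous_snd.comp continuous_fst) (continuous_fst.comp continuous_fst)
        continuous_snd) 0 π
  have hpar2 : ∀ η, Continuous fun θ => sin θ * ∫ φ in (0 : ℝ)..π, HH α B η θ φ := by
    intro η
    refine continuous_sin.mul ?_
    exact intervalIntegral.continuous_parametric_intervalIntegral_of_continuous'
      (f := fun (θ : ℝ) φ => HH α B η θ φ)
      (hHc continuous_const continuous_fst continuous_snd) 0 π
  unfold II
  rw [← intervalIntegral.integral_sub ((hpar2 b).intervalIntegrable _ _)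
    ((hpar2 a).intervalIntegrable _ _)]
  have s3 : ∀ θ, (sin θ * ∫ φ in (0 : ℝ)..π, HH α B b θ φ) -
      (sin θ * ∫ φ in (0 : ℝ)..π, HH α B a θ φ) =
      ∫ η in a..b, sin θ * ∫ φ in (0 : ℝ)..π, G η θ φ := by
    intro θ
    rw [intervalIntegral.integral_const_mul, ← s2 θ]
    ring
  simp_rw [s3]
  exact swapC hpar _ _ _ _

end LpSec.Avg
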