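import Mathlib
import Pool.Agent.Lib.MP_1dbab3_gt.WAvg.B1

/-!
# Averaging lemma, part B2: the derivative is nonnegative
-/

open Real MeasureTheory Set intervalIntegral Function

namespace LpSec.Avg

variable {α B : ℝ}

/-- `∫ cos φ E^(-(1+2/α))` -/
noncomputable def ZZ (α B η θ : ℝ) : ℝ :=
  ∫ φ in (0 : ℝ)..π, cos φ * EE α B η θ φ ^ (-(1 + 2 / α))

/-- `∂_θ (sin θ H)` -/
noncomputable def TT1 (α B η θ φ : ℝ) : ℝ := cos θ * HH α B η θ φ + sin θ *
    (PP α B η θ φ * (-(sin θ * Yd α (cos θ)) +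
        RR α B η θ φ * (-(sin θ * cos η) + cos θ * sin η * cos φ)))

/-- `∂_φ (sin φ H)` -/
noncomputable def TT2 (α B η θ φ : ℝ) : ℝ := cos φ * HH α B η θ φ + sin φ *
    (PP α B η θ φ * (RR α B η θ φ * (-(sin θ * sin η * sin φ))))

/-- the remaining integrand -/
noncomputable def KK (α B η θ φ : ℝ) : ℝ := 2 / α * (sin θ ^ 2 * Yd α (cos θ)) *
    (cos φ * EE α B η θ φ ^ (-(1 + 2 / α)))

theorem cont_TT1 (hα : 1 < α) (hB : 0 ≤ B) (η : ℝ) {X : Type*} [TopologicalSpace X]
    {g h : X → ℝ} (hg : Continuous g) (hh : Continuous h) :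
    Continuous fun z => TT1 α B η (g z) (h z) := by
  have a1 : Continuous fun z => HH α B η (g z) (h z) := cont_HH hα hB continuous_const hg hh
  have a2 : Continuous fun z => PP α B η (g z) (h z) := cont_PP hα hB continuous_const hg hh
  have a3 : Continuous fun z => RR α B η (g z) (h z) := cont_RR hα continuous_const hg hh
  have a4 : Continuous fun z => Yd α (cos (g z)) := cont_Yd hα hg
  unfold TT1
  fun_prop

theorem cont_TT2 (hα : 1 < α) (hB : 0 ≤ B) (η : ℝ) {X : Type*} [TopologicalSpace X]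
    {g h : X → ℝ} (hg : Continuous g) (hh : Continuous h) :
    Continuous fun z => TT2 α B η (g z) (h z) := by
  have a1 : Continuous fun z => HH α B η (g z) (h z) := cont_HH hα hB continuous_const hg hh
  have a2 : Continuous fun z => PP α B η (g z) (h z) := cont_PP hα hB continuous_const hg hh
  have a3 : Continuous fun z => RR α B η (g z) (h z) := cont_RR hα continuous_const hg hh
  unfold TT2
  fun_prop

theorem cont_KK (hα : 1 < α) (hB : 0 ≤ B) (η : ℝ) {X : Type*} [TopologicalSpace X]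
    {g h : X → ℝ} (hg : Continuous g) (hh : Continuous h) :
    Continuous fun z => KK α B η (g z) (h z) := by
  have a1 : Continuous fun z => EE α B η (g z) (h z) ^ (-(1 + 2 / α)) :=
    cont_EEpow hα hB continuous_const hg hh _
  have a4 : Continuous fun z => Yd α (cos (g z)) := cont_Yd hα hg
  unfold KK
  fun_prop

theorem pointwise_id (α B η θ φ : ℝ) : sin θ * (PP α B η θ φ * (RR α B η θ φ *
      (-(cos θ * sin η) + sin θ * cos η * cos φ))) =
      KK α B η θ φ + (cos θ * TT2 α B η θ φ - cos φ * TT1 α B η θ φ) := by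
  unfold KK TT1 TT2
  have e1 : EE α B η θ φ ^ (-(1 + 2 / α)) = EE α B η θ φ ^ (-(2 / α) - 1) := by
    congr 1
    ring
  rw [e1]
  unfold PP
  generalize EE α B η θ φ ^ (-(2 / α) - 1) = X
  generalize RR α B η θ φ = R
  generalize HH α B η θ φ = H
  generalize Yd α (cos θ) = Y
  have h3 : sin φ ^ 2 = 1 - cos φ ^ 2 := by
    have := Real.sin_sq_add_cos_sq φ
    linarith
  linear_combination (-(cos θ * (2 / α) * X * R * sin θ * sin η)) * h3

theorem int_TT1 (hα : 1 < α) (hB : 0 ≤ B) (η φ : ℝ) :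
    ∫ θ in (0 : ℝ)..π, TT1 α B η θ φ = 0 := by
  have hc : Continuous fun θ => TT1 α B η θ φ := cont_TT1 hα hB η continuous_id continuous_const
  have hd : ∀ θ ∈ uIcc 0 π, HasDerivAt (fun θ => sin θ * HH α B η θ φ) (TT1 α B η θ φ) θ := by
    intro θ _
    unfold TT1
    exact (Real.hasDerivAt_sin θ).mul (HH_hasDerivAt_θ hα hB η θ φ)
  rw [intervalIntegral.integral_eq_sub_of_hasDerivAt hd (hc.intervalIntegrable _ _)]
  simp

theorem int_TT2 (hα : 1 < α) (hB : 0 ≤ B) (η θ : ℝ) :
    ∫ φ in (0 : ℝ)..π, TT2 α B η θ φ = 0 := by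
  have hc : Continuous fun φ => TT2 α B η θ φ := cont_TT2 hα hB η continuous_const continuous_id
  have hd : ∀ φ ∈ uIcc 0 π, HasDerivAt (fun φ => sin φ * HH α B η θ φ) (TT2 α B η θ φ) φ := by
    intro φ _
    unfold TT2
    exact (Real.hasDerivAt_sin φ).mul (HH_hasDerivAt_φ hα hB η θ φ)
  rw [intervalIntegral.integral_eq_sub_of_hasDerivAt hd (hc.intervalIntegrable _ _)]
  simp

/-- the derivative after two integrations by parts -/
theorem dI_eq (hα : 1 < α) (hB : 0 ≤ B) (η : ℝ) :
    dI α B η = ∫ θ in (0 : ℝ)..π, 2 / α * (sin θ ^ 2 * Yd α (cos θ) * ZZ α B η θ) := by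
  have c1φ : ∀ θ, Continuous fun φ => TT1 α B η θ φ := fun θ =>
    cont_TT1 hα hB η continuous_const continuous_id
  have c2φ : ∀ θ, Continuous fun φ => TT2 α B η θ φ := fun θ =>
    cont_TT2 hα hB η continuous_const continuous_id
  have cKφ : ∀ θ, Continuous fun φ => KK α B η θ φ := fun θ =>
    cont_KK hα hB η continuous_const continuous_id
  have s1 : ∀ θ, (sin θ * ∫ φ in (0 : ℝ)..π, PP α B η θ φ * (RR α B η θ φ *
      (-(cos θ * sin η) + sin θ * cos η * cos φ))) =
      (∫ φ in (0 : ℝ)..π, KK α B η θ φ) - ∫ φ in (0 : ℝ)..π, cos φ * TT1 α B η θ φ := by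
    intro θ
    rw [← intervalIntegral.integral_const_mul]
    simp_rw [pointwise_id α B η θ]
    have b1 : Continuous fun φ => cos θ * TT2 α B η θ φ := continuous_const.mul (c2φ θ)
    have b2 : Continuous fun φ => cos φ * TT1 α B η θ φ := continuous_cos.mul (c1φ θ)
    have b3 : Continuous fun φ => cos θ * TT2 α B η θ φ - cos φ * TT1 α B η θ φ := b1.sub b2
    rw [intervalIntegral.integral_add ((cKφ θ).intervalIntegrable _ _)
      (b3.intervalIntegrable _ _),
      intervalIntegral.integral_sub (b1.intervalIntegrable _ _) (b2.intervalIntegrable _ _),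
      intervalIntegral.integral_const_mul, int_TT2 hα hB η θ]
    ring
  have cK : Continuous (uncurry fun θ φ => KK α B η θ φ) :=
    cont_KK hα hB η continuous_fst continuous_snd
  have cKi : Continuous fun θ => ∫ φ in (0 : ℝ)..π, KK α B η θ φ :=
    intervalIntegral.continuous_parametric_intervalIntegral_of_continuous' cK 0 π
  have cT1' : Continuous (uncurry fun θ φ => cos φ * TT1 α B η θ φ) :=
    (continuous_cos.comp continuous_snd).mul (cont_TT1 hα hB η continuous_fst continuous_snd)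
  have cTi : Continuous fun θ => ∫ φ in (0 : ℝ)..π, cos φ * TT1 α B η θ φ :=
    intervalIntegral.continuous_parametric_intervalIntegral_of_continuous' cT1' 0 π
  unfold dI
  simp_rw [s1]
  rw [intervalIntegral.integral_sub (cKi.intervalIntegrable _ _) (cTi.intervalIntegrable _ _)]
  have s2 : ∫ θ in (0 : ℝ)..π, ∫ φ in (0 : ℝ)..π, cos φ * TT1 α B η θ φ = 0 := by
    rw [swapC cT1']
    have : ∀ φ, ∫ θ in (0 : ℝ)..π, cos φ * TT1 α B η θ φ = 0 := by
      intro φ
      rw [intervalIntegral.integral_const_mul, int_TT1 hα hB η φ, mul_zero]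
    simp_rw [this]
    simp
  rw [s2, sub_zero]
  refine intervalIntegral.integral_congr fun θ _ => ?_
  simp only [KK, ZZ]
  rw [intervalIntegral.integral_const_mul]
  ring

theorem Yd_neg (α s : ℝ) : Yd α (-s) = -Yd α s := by
  unfold Yd
  rw [sub_neg_eq_add, ← sub_eq_add_neg]
  ring

theorem Yd_nonneg {s : ℝ} (hα : 1 < α) (h0 : 0 ≤ s) (h1 : s ≤ 1) : 0 ≤ Yd α s := by
  unfold Yd
  have : ((1 - s) / 2) ^ (α - 1) ≤ ((1 + s) / 2) ^ (α - 1) :=
    rpow_le_rpow (by linarith) (by linarith) (by linarith)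
  have : 0 ≤ ((1 + s) / 2) ^ (α - 1) - ((1 - s) / 2) ^ (α - 1) := by linarith
  positivity

theorem ZZ_cont (hα : 1 < α) (hB : 0 ≤ B) (η : ℝ) : Continuous (ZZ α B η) := by
  unfold ZZ
  refine intervalIntegral.continuous_parametric_intervalIntegral_of_continuous'
    (f := fun θ φ => cos φ * EE α B η θ φ ^ (-(1 + 2 / α))) ?_ 0 π
  exact (continuous_cos.comp continuous_snd).mul
    (cont_EEpow hα hB continuous_const continuous_fst continuous_snd _)

theorem dI_half (hα : 1 < α) (hB : 0 ≤ B) (η : ℝ) :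
    dI α B η = ∫ θ in (0 : ℝ)..(π / 2), 2 / α * (sin θ ^ 2 * Yd α (cos θ) *
      (ZZ α B η θ - ZZ α B η (π - θ))) := by
  rw [dI_eq hα hB]
  set f : ℝ → ℝ := fun θ => 2 / α * (sin θ ^ 2 * Yd α (cos θ) * ZZ α B η θ) with hf
  have hfc : Continuous f := by
    have a1 := ZZ_cont hα hB η
    have a2 : Continuous fun θ => Yd α (cos θ) := cont_Yd hα continuous_id
    rw [hf]
    fun_prop
  have s1 := intervalIntegral.integral_add_adjacent_intervals
    (hfc.intervalIntegrable (μ := volume) 0 (π / 2)) (hfc.intervalIntegrable (π / 2) π)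
  have s2 := intervalIntegral.integral_comp_sub_left (a := (0 : ℝ)) (b := π / 2) f π
  have e1 : π - π / 2 = π / 2 := by ring
  rw [e1, sub_zero] at s2
  have hfc2 : Continuous fun θ => f (π - θ) :=
    hfc.comp (continuous_const.sub continuous_id : Continuous fun θ : ℝ => π - θ)
  rw [← s1, ← s2, ← intervalIntegral.integral_add (hfc.intervalIntegrable _ _)
    (hfc2.intervalIntegrable _ _)]
  refine intervalIntegral.integral_congr fun θ _ => ?_
  simp only [hf, Real.cos_pi_sub, Real.sin_pi_sub, Yd_neg]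
  ring

theorem ZZ_sub (hα : 1 < α) (hB : 0 < B) {η θ : ℝ} :
    ZZ α B η θ - ZZ α B η (π - θ) = B ^ (-(1 + 2 / α)) *
      ∫ φ in (0 : ℝ)..π, cos φ * Qf α (Yf α (cos θ) / B)
        (cos θ * cos η + sin θ * sin η * cos φ) := by
  have hY := Yf_pos (α := α) (Real.neg_one_le_cos θ) (Real.cos_le_one θ)
  have hx : ∀ φ : ℝ, -1 ≤ cos θ * cos η + sin θ * sin η * cos φ ∧
      cos θ * cos η + sin θ * sin η * cos φ ≤ 1 := by
    intro φ
    have h1 := vv_nonneg η θ φ
    have h2 := vv_nonneg η (π - θ) (π - φ)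
    unfold vv at h1 h2
    rw [Real.cos_pi_sub, Real.sin_pi_sub, Real.cos_pi_sub] at h2
    constructor <;> linarith
  have key : ∀ v : ℝ, 0 ≤ v → (Yf α (cos θ) + B * v ^ α) ^ (-(1 + 2 / α)) =
      B ^ (-(1 + 2 / α)) * Gf α (Yf α (cos θ) / B) v := by
    intro v hv
    unfold Gf
    have : 0 ≤ v ^ α := rpow_nonneg hv _
    rw [← mul_rpow hB.le (by positivity)]
    congr 1
    field_simp
    ring
  -- the reflected integral
  have r1 : ZZ α B η (π - θ) = -∫ φ in (0 : ℝ)..π, cos φ * (B ^ (-(1 + 2 / α)) *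
      Gf α (Yf α (cos θ) / B) (1 - (cos θ * cos η + sin θ * sin η * cos φ))) := by
    unfold ZZ
    have h := intervalIntegral.integral_comp_sub_left (a := (0 : ℝ)) (b := π)
      (fun φ => cos φ * EE α B η (π - θ) φ ^ (-(1 + 2 / α))) π
    rw [sub_self, sub_zero] at h
    rw [← h, ← intervalIntegral.integral_neg]
    refine intervalIntegral.integral_congr fun φ _ => ?_
    have e : EE α B η (π - θ) (π - φ) =
        Yf α (cos θ) + B * (1 - (cos θ * cos η + sin θ * sin η * cos φ)) ^ α := by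
      unfold EE vv
      rw [Real.cos_pi_sub, Real.sin_pi_sub, Real.cos_pi_sub, Yf_neg]
      congr 3
      ring
    simp only [Real.cos_pi_sub]
    rw [e, key _ (by linarith [(hx φ).2])]
    ring
  have r2 : ZZ α B η θ = ∫ φ in (0 : ℝ)..π, cos φ * (B ^ (-(1 + 2 / α)) *
      Gf α (Yf α (cos θ) / B) (1 + (cos θ * cos η + sin θ * sin η * cos φ))) := by
    unfold ZZ
    refine intervalIntegral.integral_congr fun φ _ => ?_
    have e : EE α B η θ φ =
        Yf α (cos θ) + B * (1 + (cos θ * cos η + sin θ * sin η * cos φ)) ^ α := by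
      unfold EE vv
      congr 3
      ring
    rw [e, key _ (by linarith [(hx φ).1])]
  have hG : ContinuousOn (Gf α (Yf α (cos θ) / B)) (Ici 0) := fun v hv =>
    (Gf_hasDerivAt hα (by positivity) hv).continuousAt.continuousWithinAt
  have g1 : Continuous fun φ => Gf α (Yf α (cos θ) / B)
      (1 - (cos θ * cos η + sin θ * sin η * cos φ)) := by
    rw [← continuousOn_univ]
    refine hG.comp (by fun_prop) fun φ _ => ?_
    rw [mem_Ici]
    linarith [(hx φ).2]
  have g2 : Continuous fun φ => Gf α (Yf α (cos θ) / B)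
      (1 + (cos θ * cos η + sin θ * sin η * cos φ)) := by
    rw [← continuousOn_univ]
    refine hG.comp (by fun_prop) fun φ _ => ?_
    rw [mem_Ici]
    linarith [(hx φ).1]
  rw [r1, r2, sub_neg_eq_add, ← intervalIntegral.integral_add
    (Continuous.intervalIntegrable (by fun_prop) _ _)
    (Continuous.intervalIntegrable (by fun_prop) _ _), ← intervalIntegral.integral_const_mul]
  refine intervalIntegral.integral_congr fun φ _ => ?_
  simp only [Qf]
  ring

theorem dI_nonneg (hα : 1 < α) (hα4 : α ≤ 4) (hB : 0 < B) {η : ℝ} (h0 : 0 ≤ η) (h1 : η ≤ π / 2)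
    (h : 1 ≤ B * (1 - cos η) ^ α) : 0 ≤ dI α B η := by
  rw [dI_half hα hB.le]
  refine intervalIntegral.integral_nonneg (by positivity) fun θ hθ => ?_
  have hcθ : 0 ≤ cos θ := Real.cos_nonneg_of_mem_Icc ⟨by linarith [hθ.1, pi_pos], hθ.2⟩
  have hsθ : 0 ≤ sin θ := Real.sin_nonneg_of_nonneg_of_le_pi hθ.1 (by linarith [hθ.2, pi_pos])
  have hcη : 0 ≤ cos η := Real.cos_nonneg_of_mem_Icc ⟨by linarith [pi_pos], h1⟩
  have hsη : 0 ≤ sin η := Real.sin_nonneg_of_nonneg_of_le_pi h0 (by linarith [pi_pos])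
  have hY := Yf_pos (α := α) (Real.neg_one_le_cos θ) (Real.cos_le_one θ)
  have hYd := Yd_nonneg (α := α) hα hcθ (Real.cos_le_one θ)
  rw [ZZ_sub hα hB]
  have hPS := PS (τ := Yf α (cos θ) / B) hα hα4 (by positivity)
    (σ := cos θ) (s := sin θ) (S := cos η) (C := sin η)
    (by have := Real.sin_sq_add_cos_sq θ; linarith)
    (by have := Real.sin_sq_add_cos_sq η; linarith) hsθ hcθ hcη hsη ?_
  · have hα0 : 0 < α := by linarith
    positivity
  · rw [div_le_iff₀ hB]
    nlinarith

/-- averaging, for the integral on the box -/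
theorem II_le (hα : 1 < α) (hα4 : α ≤ 4) (hB : 0 < B) {η : ℝ} (h0 : 0 ≤ η) (h1 : η ≤ π / 2)
    (h : 1 ≤ B * (1 - cos η) ^ α) : II α B η ≤ II α B (π / 2) := by
  have h2 := II_sub hα hB.le η (π / 2)
  have h3 : 0 ≤ ∫ x in η..(π / 2), dI α B x := by
    refine intervalIntegral.integral_nonneg h1 fun x hx => ?_
    refine dI_nonneg hα hα4 hB (h0.trans hx.1) hx.2 (h.trans ?_)
    refine mul_le_mul_of_nonneg_left ?_ hB.le
    have hc : cos x ≤ cos η :=
      Real.cos_le_cos_of_nonneg_of_le_pi h0 (by linarith [hx.2, pi_pos]) hx.1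
    exact rpow_le_rpow (by linarith [Real.cos_le_one η]) (by linarith) (by linarith)
  linarith

end LpSec.Avg
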