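import Mathlib
import Pool.Agent.Lib.MP_1dbab3_gt.WBase

/-!
# Averaging lemma, part C1: the section in dimension three as an integral over `ℂ × ℂ`
-/

open Real MeasureTheory Set Filter Topology

namespace LpSec.Avg

variable {α : ℝ}

/-- `f z = exp (-‖z‖ ^ (2 α))`. -/
noncomputable def ff (α : ℝ) (z : ℂ) : ℝ := exp (-‖z‖ ^ (2 * α))

theorem ff_cont (hα : 1 < α) : Continuous (ff α) := by
  refine continuous_exp.comp (Continuous.neg ?_)
  exact Continuous.rpow_const (by fun_prop) fun _ => Or.inr (by linarith)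

theorem ff_pos (z : ℂ) : 0 < ff α z := exp_pos _

theorem ff_le_one (z : ℂ) : ff α z ≤ 1 := by
  unfold ff
  rw [exp_le_one_iff]
  have : 0 ≤ ‖z‖ ^ (2 * α) := by positivity
  linarith

theorem ff_neg (z : ℂ) : ff α (-z) = ff α z := by
  unfold ff
  rw [norm_neg]

theorem ff_int (hα : 1 < α) : Integrable (ff α) := by
  have h1 : ∫ x : ℂ, exp (-‖x‖ ^ (2 * α)) = π * Gamma (1 + 1 / α) := by
    rw [Complex.integral_exp_neg_rpow (by linarith)]
    congr 2
    field_simp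
    ring
  have hpos : 0 < π * Gamma (1 + 1 / α) := mul_pos pi_pos (Gamma_pos_of_pos (by positivity))
  by_contra h
  have h2 : ∫ x : ℂ, exp (-‖x‖ ^ (2 * α)) = 0 := integral_undef h
  rw [h1] at h2
  exact hpos.ne' h2

/-- complex scaling -/
theorem lint_mul {c : ℂ} (hc : c ≠ 0) (g : ℂ → ENNReal) :
    ∫⁻ w, g (c * w) = ENNReal.ofReal (1 / ‖c‖ ^ 2) * ∫⁻ w, g w := by
  set L : ℂ →ₗ[ℝ] ℂ := Algebra.lmul ℝ ℂ c with hL
  have hdet : LinearMap.det L = ‖c‖ ^ 2 := by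
    have h := Algebra.norm_apply ℝ c
    rw [Algebra.norm_complex_apply, Complex.normSq_eq_norm_sq] at h
    exact h.symm
  have hc' : 0 < ‖c‖ := norm_pos_iff.2 hc
  have h0 : LinearMap.det L ≠ 0 := by
    rw [hdet]
    positivity
  have h1 := Measure.map_linearMap_addHaar_eq_smul_addHaar (volume : Measure ℂ) h0
  rw [hdet, abs_of_pos (by positivity), ← one_div] at h1
  have h2 : (L : ℂ → ℂ) = fun w => c * w := rfl
  rw [h2] at h1
  have h3 : MeasurableEmbedding (fun w : ℂ => c * w) :=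
    (Homeomorph.mulLeft₀ c hc).measurableEmbedding
  have h4 := h3.lintegral_map (μ := volume) g
  rw [← h4, h1, lintegral_smul_measure, smul_eq_mul]

theorem lint3 {g : ℂ × ℂ × ℂ → ENNReal} (hg : Measurable g) :
    ∫⁻ p, g p = ∫⁻ z : ℂ, ∫⁻ v : ℂ, ∫⁻ w : ℂ, g (z, v, w) := by
  rw [Measure.volume_eq_prod, lintegral_prod _ hg.aemeasurable]
  refine lintegral_congr fun z => ?_
  rw [Measure.volume_eq_prod, lintegral_prod]
  exact (hg.comp measurable_prodMk_left).aemeasurable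

/-- coordinates -/
theorem Ieta_three {a : EuclideanSpace ℂ (Fin 3)} {η : ℝ} :
    Ieta α η a = ∫ p : ℂ × ℂ × ℂ, ff α p.2.1 * ff α p.2.2 * ff α p.1 *
      ((π * η)⁻¹ * exp (-(‖starRingEnd ℂ (a 0) * p.1 + (starRingEnd ℂ (a 1) * p.2.1 +
        starRingEnd ℂ (a 2) * p.2.2)‖ ^ 2 / η))) := by
  rw [Ieta]
  rw [← (mp_toLp (Fin 3)).integral_comp
    (MeasurableEquiv.toLp 2 (Fin 3 → ℂ)).measurableEmbedding]
  have hp := (volume_preserving_piFinSuccAbove (fun _ : Fin 3 => ℂ) 0).symm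
  rw [← hp.integral_comp (MeasurableEquiv.measurableEmbedding _)]
  have hq := (volume_preserving_finTwoArrow ℂ).symm
  have hr := (MeasurePreserving.id (volume : Measure ℂ)).prod hq
  have e := hr.integral_comp
    (((MeasurableEquiv.refl ℂ).prodCongr (MeasurableEquiv.finTwoArrow (α := ℂ)).symm).measurableEmbedding)
    (fun x : ℂ × (Fin 2 → ℂ) => exp (-∑ i, ‖(WithLp.toLp 2 ((MeasurableEquiv.piFinSuccAbove
        (fun _ : Fin 3 => ℂ) 0).symm x) : EuclideanSpace ℂ (Fin 3)) i‖ ^ (2 * α)) *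
        ((π * η)⁻¹ * exp (-(‖inner ℂ a (WithLp.toLp 2 ((MeasurableEquiv.piFinSuccAbove
        (fun _ : Fin 3 => ℂ) 0).symm x) : EuclideanSpace ℂ (Fin 3))‖ ^ 2 / η))))
  refine Eq.trans e.symm ?_
  refine integral_congr_ae (Eventually.of_forall fun p => ?_)
  obtain ⟨z, v, w⟩ := p
  have hs1 : ∀ y : Fin 2 → ℂ,
      (MeasurableEquiv.piFinSuccAbove (fun _ : Fin 3 => ℂ) 0).symm (z, y) =
      Fin.insertNth (α := fun _ => ℂ) 0 z y := fun _ => rfl
  have hs2 : (Prod.map id (MeasurableEquiv.finTwoArrow (α := ℂ)).symm (z, v, w)) =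
      (z, ![v, w]) := rfl
  simp only
  rw [hs2, hs1]
  have h1 : inner ℂ a (WithLp.toLp 2 (Fin.insertNth (α := fun _ => ℂ) 0 z ![v, w]) :
      EuclideanSpace ℂ (Fin 3)) = starRingEnd ℂ (a 0) * z + (starRingEnd ℂ (a 1) * v +
        starRingEnd ℂ (a 2) * w) := by
    rw [PiLp.inner_apply, Fin.sum_univ_succAbove _ 0, Fin.sum_univ_two]
    simp [mul_comm]
  rw [h1, Fin.sum_univ_succAbove _ 0, Fin.sum_univ_two]
  simp only [Fin.insertNth_apply_same, Fin.insertNth_apply_succAbove]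
  unfold ff
  rw [neg_add, neg_add, exp_add, exp_add]
  simp only [Matrix.cons_val_zero, Matrix.cons_val_one]
  ring

theorem Ieta_three_int (hα : 1 < α) (a : EuclideanSpace ℂ (Fin 3)) {η : ℝ} (hη : 0 < η) :
    Integrable (fun p : ℂ × ℂ × ℂ => ff α p.2.1 * ff α p.2.2 * ff α p.1 *
      ((π * η)⁻¹ * exp (-(‖starRingEnd ℂ (a 0) * p.1 + (starRingEnd ℂ (a 1) * p.2.1 +
        starRingEnd ℂ (a 2) * p.2.2)‖ ^ 2 / η)))) := by
  have hc := ff_cont hα
  have h1 := (((ff_int hα).mul_prod ((ff_int hα).mul_prod (ff_int hα))).const_mul (π * η)⁻¹)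
  refine Integrable.mono' h1 ?_ (Eventually.of_forall fun p => ?_)
  · refine Continuous.aestronglyMeasurable ?_
    exact (((hc.comp (by fun_prop)).mul (hc.comp (by fun_prop))).mul (hc.comp (by fun_prop))).mul
      (by fun_prop)
  · have e1 := ff_pos (α := α) p.1
    have e2 := ff_pos (α := α) p.2.1
    have e3 := ff_pos (α := α) p.2.2
    rw [norm_of_nonneg (by positivity)]
    have h2 : exp (-(‖starRingEnd ℂ (a 0) * p.1 + (starRingEnd ℂ (a 1) * p.2.1 +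
        starRingEnd ℂ (a 2) * p.2.2)‖ ^ 2 / η)) ≤ 1 := by
      rw [exp_le_one_iff, neg_nonpos]
      positivity
    calc _ ≤ ff α p.2.1 * ff α p.2.2 * ff α p.1 * ((π * η)⁻¹ * 1) := by gcongr
      _ = _ := by ring

/-- the substitution in the last coordinate -/
theorem Ieta_three_sub (hα : 1 < α) (a : EuclideanSpace ℂ (Fin 3)) (h2 : a 2 ≠ 0) {η : ℝ}
    (hη : 0 < η) : ENNReal.ofReal (Ieta α η a) = ENNReal.ofReal (1 / ‖a 2‖ ^ 2) *
      ∫⁻ p : ℂ × ℂ × ℂ, ENNReal.ofReal (ff α p.1 * ff α p.2.1 * (π⁻¹ * exp (-1 * ‖p.2.2‖ ^ 2)) *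
        ff α (((√η : ℝ) * p.2.2 - (starRingEnd ℂ (a 0) * p.1 + starRingEnd ℂ (a 1) * p.2.1)) /
          starRingEnd ℂ (a 2))) := by
  have hc := ff_cont hα
  have hη' : 0 < √η := sqrt_pos.2 hη
  set c0 := starRingEnd ℂ (a 0) with hc0
  set c1 := starRingEnd ℂ (a 1) with hc1
  set c2 := starRingEnd ℂ (a 2) with hc2
  have hc2' : c2 ≠ 0 := by simpa [hc2] using h2
  have hn : ‖c2‖ = ‖a 2‖ := by rw [hc2, RCLike.norm_conj]
  rw [Ieta_three, ofReal_integral_eq_lintegral_ofReal (Ieta_three_int hα a hη)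
    (Eventually.of_forall fun p => by
      have e1 := ff_pos (α := α) p.1
      have e2 := ff_pos (α := α) p.2.1
      have e3 := ff_pos (α := α) p.2.2
      positivity)]
  have hm1 : Measurable (fun p : ℂ × ℂ × ℂ => ENNReal.ofReal (ff α p.2.1 * ff α p.2.2 * ff α p.1 *
      ((π * η)⁻¹ * exp (-(‖c0 * p.1 + (c1 * p.2.1 + c2 * p.2.2)‖ ^ 2 / η))))) := by
    refine (Continuous.measurable ?_).ennreal_ofReal
    exact (((hc.comp (by fun_prop)).mul (hc.comp (by fun_prop))).mul (hc.comp (by fun_prop))).mul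
      (by fun_prop)
  have hm2 : Measurable (fun p : ℂ × ℂ × ℂ => ENNReal.ofReal (ff α p.1 * ff α p.2.1 *
      (π⁻¹ * exp (-1 * ‖p.2.2‖ ^ 2)) * ff α (((√η : ℝ) * p.2.2 - (c0 * p.1 + c1 * p.2.1)) / c2)))
      := by
    refine (Continuous.measurable ?_).ennreal_ofReal
    refine (((hc.comp (by fun_prop)).mul (hc.comp (by fun_prop))).mul (by fun_prop)).mul
      (hc.comp ?_)
    exact Continuous.div_const (by fun_prop) _
  rw [lint3 hm1, lint3 hm2, ← lintegral_const_mul' _ _ ENNReal.ofReal_ne_top]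
  refine lintegral_congr fun z => ?_
  rw [← lintegral_const_mul' _ _ ENNReal.ofReal_ne_top]
  refine lintegral_congr fun v => ?_
  simp only
  -- the substitution `w = (√η u - A) / c2`
  set A : ℂ := c0 * z + c1 * v with hA
  have h3 := lintegral_sub_right_eq_self (μ := (volume : Measure ℂ)) (fun w : ℂ =>
    ENNReal.ofReal (ff α v * ff α w * ff α z *
      ((π * η)⁻¹ * exp (-(‖c0 * z + (c1 * v + c2 * w)‖ ^ 2 / η))))) (A / c2)
  have h4 := lint_mul (c := (√η : ℝ) / c2) (by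
    refine div_ne_zero ?_ hc2'
    exact_mod_cast hη'.ne') (fun w : ℂ =>
    ENNReal.ofReal (ff α v * ff α (w - A / c2) * ff α z *
      ((π * η)⁻¹ * exp (-(‖c0 * z + (c1 * v + c2 * (w - A / c2))‖ ^ 2 / η)))))
  rw [h3] at h4
  have hnc : ‖((√η : ℝ) / c2 : ℂ)‖ ^ 2 = η / ‖a 2‖ ^ 2 := by
    rw [norm_div, hn, Complex.norm_real, norm_of_nonneg hη'.le, div_pow, sq_sqrt hη.le]
  rw [hnc] at h4
  have hn2 : 0 < ‖a 2‖ := norm_pos_iff.2 h2
  have h5 : ENNReal.ofReal (η / ‖a 2‖ ^ 2) * ENNReal.ofReal (1 / (η / ‖a 2‖ ^ 2)) = 1 := by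
    rw [← ENNReal.ofReal_mul (by positivity)]
    have : η / ‖a 2‖ ^ 2 * (1 / (η / ‖a 2‖ ^ 2)) = 1 := by field_simp
    rw [this, ENNReal.ofReal_one]
  have h6 : ∫⁻ w : ℂ, ENNReal.ofReal (ff α v * ff α w * ff α z *
      ((π * η)⁻¹ * exp (-(‖c0 * z + (c1 * v + c2 * w)‖ ^ 2 / η)))) =
      ENNReal.ofReal (η / ‖a 2‖ ^ 2) * ∫⁻ w : ℂ,
        ENNReal.ofReal (ff α v * ff α ((√η : ℝ) / c2 * w - A / c2) * ff α z *
      ((π * η)⁻¹ * exp (-(‖c0 * z + (c1 * v + c2 * ((√η : ℝ) / c2 * w - A / c2))‖ ^ 2 / η)))) := by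
    rw [h4, ← mul_assoc, h5, one_mul]
  rw [h6, ← lintegral_const_mul' _ _ ENNReal.ofReal_ne_top,
    ← lintegral_const_mul' _ _ ENNReal.ofReal_ne_top]
  refine lintegral_congr fun u => ?_
  rw [← ENNReal.ofReal_mul (by positivity), ← ENNReal.ofReal_mul (by positivity)]
  congr 1
  have e1 : c0 * z + (c1 * v + c2 * ((√η : ℝ) / c2 * u - A / c2)) = (√η : ℝ) * u := by
    rw [hA]
    field_simp
    ring
  have e2 : ((√η : ℝ) / c2 * u - A / c2 : ℂ) = ((√η : ℝ) * u - A) / c2 := by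
    field_simp
  rw [e1, e2, norm_mul, Complex.norm_real, norm_of_nonneg hη'.le, mul_pow, sq_sqrt hη.le]
  have e3 : -(η * ‖u‖ ^ 2 / η) = -1 * ‖u‖ ^ 2 := by field_simp
  rw [e3]
  field_simp

theorem gauss_lint : ∫⁻ u : ℂ, ENNReal.ofReal (π⁻¹ * exp (-1 * ‖u‖ ^ 2)) = 1 := by
  rw [← ofReal_integral_eq_lintegral_ofReal ((int_gauss ℂ one_pos).const_mul _)
    (Eventually.of_forall fun w => by positivity), integral_const_mul,
    GaussianFourier.integral_rexp_neg_mul_sq_norm one_pos, Complex.finrank_real_complex]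
  simp [pi_ne_zero]

/-- The section orthogonal to `a` in dimension three. -/
theorem sec_three (hα : 1 < α) (a : EuclideanSpace ℂ (Fin 3)) (ha : ‖a‖ = 1) (h2 : a 2 ≠ 0) :
    sec α a = ENNReal.ofReal (1 / ‖a 2‖ ^ 2) * ∫⁻ z : ℂ, ∫⁻ v : ℂ,
      ENNReal.ofReal (ff α z * ff α v *
        ff α ((starRingEnd ℂ (a 0) * z + starRingEnd ℂ (a 1) * v) / starRingEnd ℂ (a 2))) := by
  have hc := ff_cont hα
  set c0 := starRingEnd ℂ (a 0) with hc0
  set c1 := starRingEnd ℂ (a 1) with hc1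
  set c2 := starRingEnd ℂ (a 2) with hc2
  have hlim := geo3_tendsto hα a ha
  have h3 : Tendsto (fun η : ℝ => ∫⁻ p : ℂ × ℂ × ℂ, ENNReal.ofReal (ff α p.1 * ff α p.2.1 *
      (π⁻¹ * exp (-1 * ‖p.2.2‖ ^ 2)) * ff α (((√η : ℝ) * p.2.2 - (c0 * p.1 + c1 * p.2.1)) / c2)))
      (𝓝[>] 0) (𝓝 (∫⁻ p : ℂ × ℂ × ℂ, ENNReal.ofReal (ff α p.1 * ff α p.2.1 *
      (π⁻¹ * exp (-1 * ‖p.2.2‖ ^ 2)) * ff α ((((0 : ℝ) : ℂ) * p.2.2 - (c0 * p.1 + c1 * p.2.1)) /
        c2)))) := by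
    refine tendsto_lintegral_filter_of_dominated_convergence
      (fun p : ℂ × ℂ × ℂ => ENNReal.ofReal (ff α p.1 * (ff α p.2.1 *
        (π⁻¹ * exp (-1 * ‖p.2.2‖ ^ 2))))) ?_ ?_ ?_ ?_
    · refine Eventually.of_forall fun η => (Continuous.measurable ?_).ennreal_ofReal
      refine (((hc.comp (by fun_prop)).mul (hc.comp (by fun_prop))).mul (by fun_prop)).mul
        (hc.comp ?_)
      exact Continuous.div_const (by fun_prop) _
    · refine Eventually.of_forall fun η => Eventually.of_forall fun p => ?_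
      refine ENNReal.ofReal_le_ofReal ?_
      have e1 := ff_pos (α := α) p.1
      have e2 := ff_pos (α := α) p.2.1
      have e3 := ff_le_one (α := α) (((√η : ℝ) * p.2.2 - (c0 * p.1 + c1 * p.2.1)) / c2)
      calc _ ≤ ff α p.1 * ff α p.2.1 * (π⁻¹ * exp (-1 * ‖p.2.2‖ ^ 2)) * 1 := by gcongr
        _ = _ := by ring
    · have h4 := ((ff_int hα).mul_prod ((ff_int hα).mul_prod
        ((int_gauss ℂ one_pos).const_mul π⁻¹)))
      exact h4.lintegral_lt_top.ne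
    · refine Eventually.of_forall fun p => ?_
      refine (ENNReal.continuous_ofReal.tendsto _).comp ?_
      refine Tendsto.mul tendsto_const_nhds ?_
      refine (hc.tendsto _).comp ?_
      refine Tendsto.div_const ?_ _
      refine Tendsto.sub ?_ tendsto_const_nhds
      refine Tendsto.mul ?_ tendsto_const_nhds
      refine (Complex.continuous_ofReal.tendsto _).comp ?_
      have h5 : Tendsto (fun η : ℝ => √η) (𝓝 0) (𝓝 (√0)) := continuous_sqrt.tendsto 0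
      rw [sqrt_zero] at h5
      exact h5.mono_left nhdsWithin_le_nhds
  have h4 := ENNReal.Tendsto.const_mul (a := ENNReal.ofReal (1 / ‖a 2‖ ^ 2)) h3
    (Or.inr ENNReal.ofReal_ne_top)
  have h5 : Tendsto (fun η => ENNReal.ofReal (Ieta α η a)) (𝓝[>] 0)
      (𝓝 (ENNReal.ofReal (1 / ‖a 2‖ ^ 2) * ∫⁻ p : ℂ × ℂ × ℂ, ENNReal.ofReal (ff α p.1 *
        ff α p.2.1 * (π⁻¹ * exp (-1 * ‖p.2.2‖ ^ 2)) * ff α ((((0 : ℝ) : ℂ) * p.2.2 -
          (c0 * p.1 + c1 * p.2.1)) / c2)))) := by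
    refine h4.congr' ?_
    filter_upwards [self_mem_nhdsWithin] with η hη
    exact (Ieta_three_sub hα a h2 hη).symm
  rw [tendsto_nhds_unique hlim h5]
  congr 1
  have hm : Measurable (fun p : ℂ × ℂ × ℂ => ENNReal.ofReal (ff α p.1 *
        ff α p.2.1 * (π⁻¹ * exp (-1 * ‖p.2.2‖ ^ 2)) * ff α ((((0 : ℝ) : ℂ) * p.2.2 -
          (c0 * p.1 + c1 * p.2.1)) / c2))) := by
    refine (Continuous.measurable ?_).ennreal_ofReal
    refine (((hc.comp (by fun_prop)).mul (hc.comp (by fun_prop))).mul (by fun_prop)).mul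
      (hc.comp ?_)
    exact Continuous.div_const (by fun_prop) _
  rw [lint3 hm]
  refine lintegral_congr fun z => lintegral_congr fun v => ?_
  have e : ∀ u : ℂ, ENNReal.ofReal (ff α z * ff α v * (π⁻¹ * exp (-1 * ‖u‖ ^ 2)) *
      ff α ((((0 : ℝ) : ℂ) * u - (c0 * z + c1 * v)) / c2)) =
      ENNReal.ofReal (ff α z * ff α v * ff α ((c0 * z + c1 * v) / c2)) *
        ENNReal.ofReal (π⁻¹ * exp (-1 * ‖u‖ ^ 2)) := by
    intro u
    have e1 := ff_pos (α := α) z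
    have e2 := ff_pos (α := α) v
    have e3 := ff_pos (α := α) ((c0 * z + c1 * v) / c2)
    rw [← ENNReal.ofReal_mul (by positivity)]
    congr 1
    have e4 : ((((0 : ℝ) : ℂ) * u - (c0 * z + c1 * v)) / c2) = -((c0 * z + c1 * v) / c2) := by
      rw [Complex.ofReal_zero, zero_mul, zero_sub, neg_div]
    rw [e4, ff_neg]
    ring
  simp only [e]
  rw [lintegral_const_mul' _ _ ENNReal.ofReal_ne_top, gauss_lint, mul_one]

end LpSec.Avg
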