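import Mathlib
import Pool.Agent.Lib.MP_1dbab3_gt.WAvg.C1

/-!
# Averaging lemma, part C2: the radial integral
-/

open Real MeasureTheory Set Filter Topology

namespace LpSec.Avg

variable {α : ℝ}

/-- `N c d ζ = 1 + ‖ζ‖^(2α) + ‖c + d ζ‖^(2α)` -/
noncomputable def NN (α : ℝ) (c d ζ : ℂ) : ℝ := 1 + ‖ζ‖ ^ (2 * α) + ‖c + d * ζ‖ ^ (2 * α)

theorem NN_pos (c d ζ : ℂ) : 0 < NN α c d ζ := by
  unfold NN
  positivity

theorem radial_lint (hα : 1 < α) {b : ℝ} (hb : 0 < b) :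
    ∫⁻ z : ℂ, ENNReal.ofReal (‖z‖ ^ 2 * exp (-b * ‖z‖ ^ (2 * α))) =
      ENNReal.ofReal (π / α * Gamma (2 / α) * b ^ (-(2 / α))) := by
  have h1 := Complex.integral_rpow_mul_exp_neg_mul_rpow (p := 2 * α) (q := 2) (b := b)
    (by linarith) (by norm_num) hb
  have hG : 0 < Gamma (2 / α) := Gamma_pos_of_pos (by positivity)
  have hval : (2 * π / (2 * α)) * b ^ (-((2 : ℝ) + 2) / (2 * α)) * Gamma (((2 : ℝ) + 2) / (2 * α)) =
      π / α * Gamma (2 / α) * b ^ (-(2 / α)) := by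
    have e1 : ((2 : ℝ) + 2) / (2 * α) = 2 / α := by
      field_simp
      norm_num
    have e2 : -((2 : ℝ) + 2) / (2 * α) = -(2 / α) := by
      rw [neg_div, e1]
    have e3 : 2 * π / (2 * α) = π / α := by field_simp
    rw [e1, e2, e3]
    ring
  rw [hval] at h1
  simp only [rpow_two] at h1
  have hpos : 0 < π / α * Gamma (2 / α) * b ^ (-(2 / α)) := by positivity
  have hint : Integrable (fun z : ℂ => ‖z‖ ^ 2 * exp (-b * ‖z‖ ^ (2 * α))) := by
    by_contra h
    rw [integral_undef h] at h1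
    exact hpos.ne h1
  rw [← ofReal_integral_eq_lintegral_ofReal hint (Eventually.of_forall fun w => by positivity), h1]

theorem homog (hα : 1 < α) (c d : ℂ) :
    ∫⁻ z : ℂ, ∫⁻ v : ℂ, ENNReal.ofReal (ff α z * ff α v * ff α (c * z + d * v)) =
      ∫⁻ ζ : ℂ, ENNReal.ofReal (π / α * Gamma (2 / α) * NN α c d ζ ^ (-(2 / α))) := by
  have hc := ff_cont hα
  have h1 : ∀ z : ℂ, z ≠ 0 →
      ∫⁻ v : ℂ, ENNReal.ofReal (ff α z * ff α v * ff α (c * z + d * v)) =
      ∫⁻ ζ : ℂ, ENNReal.ofReal (‖z‖ ^ 2 * exp (-NN α c d ζ * ‖z‖ ^ (2 * α))) := by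
    intro z hz
    have hz' : 0 < ‖z‖ := norm_pos_iff.2 hz
    have h2 := lint_mul hz (fun v : ℂ => ENNReal.ofReal (ff α z * ff α v * ff α (c * z + d * v)))
    have h3 : ENNReal.ofReal (‖z‖ ^ 2) * ENNReal.ofReal (1 / ‖z‖ ^ 2) = 1 := by
      rw [← ENNReal.ofReal_mul (by positivity)]
      have : ‖z‖ ^ 2 * (1 / ‖z‖ ^ 2) = 1 := by field_simp
      rw [this, ENNReal.ofReal_one]
    have h4 : ∫⁻ v : ℂ, ENNReal.ofReal (ff α z * ff α v * ff α (c * z + d * v)) =
        ENNReal.ofReal (‖z‖ ^ 2) *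
        ∫⁻ ζ : ℂ, ENNReal.ofReal (ff α z * ff α (z * ζ) * ff α (c * z + d * (z * ζ))) := by
      rw [h2, ← mul_assoc, h3, one_mul]
    rw [h4, ← lintegral_const_mul' _ _ ENNReal.ofReal_ne_top]
    refine lintegral_congr fun ζ => ?_
    rw [← ENNReal.ofReal_mul (by positivity)]
    congr 2
    unfold ff
    rw [← exp_add, ← exp_add]
    congr 1
    have e1 : c * z + d * (z * ζ) = z * (c + d * ζ) := by ring
    rw [e1, norm_mul, norm_mul, mul_rpow (by positivity) (by positivity),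
      mul_rpow (by positivity) (by positivity)]
    unfold NN
    ring
  have h2 : ∫⁻ z : ℂ, ∫⁻ v : ℂ, ENNReal.ofReal (ff α z * ff α v * ff α (c * z + d * v)) =
      ∫⁻ z : ℂ, ∫⁻ ζ : ℂ, ENNReal.ofReal (‖z‖ ^ 2 * exp (-NN α c d ζ * ‖z‖ ^ (2 * α))) := by
    refine lintegral_congr_ae ?_
    have h3 : ∀ᵐ z : ℂ, z ≠ 0 := by
      rw [ae_iff]
      simp
    filter_upwards [h3] with z hz
    exact h1 z hz
  rw [h2, lintegral_lintegral_swap]
  · refine lintegral_congr fun ζ => ?_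
    exact radial_lint hα (NN_pos c d ζ)
  · refine Measurable.aemeasurable (Measurable.ennreal_ofReal ?_)
    have c1 : Continuous (fun p : ℂ × ℂ => NN α c d p.2) := by
      unfold NN
      refine Continuous.add (Continuous.add continuous_const ?_) ?_
      · exact Continuous.rpow_const (by fun_prop) fun _ => Or.inr (by linarith)
      · exact Continuous.rpow_const (by fun_prop) fun _ => Or.inr (by linarith)
    have c2 : Continuous (fun p : ℂ × ℂ => ‖p.1‖ ^ (2 * α)) :=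
      Continuous.rpow_const (by fun_prop) fun _ => Or.inr (by linarith)
    have c3 : Continuous (fun p : ℂ × ℂ => ‖p.1‖ ^ 2 * exp (-NN α c d p.2 * ‖p.1‖ ^ (2 * α))) :=
      (by fun_prop : Continuous fun p : ℂ × ℂ => ‖p.1‖ ^ 2).mul
        (continuous_exp.comp (c1.neg.mul c2))
    exact c3.measurable

end LpSec.Avg
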