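import Mathlib
import Pool.Agent.Lib.MP_1dbab3_gt.WAvg.C2
import Pool.Agent.Lib.MP_1dbab3_gt.WAvg.B1

/-!
# Averaging lemma, part C3: polar coordinates and the box
-/

open Real MeasureTheory Set Filter Topology

namespace LpSec.Avg

variable {α : ℝ}

theorem lint_Ioo {g : ℝ → ℝ} (hg : Continuous g) {a b : ℝ} (hab : a ≤ b)
    (h0 : ∀ x ∈ Ioo a b, 0 ≤ g x) :
    ∫⁻ x in Ioo a b, ENNReal.ofReal (g x) = ENNReal.ofReal (∫ x in a..b, g x) := by
  rw [intervalIntegral.integral_of_le hab, ← restrict_Ioo_eq_restrict_Ioc]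
  refine (ofReal_integral_eq_lintegral_ofReal ?_ ?_).symm
  · exact (hg.integrableOn_Icc (a := a) (b := b)).mono_set Ioo_subset_Icc_self
  · exact (ae_restrict_mem measurableSet_Ioo).mono fun x hx => h0 x hx

/-- the tangent substitution -/
theorem tan_sub (G : ℝ → ENNReal) :
    ∫⁻ r in Ioi (0 : ℝ), G r =
      ∫⁻ θ in Ioo (0 : ℝ) π, ENNReal.ofReal (1 / (2 * cos (θ / 2) ^ 2)) * G (tan (θ / 2)) := by
  have hd : ∀ θ ∈ Ioo (0 : ℝ) π, HasDerivWithinAt (fun θ : ℝ => tan (θ / 2))
      (1 / (2 * cos (θ / 2) ^ 2)) (Ioo 0 π) θ := by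
    intro θ hθ
    have hc : 0 < cos (θ / 2) := cos_pos_of_mem_Ioo ⟨by linarith [hθ.1, pi_pos], by linarith [hθ.2]⟩
    have h1 := (Real.hasDerivAt_tan hc.ne').comp θ ((hasDerivAt_id θ).div_const 2)
    refine (h1.congr_deriv ?_).hasDerivWithinAt
    field_simp
  have hinj : InjOn (fun θ : ℝ => tan (θ / 2)) (Ioo 0 π) := by
    intro x hx y hy hxy
    have h := Real.injOn_tan (x₁ := x / 2) (x₂ := y / 2) ⟨by linarith [hx.1, pi_pos], by linarith [hx.2]⟩
      ⟨by linarith [hy.1, pi_pos], by linarith [hy.2]⟩ hxy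
    linarith
  have him : (fun θ : ℝ => tan (θ / 2)) '' Ioo 0 π = Ioi 0 := by
    ext r
    constructor
    · rintro ⟨θ, hθ, rfl⟩
      exact tan_pos_of_pos_of_lt_pi_div_two (by linarith [hθ.1]) (by linarith [hθ.2])
    · intro hr
      refine ⟨2 * arctan r, ⟨?_, ?_⟩, ?_⟩
      · have := arctan_pos.2 (mem_Ioi.1 hr)
        linarith
      · have := arctan_lt_pi_div_two r
        linarith
      · simp only
        rw [mul_div_cancel_left₀ _ (by norm_num : (2 : ℝ) ≠ 0), tan_arctan]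
  have h := lintegral_image_eq_lintegral_abs_deriv_mul (s := Ioo (0 : ℝ) π) measurableSet_Ioo hd hinj G
  rw [him] at h
  rw [h]
  refine setLIntegral_congr_fun measurableSet_Ioo fun θ hθ => ?_
  rw [abs_of_nonneg (by positivity)]

/-- the value of `NN` at `tan (θ/2) e^{iφ}` -/
theorem NN_box {c d η b : ℝ} (hb : 0 ≤ b) (h1 : 2 * b * cos η = c ^ 2 - d ^ 2)
    (h2 : b * sin η = c * d) (h3 : c ^ 2 + d ^ 2 = 2 * b) {θ : ℝ} (hθ : θ ∈ Ioo (0 : ℝ) π) (φ : ℝ) :
    NN α c d ((tan (θ / 2) : ℝ) * (cos φ + sin φ * Complex.I)) =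
      (cos (θ / 2) ^ 2) ^ (-α) * EE α (b ^ α) η θ φ := by
  have hc : 0 < cos (θ / 2) := cos_pos_of_mem_Ioo ⟨by linarith [hθ.1, pi_pos], by linarith [hθ.2]⟩
  have hs : 0 < sin (θ / 2) := sin_pos_of_pos_of_lt_pi (by linarith [hθ.1]) (by linarith [hθ.2, pi_pos])
  set C := cos (θ / 2) with hC
  set S := sin (θ / 2) with hS
  have hcs : C ^ 2 + S ^ 2 = 1 := by rw [hC, hS]; exact cos_sq_add_sin_sq _
  have hct : cos θ = 2 * C ^ 2 - 1 := by
    rw [hC, ← cos_two_mul]
    congr 1
    ring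
  have hst : sin θ = 2 * S * C := by
    rw [hC, hS, ← sin_two_mul]
    congr 1
    ring
  have ht : tan (θ / 2) = S / C := tan_eq_sin_div_cos _
  have hC2 : (C ^ 2) ^ (-α) * (C ^ 2) ^ α = 1 := by
    rw [← rpow_add (by positivity)]
    simp
  -- the three norms
  have hphi := cos_sq_add_sin_sq φ
  have n1 : ‖(((tan (θ / 2) : ℝ) : ℂ) * (cos φ + sin φ * Complex.I))‖ ^ (2 * α) =
      (C ^ 2) ^ (-α) * ((1 - cos θ) / 2) ^ α := by
    have e1 : ‖(((tan (θ / 2) : ℝ) : ℂ) * (cos φ + sin φ * Complex.I))‖ ^ 2 = S ^ 2 / C ^ 2 := by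
      rw [← Complex.normSq_eq_norm_sq, Complex.normSq_apply]
      simp only [Complex.mul_re, Complex.mul_im, Complex.ofReal_re, Complex.ofReal_im,
        Complex.add_re, Complex.add_im, Complex.I_re, Complex.I_im]
      rw [ht]
      field_simp
      ring_nf
      nlinarith [hphi]
    rw [rpow_mul (norm_nonneg _), rpow_two, e1]
    have e2 : (1 - cos θ) / 2 = S ^ 2 := by
      rw [hct]
      linarith
    rw [e2, div_rpow (by positivity) (by positivity), rpow_neg (by positivity)]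
    field_simp
  have n2 : ‖((c : ℂ) + (d : ℂ) * (((tan (θ / 2) : ℝ) : ℂ) * (cos φ + sin φ * Complex.I)))‖ ^ (2 * α) =
      (C ^ 2) ^ (-α) * (b ^ α * vv η θ φ ^ α) := by
    have e1 : ‖((c : ℂ) + (d : ℂ) * (((tan (θ / 2) : ℝ) : ℂ) * (cos φ + sin φ * Complex.I)))‖ ^ 2 =
        b * vv η θ φ / C ^ 2 := by
      rw [← Complex.normSq_eq_norm_sq, Complex.normSq_apply]
      simp only [Complex.mul_re, Complex.mul_im, Complex.ofReal_re, Complex.ofReal_im,
        Complex.add_re, Complex.add_im, Complex.I_re, Complex.I_im]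
      rw [ht, eq_div_iff (by positivity)]
      unfold vv
      rw [hct, hst]
      field_simp
      linear_combination (d ^ 2 * S ^ 2) * hphi - ((2 * C ^ 2 - 1) / 2) * h1 -
        (2 * S * C * cos φ) * h2 + d ^ 2 * hcs + (1 / 2) * h3
    rw [rpow_mul (norm_nonneg _), rpow_two, e1]
    rw [div_rpow (mul_nonneg hb (vv_nonneg _ _ _)) (by positivity), rpow_neg (by positivity),
      mul_rpow hb (vv_nonneg _ _ _)]
    field_simp
  unfold NN
  rw [n1, n2]
  unfold EE Yf
  have e3 : (1 + cos θ) / 2 = C ^ 2 := by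
    rw [hct]
    ring
  rw [e3]
  rw [mul_add, mul_add, hC2]

theorem vv_neg_phi (η θ φ : ℝ) : vv η θ (-φ) = vv η θ φ := by
  unfold vv
  rw [cos_neg]

theorem HH_neg_phi (α B η θ φ : ℝ) : HH α B η θ (-φ) = HH α B η θ φ := by
  unfold HH EE
  rw [vv_neg_phi]

/-- the integral over the plane in terms of `II` -/
theorem plane_eq (hα : 1 < α) {c d η b K : ℝ} (hb : 0 ≤ b) (hK : 0 ≤ K)
    (h1 : 2 * b * cos η = c ^ 2 - d ^ 2)
    (h2 : b * sin η = c * d) (h3 : c ^ 2 + d ^ 2 = 2 * b) :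
    ∫⁻ ζ : ℂ, ENNReal.ofReal (K * NN α c d ζ ^ (-(2 / α))) =
      ENNReal.ofReal (K / 2 * II α (b ^ α) η) := by
  have hα0 : 0 < α := by linarith
  have hB : 0 ≤ b ^ α := rpow_nonneg hb _
  rw [← Complex.lintegral_comp_polarCoord_symm, polarCoord_target]
  have hNc : Continuous (fun p : ℝ × ℝ => NN α c d (Complex.polarCoord.symm p) ^ (-(2 / α))) := by
    have c1 : Continuous (fun p : ℝ × ℝ => NN α c d (Complex.polarCoord.symm p)) := by
      simp only [Complex.polarCoord_symm_apply]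
      unfold NN
      refine Continuous.add (Continuous.add continuous_const ?_) ?_
      · exact Continuous.rpow_const (by fun_prop) fun _ => Or.inr (by linarith)
      · exact Continuous.rpow_const (by fun_prop) fun _ => Or.inr (by linarith)
    exact c1.rpow_const fun p => Or.inl (NN_pos _ _ _).ne'
  have hm : Measurable (fun p : ℝ × ℝ => ENNReal.ofReal p.1 •
      ENNReal.ofReal (K * NN α c d (Complex.polarCoord.symm p) ^ (-(2 / α)))) :=
    (measurable_fst.ennreal_ofReal).smul (continuous_const.mul hNc).measurable.ennreal_ofReal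
  rw [Measure.volume_eq_prod, ← Measure.prod_restrict, lintegral_prod _ hm.aemeasurable, tan_sub]
  have hinner : ∀ θ ∈ Ioo (0 : ℝ) π, ENNReal.ofReal (1 / (2 * cos (θ / 2) ^ 2)) *
      ∫⁻ φ in Ioo (-π) π, ENNReal.ofReal (tan (θ / 2)) • ENNReal.ofReal (K * NN α c d
        (Complex.polarCoord.symm (tan (θ / 2), φ)) ^ (-(2 / α))) =
      ENNReal.ofReal (K / 2 * (sin θ * ∫ φ in (0 : ℝ)..π, HH α (b ^ α) η θ φ)) := by
    intro θ hθ
    have hc : 0 < cos (θ / 2) :=
      cos_pos_of_mem_Ioo ⟨by linarith [hθ.1, pi_pos], by linarith [hθ.2]⟩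
    have hs : 0 < sin (θ / 2) :=
      sin_pos_of_pos_of_lt_pi (by linarith [hθ.1]) (by linarith [hθ.2, pi_pos])
    have hsth : 0 < sin θ := sin_pos_of_pos_of_lt_pi hθ.1 hθ.2
    have ht : 0 < tan (θ / 2) := by
      rw [tan_eq_sin_div_cos]
      positivity
    rw [← lintegral_const_mul' _ _ ENNReal.ofReal_ne_top]
    have e : ∀ φ : ℝ, ENNReal.ofReal (1 / (2 * cos (θ / 2) ^ 2)) *
        ENNReal.ofReal (tan (θ / 2)) • ENNReal.ofReal (K * NN α c d
        (Complex.polarCoord.symm (tan (θ / 2), φ)) ^ (-(2 / α))) =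
        ENNReal.ofReal (K / 4 * sin θ * HH α (b ^ α) η θ φ) := by
      intro φ
      rw [smul_eq_mul, ← ENNReal.ofReal_mul ht.le, ← ENNReal.ofReal_mul (by positivity)]
      congr 1
      rw [Complex.polarCoord_symm_apply]
      simp only
      rw [NN_box hb h1 h2 h3 hθ φ, mul_rpow (by positivity) (EE_pos hB _ _ _).le,
        ← rpow_mul (by positivity)]
      have e1 : -α * -(2 / α) = 2 := by field_simp
      rw [e1, rpow_two]
      unfold HH
      have hst : sin θ = 2 * sin (θ / 2) * cos (θ / 2) := by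
        rw [← sin_two_mul]
        congr 1
        ring
      rw [hst, tan_eq_sin_div_cos]
      field_simp
      ring
    simp only [e]
    have hHc : Continuous fun φ => HH α (b ^ α) η θ φ :=
      cont_HH hα hB continuous_const continuous_const continuous_id
    have hH0 : ∀ φ, 0 ≤ HH α (b ^ α) η θ φ := fun φ => rpow_nonneg (EE_pos hB _ _ _).le _
    rw [lint_Ioo (g := fun φ => K / 4 * sin θ * HH α (b ^ α) η θ φ)
      (continuous_const.mul hHc) (by linarith [pi_pos]) (fun φ _ => by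
      have := hH0 φ
      positivity)]
    congr 1
    rw [intervalIntegral.integral_const_mul]
    have hsplit : ∫ φ in (-π)..π, HH α (b ^ α) η θ φ =
        2 * ∫ φ in (0 : ℝ)..π, HH α (b ^ α) η θ φ := by
      rw [← intervalIntegral.integral_add_adjacent_intervals (b := 0)
        (hHc.intervalIntegrable _ _) (hHc.intervalIntegrable _ _)]
      have h5 := intervalIntegral.integral_comp_neg (a := 0) (b := π)
        (fun φ => HH α (b ^ α) η θ φ)
      simp only [HH_neg_phi, neg_zero] at h5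
      rw [← h5]
      ring
    rw [hsplit]
    ring
  rw [setLIntegral_congr_fun measurableSet_Ioo hinner]
  have hcI : Continuous fun θ => K / 2 * (sin θ * ∫ φ in (0 : ℝ)..π, HH α (b ^ α) η θ φ) := by
    refine continuous_const.mul (continuous_sin.mul ?_)
    exact intervalIntegral.continuous_parametric_intervalIntegral_of_continuous'
      (f := fun (θ : ℝ) φ => HH α (b ^ α) η θ φ)
      (cont_HH hα hB continuous_const continuous_fst continuous_snd) 0 π
  rw [lint_Ioo hcI pi_pos.le (fun θ hθ => by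
    have hsth : 0 < sin θ := sin_pos_of_pos_of_lt_pi hθ.1 hθ.2
    have h6 : 0 ≤ ∫ φ in (0 : ℝ)..π, HH α (b ^ α) η θ φ :=
      intervalIntegral.integral_nonneg pi_pos.le fun φ _ => rpow_nonneg (EE_pos hB _ _ _).le _
    positivity)]
  congr 1
  rw [intervalIntegral.integral_const_mul]
  rfl

end LpSec.Avg
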