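import Mathlib
import Pool.Agent.Lib.MP_1dbab3_gt.WAvg.C3
import Pool.Agent.Lib.MP_1dbab3_gt.WAvg.B2

/-!
# Averaging lemma, part C4: the representation of `J` in dimension three and the averaging lemma
-/

open Real MeasureTheory Set Filter Topology

namespace LpSec.Avg

variable {α : ℝ}

/-- the constant of the representation -/
noncomputable def kap (α : ℝ) : ℝ := π / α * Gamma (2 / α) / 2 / (cst α 2 * DD α)

theorem kap_pos (hα : 1 < α) : 0 < kap α := by
  have h1 := cst_pos hα 2
  have h2 := DD_pos (α := α) (by linarith)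
  have h3 : 0 < Gamma (2 / α) := Gamma_pos_of_pos (by positivity)
  unfold kap
  positivity

theorem II_nonneg {B : ℝ} (hB : 0 ≤ B) (η : ℝ) : 0 ≤ II α B η := by
  unfold II
  refine intervalIntegral.integral_nonneg pi_pos.le fun θ hθ => ?_
  refine mul_nonneg (sin_nonneg_of_nonneg_of_le_pi hθ.1 hθ.2) ?_
  exact intervalIntegral.integral_nonneg pi_pos.le fun φ _ => rpow_nonneg (EE_pos hB _ _ _).le _

/-- The representation of `J` in dimension three. -/
theorem J_eq_II (hα : 1 < α) {x y z : ℝ} (hx : 0 ≤ x) (hy : 0 ≤ y) (hz : 0 < z)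
    (hs : x + y + z = 1) (hx1 : x < 1) (hy1 : y < 1) (hz1 : z < 1) :
    J α ![x, y, z] = kap α / z *
      II α (((x + y) / (2 * z)) ^ α) (arccos ((x - y) / (x + y))) := by
  have hX : 0 < x + y := by linarith
  set a : EuclideanSpace ℂ (Fin 3) := WithLp.toLp 2 (fun i => ((√(![x, y, z] i) : ℝ) : ℂ)) with haD
  have hv : ∀ i, 0 ≤ (![x, y, z] : Fin 3 → ℝ) i := by
    intro i
    fin_cases i
    · exact hx
    · exact hy
    · exact hz.le
  have hv1 : ∀ i, (![x, y, z] : Fin 3 → ℝ) i < 1 := by
    intro i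
    fin_cases i
    · exact hx1
    · exact hy1
    · exact hz1
  have hai' : ∀ i, a i = ((√(![x, y, z] i) : ℝ) : ℂ) := fun i => rfl
  have hai : ∀ i, ‖a i‖ ^ 2 = ![x, y, z] i := fun i => by
    rw [hai', Complex.norm_real, Real.norm_of_nonneg (Real.sqrt_nonneg _), Real.sq_sqrt (hv i)]
  have ha : ‖a‖ = 1 := by
    rw [EuclideanSpace.norm_eq]
    simp only [hai]
    rw [Fin.sum_univ_three]
    simp only [Matrix.cons_val_zero, Matrix.cons_val_one, Matrix.cons_val]
    rw [hs, Real.sqrt_one]
  have ha0 : a 0 = ((√x : ℝ) : ℂ) := rfl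
  have ha1 : a 1 = ((√y : ℝ) : ℂ) := rfl
  have ha2 : a 2 = ((√z : ℝ) : ℂ) := rfl
  have hsz : 0 < √z := sqrt_pos.2 hz
  have h2 : a 2 ≠ 0 := by
    rw [ha2]
    exact Complex.ofReal_ne_zero.2 hsz.ne'
  have h3 := sec_eq_J (m := 2) hα a ha (fun i => by rw [hai i]; exact hv1 i)
  simp only [hai] at h3
  have h4 := sec_three hα a ha h2
  have hn2 : ‖a 2‖ ^ 2 = z := hai 2
  rw [hn2, ha0, ha1, ha2] at h4
  simp only [Complex.conj_ofReal] at h4
  -- the linear form
  set c : ℝ := √x / √z with hc
  set d : ℝ := √y / √z with hd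
  have e1 : ∀ u v : ℂ, (((√x : ℝ) : ℂ) * u + ((√y : ℝ) : ℂ) * v) / ((√z : ℝ) : ℂ) =
      (c : ℂ) * u + (d : ℂ) * v := by
    intro u v
    rw [hc, hd]
    push_cast
    ring
  simp only [e1] at h4
  rw [homog hα] at h4
  -- the parameters
  set b : ℝ := (x + y) / (2 * z) with hb
  have hb0 : 0 ≤ b := by positivity
  set η : ℝ := arccos ((x - y) / (x + y)) with hη
  have hc2 : c ^ 2 = x / z := by rw [hc, div_pow, sq_sqrt hx, sq_sqrt hz.le]
  have hd2 : d ^ 2 = y / z := by rw [hd, div_pow, sq_sqrt hy, sq_sqrt hz.le]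
  have hcos : cos η = (x - y) / (x + y) := by
    rw [hη]
    apply cos_arccos
    · rw [le_div_iff₀ hX]
      linarith
    · rw [div_le_one hX]
      linarith
  have hsin : sin η = 2 * (√x * √y) / (x + y) := by
    rw [hη, sin_arccos]
    have : 1 - ((x - y) / (x + y)) ^ 2 = (2 * (√x * √y) / (x + y)) ^ 2 := by
      rw [div_pow, div_pow, mul_pow, mul_pow, sq_sqrt hx, sq_sqrt hy]
      field_simp
      ring
    rw [this]
    exact sqrt_sq (by positivity)
  have h5 := plane_eq (c := c) (d := d) (η := η) (b := b) (K := π / α * Gamma (2 / α)) hα hb0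
    (by
      have h3 : 0 < Gamma (2 / α) := Gamma_pos_of_pos (by positivity)
      positivity)
    (by
      rw [hcos, hc2, hd2, hb]
      field_simp)
    (by
      rw [hsin, hb, hc, hd]
      have : √z * √z = z := mul_self_sqrt hz.le
      field_simp
      rw [sq_sqrt hz.le]
      ring)
    (by
      rw [hc2, hd2, hb]
      field_simp)
  rw [h5, ← ENNReal.ofReal_mul (by positivity), h3] at h4
  have hJ : 0 ≤ J α ![x, y, z] := by
    have := J_pos (m := 2) hα a ha (fun i => by rw [hai i]; exact hv1 i)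
    simpa only [hai] using this
  have hcp := cst_pos hα 2
  have hDp := DD_pos (α := α) (by linarith)
  have hII : 0 ≤ II α (b ^ α) η := II_nonneg (rpow_nonneg hb0 _) η
  have hG : 0 < Gamma (2 / α) := Gamma_pos_of_pos (by positivity)
  have h6 := (ENNReal.ofReal_eq_ofReal_iff (by positivity) (by positivity)).1 h4
  unfold kap
  rw [eq_comm, div_div, div_mul_eq_mul_div, div_eq_iff (by positivity)]
  have h7 : J α ![x, y, z] * (cst α 2 * DD α * z) = z * (cst α 2 * DD α * J α ![x, y, z]) := by
    ring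
  rw [h7]
  have h8 : J α (fun i => ![x, y, z] i) = J α ![x, y, z] := rfl
  rw [h8] at h6
  rw [h6]
  field_simp

/-- **Averaging lemma in dimension three.** -/
theorem avg3 (hα : 1 < α) (hα4 : α ≤ 4) (x y z : ℝ) (hz : 0 < z) (hzy : z ≤ y) (hyx : y ≤ x)
    (hs : x + y + z = 1) : J α ![x, y, z] ≤ J α ![(x + y) / 2, (x + y) / 2, z] := by
  have hy : 0 < y := by linarith
  have hx : 0 < x := by linarith
  rw [J_eq_II hα hx.le hy.le hz hs (by linarith) (by linarith) (by linarith),
    J_eq_II (x := (x + y) / 2) (y := (x + y) / 2) hα (by linarith) (by linarith) hz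
      (by linarith) (by linarith) (by linarith) (by linarith)]
  have e1 : (x + y) / 2 + (x + y) / 2 = x + y := by ring
  rw [e1, sub_self, zero_div, arccos_zero]
  have hk := kap_pos hα
  refine mul_le_mul_of_nonneg_left ?_ (by positivity)
  have hX : 0 < x + y := by linarith
  have hcos : cos (arccos ((x - y) / (x + y))) = (x - y) / (x + y) := by
    apply cos_arccos
    · rw [le_div_iff₀ hX]
      linarith
    · rw [div_le_one hX]
      linarith
  refine II_le hα hα4 (by positivity) (arccos_nonneg _) ?_ ?_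
  · rw [arccos_le_pi_div_two]
    exact div_nonneg (by linarith) hX.le
  · rw [hcos, ← mul_rpow (by positivity) (by
      rw [sub_nonneg, div_le_one hX]
      linarith)]
    have e2 : (x + y) / (2 * z) * (1 - (x - y) / (x + y)) = y / z := by
      field_simp
      ring
    rw [e2]
    exact one_le_rpow ((one_le_div hz).2 hzy) (by linarith)

end LpSec.Avg
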