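import Mathlib
import Pool.Agent.Lib.MP_1dbab3_gt.WAvg.C4

/-!
# The ridge for `α ≤ 10/7`, part D1: pointwise comparison with `t = 2 ^ α`
-/

open Real MeasureTheory Set Filter Topology

namespace LpSec.Avg

variable {α τ : ℝ}

theorem q_pos {v : ℝ} (hv : 0 < v) (hτ : 0 < τ) : 0 < q α τ v := by
  unfold q
  have := base_pos (α := α) hv.le hτ
  positivity

theorem rpow_le_of_pow_le {x A : ℝ} (hx : 0 ≤ x) (hA : 0 ≤ A) {m n : ℕ} (hn : n ≠ 0)
    (h : x ^ m ≤ A ^ n) : x ^ ((m : ℝ) / n) ≤ A := by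
  have hn' : (0 : ℝ) < n := by exact_mod_cast Nat.pos_of_ne_zero hn
  have e1 : x ^ ((m : ℝ) / n) = (x ^ m) ^ ((n : ℝ)⁻¹) := by
    rw [← rpow_natCast, ← rpow_mul hx, div_eq_mul_inv]
  have e2 : A = (A ^ n) ^ ((n : ℝ)⁻¹) := by
    rw [← rpow_natCast, ← rpow_mul hA, mul_inv_cancel₀ hn'.ne', rpow_one]
  rw [e1, e2]
  exact rpow_le_rpow (by positivity) h (by positivity)

/-- ratio bound, `t = 2 ^ α` -/
theorem q_ratio (hα : 1 < α) (hα2 : α ≤ 10 / 7) {x v A C : ℝ} (hx : 0 < x) (hxv : x ≤ v)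
    (hv : v ≤ 2) (hA0 : 0 ≤ A) (hC0 : 0 ≤ C) (hA : (v / x) ^ 3 ≤ A ^ 7)
    (hC : ((1 + x / 2) / (2 - 10 / 7 * (1 - v / 2))) ^ 17 ≤ C ^ 5) :
    q α (2 ^ α) v ≤ A * C * q α (2 ^ α) x := by
  have hv0 : 0 < v := hx.trans_le hxv
  have hα0 : 0 < α := by linarith
  have ht : (0 : ℝ) < 2 ^ α := by positivity
  have hxα : 0 < x ^ α := rpow_pos_of_pos hx _
  have hvα : 0 < v ^ α := rpow_pos_of_pos hv0 _
  have hD0 : 0 < 2 - 10 / 7 * (1 - v / 2) := by linarith
  -- the power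
  have a1 : (v / x) ^ (α - 1) ≤ A := by
    have h1 : 1 ≤ v / x := (one_le_div hx).2 hxv
    calc (v / x) ^ (α - 1) ≤ (v / x) ^ (((3 : ℕ) : ℝ) / (7 : ℕ)) :=
          rpow_le_rpow_of_exponent_le h1 (by push_cast; linarith)
      _ ≤ A := rpow_le_of_pow_le (by positivity) hA0 (by norm_num) hA
  -- the base
  have b1 : x ^ α = 2 ^ α * (x / 2) ^ α := by
    rw [← mul_rpow (by norm_num) (by positivity)]
    congr 1
    ring
  have b2 : v ^ α = 2 ^ α * (v / 2) ^ α := by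
    rw [← mul_rpow (by norm_num) (by positivity)]
    congr 1
    ring
  have b3 : (x / 2) ^ α ≤ x / 2 := by
    have := rpow_le_rpow_of_exponent_ge (x := x / 2) (by positivity) (by linarith) hα.le
    rwa [rpow_one] at this
  have b4 : 1 - 10 / 7 * (1 - v / 2) ≤ (v / 2) ^ α := by
    have h := one_add_mul_self_le_rpow_one_add (s := v / 2 - 1) (by linarith) hα.le
    rw [add_sub_cancel] at h
    nlinarith
  have b5 : (x ^ α + 2 ^ α) / (v ^ α + 2 ^ α) ≤ (1 + x / 2) / (2 - 10 / 7 * (1 - v / 2)) := by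
    have e : (x ^ α + 2 ^ α) / (v ^ α + 2 ^ α) = ((x / 2) ^ α + 1) / ((v / 2) ^ α + 1) := by
      rw [b1, b2]
      have : 0 < (v / 2) ^ α := rpow_pos_of_pos (by positivity) _
      field_simp
    rw [e]
    have : 0 < (v / 2) ^ α := rpow_pos_of_pos (by positivity) _
    exact div_le_div₀ (by positivity) (by linarith) hD0 (by linarith)
  have b6 : 0 < (x ^ α + 2 ^ α) / (v ^ α + 2 ^ α) := by positivity
  have b7 : (x ^ α + 2 ^ α) / (v ^ α + 2 ^ α) ≤ 1 := by
    rw [div_le_one (by positivity)]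
    have : x ^ α ≤ v ^ α := rpow_le_rpow hx.le hxv hα0.le
    linarith
  have b8 : ((x ^ α + 2 ^ α) / (v ^ α + 2 ^ α)) ^ (2 + 2 / α) ≤ C := by
    have hg : ((17 : ℕ) : ℝ) / (5 : ℕ) ≤ 2 + 2 / α := by
      have : 7 / 5 ≤ 2 / α := by
        rw [div_le_div_iff₀ (by norm_num) hα0]
        linarith
      push_cast
      linarith
    calc ((x ^ α + 2 ^ α) / (v ^ α + 2 ^ α)) ^ (2 + 2 / α)
        ≤ ((x ^ α + 2 ^ α) / (v ^ α + 2 ^ α)) ^ (((17 : ℕ) : ℝ) / (5 : ℕ)) :=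
          rpow_le_rpow_of_exponent_ge b6 b7 hg
      _ ≤ ((1 + x / 2) / (2 - 10 / 7 * (1 - v / 2))) ^ (((17 : ℕ) : ℝ) / (5 : ℕ)) :=
          rpow_le_rpow b6.le b5 (by positivity)
      _ ≤ C := rpow_le_of_pow_le (by positivity) hC0 (by norm_num) hC
  -- assembly
  have c1 : v ^ (α - 1) = (v / x) ^ (α - 1) * x ^ (α - 1) := by
    rw [← mul_rpow (by positivity) hx.le, div_mul_cancel₀ _ hx.ne']
  have c2 : (v ^ α + 2 ^ α) ^ (-(2 + 2 / α)) =
      ((x ^ α + 2 ^ α) / (v ^ α + 2 ^ α)) ^ (2 + 2 / α) * (x ^ α + 2 ^ α) ^ (-(2 + 2 / α)) := by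
    rw [div_rpow (by positivity) (by positivity), rpow_neg (by positivity),
      rpow_neg (by positivity)]
    have : 0 < (x ^ α + 2 ^ α) ^ (2 + 2 / α) := by positivity
    field_simp
  unfold q
  rw [c1, c2]
  have hx1 : 0 ≤ x ^ (α - 1) := by positivity
  have hx2 : 0 ≤ (x ^ α + 2 ^ α) ^ (-(2 + 2 / α)) := by positivity
  have hv1 : 0 ≤ (v / x) ^ (α - 1) := by positivity
  have d1 : (v / x) ^ (α - 1) * ((x ^ α + 2 ^ α) / (v ^ α + 2 ^ α)) ^ (2 + 2 / α) ≤ A * C :=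
    mul_le_mul a1 b8 (by positivity) hA0
  calc (v / x) ^ (α - 1) * x ^ (α - 1) * (((x ^ α + 2 ^ α) / (v ^ α + 2 ^ α)) ^ (2 + 2 / α) *
        (x ^ α + 2 ^ α) ^ (-(2 + 2 / α)))
      = ((v / x) ^ (α - 1) * ((x ^ α + 2 ^ α) / (v ^ α + 2 ^ α)) ^ (2 + 2 / α)) *
        (x ^ (α - 1) * (x ^ α + 2 ^ α) ^ (-(2 + 2 / α))) := by ring
    _ ≤ _ := mul_le_mul_of_nonneg_right d1 (by positivity)

/-- one cell, reflection -/
theorem cell_refl (hα : 1 < α) (hα2 : α ≤ 10 / 7) {x1 x2 A C x : ℝ} (hx1 : 0 < x1)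
    (h1 : x1 ≤ x) (h2 : x ≤ x2) (hx2 : x2 ≤ 1) (hA0 : 0 ≤ A) (hC0 : 0 ≤ C)
    (hA : ((2 - x1) / x1) ^ 3 ≤ A ^ 7)
    (hC : ((1 + x2 / 2) / (2 - 5 / 7 * x2)) ^ 17 ≤ C ^ 5) :
    q α (2 ^ α) (2 - x) ≤ A * C * q α (2 ^ α) x := by
  have hx0 : 0 < x := by linarith
  refine q_ratio hα hα2 hx0 (by linarith) (by linarith) hA0 hC0 (le_trans ?_ hA)
    (le_trans ?_ hC)
  · refine pow_le_pow_left₀ (div_nonneg (by linarith) hx0.le) ?_ 3
    exact div_le_div₀ (by linarith) (by linarith) hx1 h1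
  · have e : 2 - 10 / 7 * (1 - (2 - x) / 2) = 2 - 5 / 7 * x := by ring
    rw [e]
    refine pow_le_pow_left₀ (div_nonneg (by linarith) (by linarith)) ?_ 17
    exact div_le_div₀ (by linarith) (by linarith) (by linarith) (by linarith)

/-- one cell, comparison with `q 1.94` -/
theorem cell_far (hα : 1 < α) (hα2 : α ≤ 10 / 7) {x1 x2 A C x : ℝ} (hx1 : 0 < x1)
    (h1 : x1 ≤ x) (h2 : x ≤ x2) (hx2 : x2 ≤ 1) (hA0 : 0 ≤ A) (hC0 : 0 ≤ C)
    (hA : (97 / 50 / x1) ^ 3 ≤ A ^ 7)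
    (hC : ((1 + x2 / 2) / (2 - 3 / 70)) ^ 17 ≤ C ^ 5) :
    q α (2 ^ α) (97 / 50) ≤ A * C * q α (2 ^ α) x := by
  have hx0 : 0 < x := by linarith
  refine q_ratio hα hα2 hx0 (by linarith) (by norm_num) hA0 hC0 (le_trans ?_ hA)
    (le_trans ?_ hC)
  · refine pow_le_pow_left₀ (by positivity) ?_ 3
    exact div_le_div₀ (by linarith) (by linarith) hx1 h1
  · have e : (2 : ℝ) - 10 / 7 * (1 - 97 / 50 / 2) = 2 - 3 / 70 := by norm_num
    rw [e]
    refine pow_le_pow_left₀ (by positivity) ?_ 17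
    exact div_le_div₀ (by linarith) (by linarith) (by norm_num) le_rfl

/-- unimodality -/
theorem q_anti (hα : 1 < α) (hτ : 0 < τ) {v w : ℝ} (hv : 0 < v) (hvw : v < w)
    (h : (α - 1) * (v ^ α + τ) < (2 * α + 2) * v ^ α) : q α τ w < q α τ v := by
  have hα0 : 0 < α := by linarith
  have hw : 0 < w := hv.trans hvw
  have hvα : 0 < v ^ α := rpow_pos_of_pos hv _
  have hwα : 0 < w ^ α := rpow_pos_of_pos hw _
  set s : ℝ := w ^ α / v ^ α with hs
  have hs1 : 1 < s := by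
    rw [hs, one_lt_div hvα]
    exact rpow_lt_rpow hv.le hvw hα0
  set θ : ℝ := v ^ α / (v ^ α + τ) with hθ
  have hθ0 : 0 ≤ θ := by positivity
  have hθ1 : θ ≤ 1 := by
    rw [hθ, div_le_one (by positivity)]
    linarith
  have hg : 0 < 2 + 2 / α := by positivity
  have a1 : s ^ θ ≤ (w ^ α + τ) / (v ^ α + τ) := by
    have h1 := Real.geom_mean_le_arith_mean2_weighted hθ0 (sub_nonneg.2 hθ1) (p₁ := s)
      (by positivity) zero_le_one (by ring)
    rw [one_rpow, mul_one, mul_one] at h1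
    have e : θ * s + (1 - θ) = (w ^ α + τ) / (v ^ α + τ) := by
      rw [hθ, hs]
      field_simp
      ring
    rwa [e] at h1
  have a2 : (w / v) ^ (α - 1) = s ^ ((α - 1) / α) := by
    rw [hs, ← div_rpow hw.le hv.le, ← rpow_mul (by positivity)]
    congr 1
    field_simp
  have a3 : (α - 1) / α < θ * (2 + 2 / α) := by
    rw [hθ]
    have : v ^ α / (v ^ α + τ) * (2 + 2 / α) = ((2 * α + 2) * v ^ α / (v ^ α + τ)) / α := by
      field_simp
    rw [this]
    refine div_lt_div_of_pos_right ?_ hα0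
    rw [lt_div_iff₀ (by positivity)]
    exact h
  have a4 : (w / v) ^ (α - 1) < ((w ^ α + τ) / (v ^ α + τ)) ^ (2 + 2 / α) := by
    rw [a2]
    calc s ^ ((α - 1) / α) < s ^ (θ * (2 + 2 / α)) := rpow_lt_rpow_of_exponent_lt hs1 a3
      _ = (s ^ θ) ^ (2 + 2 / α) := by rw [rpow_mul (by positivity)]
      _ ≤ _ := rpow_le_rpow (by positivity) a1 hg.le
  have c1 : w ^ (α - 1) = (w / v) ^ (α - 1) * v ^ (α - 1) := by
    rw [← mul_rpow (by positivity) hv.le, div_mul_cancel₀ _ hv.ne']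
  have c2 : (v ^ α + τ) ^ (-(2 + 2 / α)) =
      ((w ^ α + τ) / (v ^ α + τ)) ^ (2 + 2 / α) * (w ^ α + τ) ^ (-(2 + 2 / α)) := by
    rw [div_rpow (by positivity) (by positivity), rpow_neg (by positivity),
      rpow_neg (by positivity)]
    have : 0 < (w ^ α + τ) ^ (2 + 2 / α) := by positivity
    field_simp
  unfold q
  rw [c1, c2]
  have d1 : 0 < v ^ (α - 1) := by positivity
  have d2 : 0 < (w ^ α + τ) ^ (-(2 + 2 / α)) := by positivity
  nlinarith [mul_pos (mul_pos (sub_pos.2 a4) d1) d2]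

/-- `q` with `t = 2 ^ α` decreases on `[1/2, 2]` -/
theorem q_anti2 (hα : 1 < α) (hα2 : α ≤ 10 / 7) {v w : ℝ} (hv : 1 / 2 ≤ v) (hvw : v < w) :
    q α (2 ^ α) w < q α (2 ^ α) v := by
  have hα0 : 0 < α := by linarith
  refine q_anti hα (by positivity) (by linarith) hvw ?_
  have h1 : (1 / 2 : ℝ) ^ α ≤ v ^ α := rpow_le_rpow (by norm_num) hv hα0.le
  have h2 : (2 : ℝ) ^ α ≤ 2.7 := by
    calc (2 : ℝ) ^ α ≤ 2 ^ (((10 : ℕ) : ℝ) / (7 : ℕ)) :=
          rpow_le_rpow_of_exponent_le (by norm_num) (by push_cast; linarith)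
      _ ≤ 2.7 := rpow_le_of_pow_le (by norm_num) (by norm_num) (by norm_num) (by norm_num)
  have h3 : (1 / 2 : ℝ) ^ α * 2 ^ α = 1 := by
    rw [← mul_rpow (by norm_num) (by norm_num)]
    norm_num
  have h4 : (0 : ℝ) < 2 ^ α := by positivity
  have h5 : 10 / 27 ≤ (1 / 2 : ℝ) ^ α := by
    by_contra hcon
    push Not at hcon
    nlinarith
  nlinarith

theorem q_anti2' (hα : 1 < α) (hα2 : α ≤ 10 / 7) {v w : ℝ} (hv : 1 / 2 ≤ v) (hvw : v ≤ w) :
    q α (2 ^ α) w ≤ q α (2 ^ α) v := by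
  rcases eq_or_lt_of_le hvw with h | h
  · rw [h]
  · exact (q_anti2 hα hα2 hv h).le

/-- **pointwise positivity** -/
theorem D2_pos (hα : 1 < α) (hα2 : α ≤ 10 / 7) {a : ℝ} (ha : 0 < a) (ha1 : a ≤ 49 / 50) :
    0 < D α (2 ^ α) a := by
  have hx0 : 0 < 1 - a := by linarith
  have hq := q_pos (α := α) hx0 (show (0 : ℝ) < 2 ^ α by positivity)
  have e : 2 - (1 - a) = 1 + a := by ring
  have key : ∀ A C : ℝ, A * C < 1 →
      q α (2 ^ α) (2 - (1 - a)) ≤ A * C * q α (2 ^ α) (1 - a) → 0 < D α (2 ^ α) a := by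
    intro A C h1 h2
    rw [e] at h2
    unfold D
    nlinarith
  rcases le_total (1 - a) (1 / 2) with h1 | h1
  · rcases le_total (1 - a) (1 / 10) with h2 | h2
    · refine key 7.17 0.127 (by norm_num) (cell_refl hα hα2 (x1 := 1 / 50) (x2 := 1 / 10)
        (by norm_num) (by linarith) h2 (by norm_num) (by norm_num) (by norm_num)
        (by norm_num) (by norm_num))
    rcases le_total (1 - a) (3 / 10) with h3 | h3
    · refine key 3.54 0.2243 (by norm_num) (cell_refl hα hα2 (x1 := 1 / 10) (x2 := 3 / 10)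
        (by norm_num) (by linarith) h3 (by norm_num) (by norm_num) (by norm_num)
        (by norm_num) (by norm_num))
    · refine key 2.11 0.395 (by norm_num) (cell_refl hα hα2 (x1 := 3 / 10) (x2 := 1 / 2)
        (by norm_num) (by linarith) h1 (by norm_num) (by norm_num) (by norm_num)
        (by norm_num) (by norm_num))
  · have := q_anti2 (α := α) hα hα2 (v := 1 - a) (w := 1 + a) (by linarith) (by linarith)
    unfold D
    linarith

/-- the lower bound on the window `[1/2, 9/10]` -/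
theorem D2_low (hα : 1 < α) (hα2 : α ≤ 10 / 7) {a : ℝ} (ha : 1 / 2 ≤ a) (ha1 : a ≤ 9 / 10) :
    18 / 25 * q α (2 ^ α) (97 / 50) ≤ D α (2 ^ α) a := by
  have hx0 : 0 < 1 - a := by linarith
  have hq := q_pos (α := α) hx0 (show (0 : ℝ) < 2 ^ α by positivity)
  have e : 2 - (1 - a) = 1 + a := by ring
  have key : ∀ A C A' C' : ℝ, A * C + 18 / 25 * (A' * C') ≤ 1 →
      q α (2 ^ α) (2 - (1 - a)) ≤ A * C * q α (2 ^ α) (1 - a) →
      q α (2 ^ α) (97 / 50) ≤ A' * C' * q α (2 ^ α) (1 - a) →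
      18 / 25 * q α (2 ^ α) (97 / 50) ≤ D α (2 ^ α) a := by
    intro A C A' C' h1 h2 h3
    rw [e] at h2
    unfold D
    nlinarith
  rcases le_total (1 - a) (1 / 5) with h1 | h1
  · refine key 3.5325 0.1687 3.5651 0.1413 (by norm_num)
      (cell_refl hα hα2 (x1 := 1 / 10) (x2 := 1 / 5) (by norm_num) (by linarith) h1 (by norm_num)
        (by norm_num) (by norm_num) (by norm_num) (by norm_num))
      (cell_far hα hα2 (x1 := 1 / 10) (x2 := 1 / 5) (by norm_num) (by linarith) h1 (by norm_num)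
        (by norm_num) (by norm_num) (by norm_num) (by norm_num))
  rcases le_total (1 - a) (3 / 10) with h2 | h2
  · refine key 2.565 0.2243 2.65 0.165 (by norm_num)
      (cell_refl hα hα2 (x1 := 1 / 5) (x2 := 3 / 10) (by norm_num) h1 h2 (by norm_num)
        (by norm_num) (by norm_num) (by norm_num) (by norm_num))
      (cell_far hα hα2 (x1 := 1 / 5) (x2 := 3 / 10) (by norm_num) h1 h2 (by norm_num)
        (by norm_num) (by norm_num) (by norm_num) (by norm_num))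
  rcases le_total (1 - a) (2 / 5) with h3 | h3
  · refine key 2.104 0.298 2.227 0.19 (by norm_num)
      (cell_refl hα hα2 (x1 := 3 / 10) (x2 := 2 / 5) (by norm_num) h2 h3 (by norm_num)
        (by norm_num) (by norm_num) (by norm_num) (by norm_num))
      (cell_far hα hα2 (x1 := 3 / 10) (x2 := 2 / 5) (by norm_num) h2 h3 (by norm_num)
        (by norm_num) (by norm_num) (by norm_num) (by norm_num))
  rcases le_total (1 - a) (23 / 50) with h4 | h4
  · refine key 1.812 0.353 1.968 0.207 (by norm_num)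
      (cell_refl hα hα2 (x1 := 2 / 5) (x2 := 23 / 50) (by norm_num) h3 h4 (by norm_num)
        (by norm_num) (by norm_num) (by norm_num) (by norm_num))
      (cell_far hα hα2 (x1 := 2 / 5) (x2 := 23 / 50) (by norm_num) h3 h4 (by norm_num)
        (by norm_num) (by norm_num) (by norm_num) (by norm_num))
  · refine key 1.68 0.395 1.854 0.219 (by norm_num)
      (cell_refl hα hα2 (x1 := 23 / 50) (x2 := 1 / 2) (by norm_num) h4 (by linarith) (by norm_num)
        (by norm_num) (by norm_num) (by norm_num) (by norm_num))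
      (cell_far hα hα2 (x1 := 23 / 50) (x2 := 1 / 2) (by norm_num) h4 (by linarith) (by norm_num)
        (by norm_num) (by norm_num) (by norm_num) (by norm_num))

/-- the ratio at `3/100`, used for the average near `1` -/
theorem q_ratio_three (hα : 1 < α) (hα2 : α ≤ 10 / 7) :
    q α (2 ^ α) (197 / 100) ≤ 7 / 10 * q α (2 ^ α) (3 / 100) := by
  have h := cell_refl hα hα2 (x1 := 3 / 100) (x2 := 3 / 100) (A := 6.01) (C := 0.1035)
    (x := 3 / 100) (by norm_num) le_rfl le_rfl (by norm_num) (by norm_num) (by norm_num)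
    (by norm_num) (by norm_num)
  have e : (2 : ℝ) - 3 / 100 = 197 / 100 := by norm_num
  rw [e] at h
  have hq := q_pos (α := α) (show (0 : ℝ) < 3 / 100 by norm_num)
    (show (0 : ℝ) < 2 ^ α by positivity)
  nlinarith

end LpSec.Avg
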