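import Mathlib
import Pool.Agent.Lib.MP_1dbab3_gt.WAvg.D1

/-!
# The ridge for `α ≤ 10/7`, part D2: the inner integral is nonnegative if `p ≤ 97/100`
-/

open Real MeasureTheory Set Filter Topology

namespace LpSec.Avg

variable {α τ : ℝ}

theorem D2_nonneg (hα : 1 < α) (hα2 : α ≤ 10 / 7) {a : ℝ} (ha : 0 ≤ a) (ha1 : a ≤ 49 / 50) :
    0 ≤ D α (2 ^ α) a := by
  rcases eq_or_lt_of_le ha with h | h
  · rw [← h]
    simp [D]
  · exact (D2_pos hα hα2 h ha1).le

theorem intD2_one (hα : 1 < α) (hα2 : α ≤ 10 / 7) {a b : ℝ} (ha : 0 ≤ a) (ha1 : a ≤ 97 / 100)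
    (hab : a ≤ b) (hb : b ≤ 1) : 0 ≤ ∫ t in a..b, D α (2 ^ α) t := by
  have ht : (0 : ℝ) < 2 ^ α := by positivity
  have hα0 : 0 < α := by linarith
  rcases le_total b (97 / 100) with h1 | h1
  · exact intervalIntegral.integral_nonneg hab fun t ht' =>
      D2_nonneg hα hα2 (ha.trans ht'.1) (by linarith [ht'.2])
  have s1 := intervalIntegral.integral_add_adjacent_intervals
    (D_intervalIntegrable hα ht (a := a) (b := 97 / 100) (by linarith) (by linarith) (by norm_num)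
      (by norm_num))
    (D_intervalIntegrable hα ht (a := 97 / 100) (b := b) (by norm_num) (by norm_num)
      (by linarith) hb)
  have s2 : 0 ≤ ∫ t in a..(97 / 100), D α (2 ^ α) t :=
    intervalIntegral.integral_nonneg ha1 fun t ht' =>
      D2_nonneg hα hα2 (ha.trans ht'.1) (by linarith [ht'.2])
  have hi : IntervalIntegrable (D α (2 ^ α)) volume (97 / 100) b :=
    D_intervalIntegrable hα ht (by norm_num) (by norm_num) (by linarith) hb
  set C : ℝ := ((3 / 100 : ℝ) ^ α + 2 ^ α) ^ (-(2 + 2 / α)) with hC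
  set M : ℝ := q α (2 ^ α) (197 / 100) with hM
  have hC0 : 0 < C := by positivity
  have s3 : ∫ t in (97 / 100)..b, ((1 - t) ^ (α - 1) * C - M) ≤
      ∫ t in (97 / 100)..b, D α (2 ^ α) t := by
    refine intervalIntegral.integral_mono_on h1 ?_ hi ?_
    · refine ContinuousOn.intervalIntegrable ?_
      refine ContinuousOn.sub (ContinuousOn.mul ?_ continuousOn_const) continuousOn_const
      exact ((continuous_const.sub continuous_id).rpow_const fun _ =>
        Or.inr (by linarith)).continuousOn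
    · intro t ht'
      have ht1 : 0 ≤ 1 - t := by linarith [ht'.2]
      have htk : 1 - t ≤ 3 / 100 := by linarith [ht'.1]
      have b1 : (1 - t) ^ (α - 1) * C ≤ q α (2 ^ α) (1 - t) := by
        unfold q
        refine mul_le_mul_of_nonneg_left ?_ (rpow_nonneg ht1 _)
        rw [hC]
        have h3 : (1 - t) ^ α ≤ (3 / 100 : ℝ) ^ α := rpow_le_rpow ht1 htk (by linarith)
        have hγ : 0 ≤ 2 + 2 / α := by positivity
        exact rpow_le_rpow_of_nonpos (base_pos ht1 ht) (by linarith) (by linarith)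
      have b2 : q α (2 ^ α) (1 + t) ≤ M :=
        q_anti2' hα hα2 (by norm_num) (by linarith [ht'.1])
      unfold D
      linarith
  have s4 : ∫ t in (97 / 100)..b, ((1 - t) ^ (α - 1) * C - M) =
      ((3 / 100 : ℝ) ^ α - (1 - b) ^ α) / α * C - (b - 97 / 100) * M := by
    rw [intervalIntegral.integral_sub, intervalIntegral.integral_mul_const,
      intervalIntegral.integral_const, smul_eq_mul]
    · congr 2
      have := intervalIntegral.integral_comp_sub_left (fun x => x ^ (α - 1)) (1 : ℝ)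
        (a := 97 / 100) (b := b)
      rw [this, integral_rpow (Or.inl (by linarith)), sub_add_cancel]
      norm_num
    · refine ContinuousOn.intervalIntegrable (ContinuousOn.mul ?_ continuousOn_const)
      exact ((continuous_const.sub continuous_id).rpow_const fun _ =>
        Or.inr (by linarith)).continuousOn
    · exact intervalIntegrable_const
  have s5 : (b - 97 / 100) * (3 / 100 : ℝ) ^ (α - 1) ≤ (3 / 100 : ℝ) ^ α - (1 - b) ^ α := by
    have e1 : (3 / 100 : ℝ) ^ α = 3 / 100 * (3 / 100 : ℝ) ^ (α - 1) := by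
      rw [← rpow_one_add' (by norm_num) (by linarith)]
      congr 1
      ring
    have e2 : (1 - b) ^ α ≤ (1 - b) * (3 / 100 : ℝ) ^ (α - 1) := by
      have hb1 : 0 ≤ 1 - b := by linarith
      have e3 : (1 - b) ^ α = (1 - b) * (1 - b) ^ (α - 1) := by
        rw [← rpow_one_add' hb1 (by linarith)]
        congr 1
        ring
      rw [e3]
      exact mul_le_mul_of_nonneg_left (rpow_le_rpow hb1 (by linarith) (by linarith)) hb1
    rw [e1]
    have : b - 97 / 100 = 3 / 100 - (1 - b) := by ring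
    rw [this, sub_mul]
    linarith
  have s6 : M ≤ (3 / 100 : ℝ) ^ (α - 1) / α * C := by
    have h := q_ratio_three hα hα2
    have e1 : q α (2 ^ α) (3 / 100) = (3 / 100 : ℝ) ^ (α - 1) * C := by
      rw [hC]
      rfl
    rw [e1] at h
    have h7 : 7 / 10 ≤ 1 / α := by
      rw [le_div_iff₀ hα0]
      linarith
    have h8 : 0 < (3 / 100 : ℝ) ^ (α - 1) * C := by positivity
    calc M ≤ 7 / 10 * ((3 / 100 : ℝ) ^ (α - 1) * C) := h
      _ ≤ 1 / α * ((3 / 100 : ℝ) ^ (α - 1) * C) := mul_le_mul_of_nonneg_right h7 h8.le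
      _ = _ := by ring
  have s7 : 0 ≤ ∫ t in (97 / 100)..b, D α (2 ^ α) t := by
    refine le_trans ?_ s3
    rw [s4]
    have hba : 0 ≤ b - 97 / 100 := by linarith
    have c1 : (b - 97 / 100) * M ≤ (b - 97 / 100) * ((3 / 100 : ℝ) ^ (α - 1) / α * C) :=
      mul_le_mul_of_nonneg_left s6 hba
    have c2 : (b - 97 / 100) * ((3 / 100 : ℝ) ^ (α - 1) / α * C) ≤
        ((3 / 100 : ℝ) ^ α - (1 - b) ^ α) / α * C := by
      have : (b - 97 / 100) * ((3 / 100 : ℝ) ^ (α - 1) / α * C) =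
          ((b - 97 / 100) * (3 / 100 : ℝ) ^ (α - 1)) / α * C := by ring
      rw [this]
      exact mul_le_mul_of_nonneg_right (div_le_div_of_nonneg_right s5 hα0.le) hC0.le
    linarith
  linarith

theorem intD2_nonneg (hα : 1 < α) (hα2 : α ≤ 10 / 7) (hτ : 0 < τ) (hτ1 : τ ≤ 2 ^ α) {a b : ℝ}
    (ha : 0 ≤ a) (ha1 : a ≤ 97 / 100) (hab : a ≤ b) (hb : b ≤ 1) : 0 ≤ ∫ t in a..b, D α τ t := by
  have h1 := intD2_one hα hα2 ha ha1 hab hb
  have ht : (0 : ℝ) < 2 ^ α := by positivity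
  have h2 : (∫ t in a..b, (1 + 2 ^ α) ^ (2 + 2 / α) * D α (2 ^ α) t) ≤
      ∫ t in a..b, (1 + τ) ^ (2 + 2 / α) * D α τ t := by
    refine intervalIntegral.integral_mono_on hab
      ((D_intervalIntegrable hα ht (by linarith) (by linarith) (by linarith) hb).const_mul _)
      ((D_intervalIntegrable hα hτ (by linarith) (by linarith) (by linarith) hb).const_mul _) ?_
    intro x hx
    exact D_mono (ha.trans hx.1) (hx.2.trans hb) hα hτ hτ1
  rw [intervalIntegral.integral_const_mul, intervalIntegral.integral_const_mul] at h2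
  have h3 : 0 < (1 + τ) ^ (2 + 2 / α) := by positivity
  have h4 : 0 ≤ (1 + 2 ^ α : ℝ) ^ (2 + 2 / α) * ∫ t in a..b, D α (2 ^ α) t := by positivity
  exact nonneg_of_mul_nonneg_right (h4.trans h2) h3

/-- the reference quantity -/
noncomputable def XX (α τ : ℝ) : ℝ :=
  ((1 + 2 ^ α) / (1 + τ)) ^ (2 + 2 / α) * q α (2 ^ α) (97 / 50)

theorem XX_pos (hτ : 0 < τ) : 0 < XX α τ := by
  unfold XX
  have := q_pos (α := α) (show (0 : ℝ) < 97 / 50 by norm_num) (show (0 : ℝ) < 2 ^ α by positivity)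
  positivity

theorem XX_anti {τ' : ℝ} (hα : 1 < α) (hτ : 0 < τ) (h : τ ≤ τ') : XX α τ' ≤ XX α τ := by
  unfold XX
  have hq := q_pos (α := α) (show (0 : ℝ) < 97 / 50 by norm_num)
    (show (0 : ℝ) < 2 ^ α by positivity)
  refine mul_le_mul_of_nonneg_right ?_ hq.le
  have hγ : 0 ≤ 2 + 2 / α := by
    have : 0 < α := by linarith
    positivity
  have hτ' : 0 < τ' := hτ.trans_le h
  refine rpow_le_rpow (by positivity) ?_ hγ
  exact div_le_div_of_nonneg_left (by positivity) (by linarith) (by linarith)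

theorem Dτ_eq (hα : 1 < α) (hτ : 0 < τ) (hτ1 : τ ≤ 2 ^ α) {a : ℝ} (ha : 0 ≤ a) (ha1 : a ≤ 1) :
    ((1 + 2 ^ α) / (1 + τ)) ^ (2 + 2 / α) * D α (2 ^ α) a ≤ D α τ a := by
  have h := D_mono ha ha1 hα hτ hτ1
  rw [div_rpow (by positivity) (by positivity), div_mul_eq_mul_div, div_le_iff₀ (by positivity)]
  linarith

theorem Dτ_nonneg (hα : 1 < α) (hα2 : α ≤ 10 / 7) (hτ : 0 < τ) (hτ1 : τ ≤ 2 ^ α) {a : ℝ}
    (ha : 0 ≤ a) (ha1 : a ≤ 49 / 50) : 0 ≤ D α τ a :=
  D_nonneg_of ha (by linarith) hα hτ hτ1 (D2_nonneg hα hα2 ha ha1)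

theorem Dτ_pos (hα : 1 < α) (hα2 : α ≤ 10 / 7) (hτ : 0 < τ) (hτ1 : τ ≤ 2 ^ α) {a : ℝ}
    (ha : 0 < a) (ha1 : a ≤ 49 / 50) : 0 < D α τ a := by
  have h1 := Dτ_eq hα hτ hτ1 ha.le (by linarith)
  have h2 := D2_pos hα hα2 ha ha1
  have h3 : 0 < ((1 + 2 ^ α) / (1 + τ)) ^ (2 + 2 / α) := by positivity
  nlinarith [mul_pos h3 h2]

theorem Dτ_low (hα : 1 < α) (hα2 : α ≤ 10 / 7) (hτ : 0 < τ) (hτ1 : τ ≤ 2 ^ α) {a : ℝ}
    (ha : 1 / 2 ≤ a) (ha1 : a ≤ 9 / 10) : 18 / 25 * XX α τ ≤ D α τ a := by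
  have h1 := Dτ_eq hα hτ hτ1 (a := a) (by linarith) (by linarith)
  have h2 := D2_low hα hα2 ha ha1
  have h3 : 0 < ((1 + 2 ^ α) / (1 + τ)) ^ (2 + 2 / α) := by positivity
  unfold XX
  nlinarith [mul_le_mul_of_nonneg_left h2 h3.le]

theorem Dτ_ge (hα : 1 < α) (hα2 : α ≤ 10 / 7) (hτ : 0 < τ) (hτ1 : τ ≤ 2 ^ α) {a : ℝ}
    (ha : 47 / 50 ≤ a) (ha1 : a ≤ 1) : -XX α τ ≤ D α τ a := by
  have h1 := D_ge_neg (α := α) ha1 hτ
  have h2 := q_mono_large (α := α) (τ := τ) (k := 1) (v := 1 + a) (t := 2 ^ α) zero_le_one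
    (by linarith) hα hτ hτ1
  rw [one_rpow] at h2
  have h3 : q α (2 ^ α) (1 + a) ≤ q α (2 ^ α) (97 / 50) :=
    q_anti2' hα hα2 (by norm_num) (by linarith)
  have h4 : q α τ (1 + a) ≤ XX α τ := by
    unfold XX
    rw [div_rpow (by positivity) (by positivity), div_mul_eq_mul_div, le_div_iff₀ (by positivity)]
    have h5 : (0 : ℝ) < (1 + 2 ^ α) ^ (2 + 2 / α) := by positivity
    nlinarith [mul_le_mul_of_nonneg_left h3 h5.le]
  linarith

/-- `lam` estimate -/
theorem lam_ge' {p r a : ℝ} (hp : 0 ≤ p) (h1 : r + p ≤ 1) (ha : 0 ≤ a)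
    (ha1 : a + p ≤ r) : 2 * p * a ≤ √(r ^ 2 - (a - p) ^ 2) - √(r ^ 2 - (a + p) ^ 2) := by
  have c1 : (a + p) ^ 2 ≤ r ^ 2 := pow_le_pow_left₀ (by linarith) (by linarith) 2
  have c2 : (a - p) ^ 2 ≤ r ^ 2 := by
    refine le_trans ?_ c1
    nlinarith [mul_nonneg ha hp]
  have c3 : r ^ 2 ≤ 1 ^ 2 := pow_le_pow_left₀ (by linarith) (by linarith) 2
  have hA2 : √(r ^ 2 - (a - p) ^ 2) ^ 2 = r ^ 2 - (a - p) ^ 2 := Real.sq_sqrt (by linarith)
  have hB2 : √(r ^ 2 - (a + p) ^ 2) ^ 2 = r ^ 2 - (a + p) ^ 2 := Real.sq_sqrt (by linarith)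
  have hA1 : √(r ^ 2 - (a - p) ^ 2) ≤ 1 :=
    Real.sqrt_le_one.2 (by linarith [sq_nonneg (a - p)])
  have hB1 : √(r ^ 2 - (a + p) ^ 2) ≤ 1 :=
    Real.sqrt_le_one.2 (by linarith [sq_nonneg (a + p)])
  have hAB : √(r ^ 2 - (a + p) ^ 2) ≤ √(r ^ 2 - (a - p) ^ 2) :=
    Real.sqrt_le_sqrt (by nlinarith [mul_nonneg ha hp])
  set A := √(r ^ 2 - (a - p) ^ 2)
  set B := √(r ^ 2 - (a + p) ^ 2)
  have e : (A - B) * (A + B) = 4 * (p * a) := by nlinarith
  have e2 : (A - B) * (A + B) ≤ (A - B) * 2 :=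
    mul_le_mul_of_nonneg_left (by linarith) (by linarith)
  linarith

theorem lam_nonneg2 (hα : 1 < α) (hα2 : α ≤ 10 / 7) (hτ : 0 < τ) (hτ1 : τ ≤ 2 ^ α) {p r : ℝ}
    (hp : 0 ≤ p) (hr : 0 < r) (h1 : r + p ≤ 1) (h2 : 97 / 100 ≤ r - p) :
    0 ≤ ∫ a in (0 : ℝ)..1, (√(r ^ 2 - (a - p) ^ 2) - √(r ^ 2 - (a + p) ^ 2)) * D α τ a := by
  set lam : ℝ → ℝ := fun a => √(r ^ 2 - (a - p) ^ 2) - √(r ^ 2 - (a + p) ^ 2) with hlam
  have hlc : Continuous lam := by
    rw [hlam]
    fun_prop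
  have hl0 : ∀ a, 0 ≤ a → 0 ≤ lam a := by
    intro a ha
    rw [hlam]
    simp only [sub_nonneg]
    exact Real.sqrt_le_sqrt (by nlinarith)
  have hi : ∀ {c d : ℝ}, 0 ≤ c → c ≤ d → d ≤ 1 →
      IntervalIntegrable (fun a => lam a * D α τ a) volume c d := by
    intro c d hc' hcd hd
    refine ContinuousOn.intervalIntegrable ?_
    refine hlc.continuousOn.mul ((D_continuousOn hα hτ).mono ?_)
    rw [uIcc_of_le hcd]
    exact Icc_subset_Icc (by linarith) hd
  have hX := XX_pos (α := α) hτ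
  have s1 : ∫ a in (0 : ℝ)..1, lam a * D α τ a = (∫ a in (0 : ℝ)..(1 / 2), lam a * D α τ a) +
      (∫ a in (1 / 2)..(9 / 10), lam a * D α τ a) + (∫ a in (9 / 10)..(49 / 50), lam a * D α τ a) +
      ∫ a in (49 / 50)..1, lam a * D α τ a := by
    rw [intervalIntegral.integral_add_adjacent_intervals
      (hi le_rfl (by norm_num) (by norm_num))
      (hi (by norm_num) (by norm_num) (by norm_num)),
      intervalIntegral.integral_add_adjacent_intervals
      (hi le_rfl (by norm_num) (by norm_num))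
      (hi (by norm_num) (by norm_num) (by norm_num)),
      intervalIntegral.integral_add_adjacent_intervals
      (hi le_rfl (by norm_num) (by norm_num))
      (hi (by norm_num) (by norm_num) le_rfl)]
  have s2 : 0 ≤ ∫ a in (0 : ℝ)..(1 / 2), lam a * D α τ a :=
    intervalIntegral.integral_nonneg (by norm_num) fun a ha =>
      mul_nonneg (hl0 a ha.1) (Dτ_nonneg hα hα2 hτ hτ1 ha.1 (by linarith [ha.2]))
  have s3 : 0 ≤ ∫ a in (9 / 10)..(49 / 50), lam a * D α τ a :=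
    intervalIntegral.integral_nonneg (by norm_num) fun a ha =>
      mul_nonneg (hl0 a (by linarith [ha.1])) (Dτ_nonneg hα hα2 hτ hτ1 (by linarith [ha.1]) ha.2)
  have s4 : (∫ a in (1 / 2)..(9 / 10), 2 * p * (18 / 25 * XX α τ) * a) ≤
      ∫ a in (1 / 2)..(9 / 10), lam a * D α τ a := by
    refine intervalIntegral.integral_mono_on (by norm_num)
      (Continuous.intervalIntegrable (by fun_prop) _ _)
      (hi (by norm_num) (by norm_num) (by norm_num)) ?_
    intro a ha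
    have h3 : 2 * p * a ≤ lam a := lam_ge' hp h1 (by linarith [ha.1]) (by linarith [ha.2])
    have h4 := Dτ_low hα hα2 hτ hτ1 ha.1 ha.2
    have h5 : 0 ≤ 2 * p * a := mul_nonneg (by linarith) (by linarith [ha.1])
    calc 2 * p * (18 / 25 * XX α τ) * a = (2 * p * a) * (18 / 25 * XX α τ) := by ring
      _ ≤ lam a * D α τ a := mul_le_mul h3 h4 (by positivity) (h5.trans h3)
  rw [intervalIntegral.integral_const_mul, integral_id] at s4
  have s5 : (∫ a in (49 / 50)..1, -XX α τ * lam a) ≤ ∫ a in (49 / 50)..1, lam a * D α τ a := by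
    refine intervalIntegral.integral_mono_on (by norm_num)
      ((continuous_const.mul hlc).intervalIntegrable _ _)
      (hi (by norm_num) (by norm_num) le_rfl) ?_
    intro a ha
    have h3 := Dτ_ge hα hα2 hτ hτ1 (a := a) (by linarith [ha.1]) ha.2
    have h4 := hl0 a (by linarith [ha.1])
    nlinarith [mul_le_mul_of_nonneg_left h3 h4]
  rw [intervalIntegral.integral_const_mul] at s5
  have s6 := int_lam_le (c := 1 / 50) (s := 1 / 5) hp hr h1 (by norm_num) (by linarith)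
    (by norm_num) (by norm_num)
  have e1 : (1 : ℝ) - 1 / 50 = 49 / 50 := by norm_num
  rw [e1] at s6
  have s7 : (∫ a in (49 / 50)..1, lam a) ≤ 2 * p * (1 / 5) := s6
  have s8 : -(XX α τ * (2 * p * (1 / 5))) ≤ -XX α τ * ∫ a in (49 / 50)..1, lam a := by
    nlinarith [mul_le_mul_of_nonneg_left s7 hX.le]
  have s9 : 0 ≤ p * XX α τ := mul_nonneg hp hX.le
  rw [s1]
  norm_num at s4
  nlinarith

/-- **the inner integral** -/
theorem P_nonneg (hα : 1 < α) (hα2 : α ≤ 10 / 7) (hτ : 0 < τ) (hτ1 : τ ≤ 2 ^ α) {p r : ℝ}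
    (hp : 0 ≤ p) (hp1 : p ≤ 97 / 100) (hr : 0 ≤ r) (h1 : r + p ≤ 1) :
    0 ≤ ∫ φ in (0 : ℝ)..π, cos φ * Qf α τ (p + r * cos φ) := by
  rcases le_total (97 / 100) (r - p) with h2 | h2
  · have hr0 : 0 < r := by linarith
    have h3 := int_cos_Q hα hτ hp hr0 h1
    rw [fold_D hα hτ hp hr0 h1] at h3
    have h4 := lam_nonneg2 hα hα2 hτ hτ1 hp hr0 h1 h2
    have h5 : 0 ≤ r * ∫ φ in (0 : ℝ)..π, cos φ * Qf α τ (p + r * cos φ) := by
      rw [h3]
      exact mul_nonneg (by linarith) h4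
    exact nonneg_of_mul_nonneg_right h5 hr0
  · refine int_cos_Q_of_pointwise hα hτ hp hr h1 fun ρ hρ hρr => ?_
    refine intD2_nonneg hα hα2 hτ hτ1 (abs_nonneg _) ?_ ?_ (by linarith)
    · exact abs_le.2 ⟨by linarith, by linarith⟩
    · exact abs_le.2 ⟨by linarith, by linarith⟩

end LpSec.Avg
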