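import Mathlib
import Pool.Agent.Lib.MP_1dbab3_gt.WAvg.D2

/-!
# The ridge for `α ≤ 10/7`, part D3: `dI ≥ 0` for all `B ≥ 2 ^ (-α)`
-/

open Real MeasureTheory Set Filter Topology

namespace LpSec.Avg

variable {α τ B : ℝ}

/-- lower bound of the inner integral from a lower bound of `D` -/
theorem P_low (hα : 1 < α) (hτ : 0 < τ) {p r m : ℝ} (hp : 0 ≤ p) (hr : 0 ≤ r) (h1 : r + p ≤ 1)
    (hm : ∀ a, p - r ≤ a → a ≤ p + r → m ≤ D α τ a) :
    (α + 2) * m * r * (π / 2) ≤ ∫ φ in (0 : ℝ)..π, cos φ * Qf α τ (p + r * cos φ) := by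
  have hrng : ∀ φ : ℝ, -1 ≤ p + r * cos φ ∧ p + r * cos φ ≤ 1 := by
    intro φ
    have c1 := Real.cos_le_one φ
    have c2 := Real.neg_one_le_cos φ
    constructor <;> nlinarith
  have hQc : Continuous fun φ => Qf α τ (p + r * cos φ) := by
    have : ContinuousOn (fun φ => Qf α τ (p + r * cos φ)) univ :=
      (Qf_continuousOn hα hτ).comp (by fun_prop) fun φ _ => hrng φ
    exact continuousOn_univ.1 this
  have hfc : Continuous fun φ => cos φ * Qf α τ (p + r * cos φ) := continuous_cos.mul hQc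
  have hmono : ∀ a b : ℝ, p - r ≤ a → a ≤ b → b ≤ p + r →
      (α + 2) * m * (b - a) ≤ Qf α τ b - Qf α τ a := by
    intro a b ha hab hb
    rw [Qf_sub hα hτ (by linarith) hab (by linarith)]
    have h2 : (∫ _ in a..b, m) ≤ ∫ t in a..b, D α τ t :=
      intervalIntegral.integral_mono_on hab intervalIntegrable_const
        (D_intervalIntegrable hα hτ (by linarith) (by linarith) (by linarith) (by linarith))
        fun t ht => hm t (ha.trans ht.1) (ht.2.trans hb)
    rw [intervalIntegral.integral_const, smul_eq_mul] at h2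
    have h3 : (α + 2) * ((b - a) * m) ≤ (α + 2) * ∫ t in a..b, D α τ t :=
      mul_le_mul_of_nonneg_left h2 (by linarith)
    linarith
  have h2 : (∫ φ in (0 : ℝ)..π, ((α + 2) * m * r * cos φ ^ 2 + Qf α τ p * cos φ)) ≤
      ∫ φ in (0 : ℝ)..π, cos φ * Qf α τ (p + r * cos φ) := by
    refine intervalIntegral.integral_mono_on pi_pos.le
      (Continuous.intervalIntegrable (by fun_prop) _ _) (hfc.intervalIntegrable _ _) ?_
    intro φ _
    have c1 := Real.cos_le_one φ
    have c2 := Real.neg_one_le_cos φ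
    rcases le_total 0 (cos φ) with hc | hc
    · have h3 := hmono p (p + r * cos φ) (by linarith) (by nlinarith) (by nlinarith)
      nlinarith [mul_le_mul_of_nonneg_left h3 hc]
    · have h3 := hmono (p + r * cos φ) p (by nlinarith) (by nlinarith) (by linarith)
      nlinarith [mul_le_mul_of_nonneg_left h3 (neg_nonneg.2 hc)]
  have h3 : ∫ φ in (0 : ℝ)..π, ((α + 2) * m * r * cos φ ^ 2 + Qf α τ p * cos φ) =
      (α + 2) * m * r * (π / 2) := by
    rw [intervalIntegral.integral_add (Continuous.intervalIntegrable (by fun_prop) _ _)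
      (Continuous.intervalIntegrable (by fun_prop) _ _), intervalIntegral.integral_const_mul,
      intervalIntegral.integral_const_mul, integral_cos_sq, integral_cos]
    simp
  linarith

theorem Yd_lower (hα : 1 < α) (hα2 : α ≤ 2) {s : ℝ} (h0 : 0 ≤ s) (h1 : s ≤ 1) :
    α / 2 * ((α - 1) * s) ≤ Yd α s := by
  unfold Yd
  refine mul_le_mul_of_nonneg_left ?_ (by linarith)
  set x := (1 + s) / 2 with hx
  set y := (1 - s) / 2 with hy
  have hx0 : 0 < x := by rw [hx]; linarith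
  have hx1 : x ≤ 1 := by rw [hx]; linarith
  have hy0 : 0 ≤ y := by rw [hy]; linarith
  have a1 : y ^ (α - 1) = x ^ (α - 1) * (y / x) ^ (α - 1) := by
    rw [← mul_rpow hx0.le (by positivity), mul_div_cancel₀ _ hx0.ne']
  have a2 : (y / x) ^ (α - 1) ≤ 1 + (α - 1) * (y / x - 1) :=
    rpow_le_chord (by positivity) (by linarith) (by linarith)
  have a3 : x ≤ x ^ (α - 1) := by
    have := rpow_le_rpow_of_exponent_ge hx0 hx1 (show α - 1 ≤ 1 by linarith)
    rwa [rpow_one] at this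
  have a4 : x ^ (α - 1) * ((α - 1) * (s / x)) ≤ x ^ (α - 1) - y ^ (α - 1) := by
    have h2 : y / x - 1 = -(s / x) := by
      rw [hx, hy]
      field_simp
      ring
    rw [a1]
    rw [h2] at a2
    nlinarith [mul_le_mul_of_nonneg_left a2 (hx0.le.trans a3)]
  refine le_trans ?_ a4
  have a5 : 0 ≤ (α - 1) * (s / x) := mul_nonneg (by linarith) (by positivity)
  calc (α - 1) * s = x * ((α - 1) * (s / x)) := by field_simp
    _ ≤ _ := mul_le_mul_of_nonneg_right a3 a5

theorem Yd_upper (hα : 1 < α) {θ : ℝ} (h0 : 0 ≤ θ) (h1 : θ ≤ π / 2) :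
    sin θ ^ 3 * Yd α (cos θ) ≤ α / 2 * ((α - 1) * (3 / 2 * θ ^ 2)) := by
  rcases eq_or_lt_of_le h0 with h | h0
  · rw [← h]
    simp
  set h := sin (θ / 2) with hh
  have hh0 : 0 < h := Real.sin_pos_of_pos_of_lt_pi (by linarith) (by linarith [pi_pos])
  have hs0 : 0 ≤ sin θ := Real.sin_nonneg_of_nonneg_of_le_pi h0.le (by linarith [pi_pos])
  have hs1 : sin θ ≤ θ := Real.sin_le h0.le
  have e1 : cos θ = 1 - 2 * h ^ 2 := by
    have := Real.cos_sq' (θ / 2)
    have h2 := Real.cos_two_mul (θ / 2)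
    rw [show 2 * (θ / 2) = θ by ring] at h2
    rw [h2, this]
    ring
  have e2 : sin θ ≤ 2 * h := by
    have h2 := Real.sin_two_mul (θ / 2)
    rw [show 2 * (θ / 2) = θ by ring] at h2
    rw [h2]
    have h3 := Real.cos_le_one (θ / 2)
    nlinarith
  have hy : (1 - cos θ) / 2 = h ^ 2 := by rw [e1]; ring
  have hx : (1 + cos θ) / 2 ≤ 1 := by linarith [Real.cos_le_one θ]
  have hx0 : 0 ≤ (1 + cos θ) / 2 := by linarith [Real.neg_one_le_cos θ]
  have a1 : ((1 + cos θ) / 2) ^ (α - 1) ≤ 1 := rpow_le_one hx0 hx (by linarith)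
  have a2 : 1 + (α - 1) * (2 * log h) ≤ (h ^ 2) ^ (α - 1) := by
    rw [rpow_def_of_pos (by positivity), Real.log_pow]
    have := Real.add_one_le_exp (((2 : ℕ) : ℝ) * log h * (α - 1))
    push_cast at *
    linarith
  have a3 : -log h ≤ 3 / 8 / h := by
    have b1 := Real.log_le_sub_one_of_pos (x := 3 / 8 / h) (by positivity)
    rw [Real.log_div (by norm_num) hh0.ne'] at b1
    have b2 : -1 ≤ log (3 / 8 : ℝ) := by
      rw [Real.le_log_iff_exp_le (by norm_num), Real.exp_neg]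
      have := Real.exp_one_gt_d9
      rw [inv_le_comm₀ (by positivity) (by norm_num)]
      norm_num
      linarith
    linarith
  have a4 : sin θ ^ 3 * (((1 + cos θ) / 2) ^ (α - 1) - ((1 - cos θ) / 2) ^ (α - 1)) ≤
      (α - 1) * (3 / 2 * θ ^ 2) := by
    rw [hy]
    have c1 : ((1 + cos θ) / 2) ^ (α - 1) - (h ^ 2) ^ (α - 1) ≤ (α - 1) * (3 / 4 / h) := by
      have : (α - 1) * (-log h) ≤ (α - 1) * (3 / 8 / h) :=
        mul_le_mul_of_nonneg_left a3 (by linarith)
      have e : (α - 1) * (3 / 4 / h) = 2 * ((α - 1) * (3 / 8 / h)) := by ring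
      rw [e]
      linarith
    have c2 : sin θ ^ 3 ≤ θ ^ 2 * (2 * h) := by
      have : sin θ ^ 2 ≤ θ ^ 2 := pow_le_pow_left₀ hs0 hs1 2
      calc sin θ ^ 3 = sin θ ^ 2 * sin θ := by ring
        _ ≤ θ ^ 2 * (2 * h) := mul_le_mul this e2 hs0 (sq_nonneg _)
    calc sin θ ^ 3 * (((1 + cos θ) / 2) ^ (α - 1) - (h ^ 2) ^ (α - 1))
        ≤ sin θ ^ 3 * ((α - 1) * (3 / 4 / h)) :=
          mul_le_mul_of_nonneg_left c1 (by positivity)
      _ ≤ θ ^ 2 * (2 * h) * ((α - 1) * (3 / 4 / h)) :=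
          mul_le_mul_of_nonneg_right c2 (mul_nonneg (by linarith) (by positivity))
      _ = _ := by
          field_simp
          ring
  unfold Yd
  have : sin θ ^ 3 * (α / 2 * (((1 + cos θ) / 2) ^ (α - 1) - ((1 - cos θ) / 2) ^ (α - 1))) =
      α / 2 * (sin θ ^ 3 * (((1 + cos θ) / 2) ^ (α - 1) - ((1 - cos θ) / 2) ^ (α - 1))) := by
    ring
  rw [this]
  exact mul_le_mul_of_nonneg_left a4 (by linarith)

end LpSec.Avg
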