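import Mathlib
import Pool.Agent.Lib.MP_1dbab3_gt.WAvg.D3

/-!
# The ridge for `α ≤ 10/7`, part D4: `dI ≥ 0` for all `B ≥ 2 ^ (-α)`
-/

open Real MeasureTheory Set Filter Topology

namespace LpSec.Avg

variable {α τ B : ℝ}

theorem Yf_mono (hα : 1 < α) {s t : ℝ} (h0 : 0 ≤ s) (hst : s ≤ t) (h1 : t ≤ 1) :
    Yf α s ≤ Yf α t := by
  rcases eq_or_lt_of_le hst with h | h
  · rw [h]
  -- `Yf (sin ...)`: monotone because the derivative is `Yd ≥ 0`
  have hd : ∀ x ∈ interior (Icc (0 : ℝ) 1), HasDerivWithinAt (Yf α) (Yd α x)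
      (interior (Icc (0 : ℝ) 1)) x := by
    intro x _
    unfold Yf Yd
    have h1 := (((hasDerivAt_id x).const_add 1).div_const 2).rpow_const (p := α)
      (Or.inr hα.le)
    have h2 := (((hasDerivAt_id x).const_sub 1).div_const 2).rpow_const (p := α)
      (Or.inr hα.le)
    refine (((h1.add h2).congr_deriv ?_)).hasDerivWithinAt
    simp only [id]
    ring
  have hc : ContinuousOn (Yf α) (Icc 0 1) := by
    unfold Yf
    refine ContinuousOn.add ?_ ?_
    · exact ContinuousOn.rpow_const (by fun_prop) fun _ _ => Or.inr (by linarith)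
    · exact ContinuousOn.rpow_const (by fun_prop) fun _ _ => Or.inr (by linarith)
  refine monotoneOn_of_hasDerivWithinAt_nonneg (convex_Icc 0 1) hc hd (fun x hx => ?_)
    ⟨h0, hst.trans h1⟩ ⟨h0.trans hst, h1⟩ hst
  rw [interior_Icc] at hx
  exact Yd_nonneg hα hx.1.le hx.2.le

/-- the inner integral, as a function of `θ` -/
noncomputable def Pf (α B η θ : ℝ) : ℝ := ∫ φ in (0 : ℝ)..π, cos φ * Qf α (Yf α (cos θ) / B)
        (cos θ * cos η + sin θ * sin η * cos φ)

section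

variable {η θ : ℝ}

theorem tau_ok (hα : 1 < α) (hB : 0 < B) (hB2 : 1 ≤ B * 2 ^ α) (θ : ℝ) :
    0 < Yf α (cos θ) / B ∧ Yf α (cos θ) / B ≤ 2 ^ α := by
  have hY := Yf_pos (α := α) (Real.neg_one_le_cos θ) (Real.cos_le_one θ)
  have hY1 := Yf_le_one hα (Real.neg_one_le_cos θ) (Real.cos_le_one θ)
  refine ⟨by positivity, ?_⟩
  rw [div_le_iff₀ hB]
  linarith

theorem pr_le (η θ : ℝ) : sin θ * sin η + cos θ * cos η ≤ 1 := by
  have := Real.cos_sub θ η
  linarith [Real.cos_le_one (θ - η)]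

theorem Pf_nonneg (hα : 1 < α) (hα2 : α ≤ 10 / 7) (hB : 0 < B) (hB2 : 1 ≤ B * 2 ^ α)
    (hη0 : 0 ≤ η) (hη1 : η ≤ π / 2) (hθ0 : 0 ≤ θ) (hθ1 : θ ≤ π / 2)
    (h : cos θ * cos η ≤ 97 / 100) : 0 ≤ Pf α B η θ := by
  have hcθ : 0 ≤ cos θ := Real.cos_nonneg_of_mem_Icc ⟨by linarith [pi_pos], hθ1⟩
  have hsθ : 0 ≤ sin θ := Real.sin_nonneg_of_nonneg_of_le_pi hθ0 (by linarith [pi_pos])
  have hcη : 0 ≤ cos η := Real.cos_nonneg_of_mem_Icc ⟨by linarith [pi_pos], hη1⟩
  have hsη : 0 ≤ sin η := Real.sin_nonneg_of_nonneg_of_le_pi hη0 (by linarith [pi_pos])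
  have ht := tau_ok hα hB hB2 θ
  exact P_nonneg hα hα2 ht.1 ht.2 (mul_nonneg hcθ hcη) h (mul_nonneg hsθ hsη) (pr_le η θ)

theorem dI_Pf (hα : 1 < α) (hB : 0 < B) (η : ℝ) :
    dI α B η = 2 / α * B ^ (-(1 + 2 / α)) *
      ∫ θ in (0 : ℝ)..(π / 2), sin θ ^ 2 * Yd α (cos θ) * Pf α B η θ := by
  rw [dI_half hα hB.le, ← intervalIntegral.integral_const_mul]
  refine intervalIntegral.integral_congr fun θ _ => ?_
  rw [ZZ_sub hα hB]
  unfold Pf
  ring

theorem Pf_cont (hα : 1 < α) (hB : 0 < B) (η : ℝ) : Continuous (Pf α B η) := by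
  have h1 : Pf α B η = fun θ => (B ^ (-(1 + 2 / α)))⁻¹ *
      (ZZ α B η θ - ZZ α B η (π - θ)) := by
    funext θ
    have h0 : 0 < B ^ (-(1 + 2 / α)) := by positivity
    rw [ZZ_sub hα hB]
    unfold Pf
    rw [← mul_assoc, inv_mul_cancel₀ h0.ne', one_mul]
  rw [h1]
  have h2 := ZZ_cont hα hB.le η
  have h3 : Continuous fun θ => ZZ α B η (π - θ) := h2.comp (by fun_prop)
  exact continuous_const.mul (h2.sub h3)

theorem W_cont (hα : 1 < α) (hB : 0 < B) (η : ℝ) :
    Continuous fun θ => sin θ ^ 2 * Yd α (cos θ) * Pf α B η θ := by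
  have a2 : Continuous fun θ => Yd α (cos θ) := cont_Yd hα continuous_id
  have a3 := Pf_cont hα hB η
  fun_prop

/-- lower bound near `θ = 0` -/
theorem zoneN (hα : 1 < α) (hα2 : α ≤ 10 / 7) (hB : 0 < B) (hB2 : 1 ≤ B * 2 ^ α)
    (hη0 : 0 ≤ η) (hη1 : η ≤ π / 2) (hθ0 : 0 ≤ θ) (hθ1 : θ ≤ π / 2) :
    -((α + 2) * XX α (Yf α (97 / 100) / B) * (sin θ * sin η) * (π / 2)) ≤ Pf α B η θ := by
  have hcθ : 0 ≤ cos θ := Real.cos_nonneg_of_mem_Icc ⟨by linarith [pi_pos], hθ1⟩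
  have hsθ : 0 ≤ sin θ := Real.sin_nonneg_of_nonneg_of_le_pi hθ0 (by linarith [pi_pos])
  have hcη : 0 ≤ cos η := Real.cos_nonneg_of_mem_Icc ⟨by linarith [pi_pos], hη1⟩
  have hsη : 0 ≤ sin η := Real.sin_nonneg_of_nonneg_of_le_pi hη0 (by linarith [pi_pos])
  have ht := tau_ok hα hB hB2 θ
  have hY := Yf_pos (α := α) (s := 97 / 100) (by norm_num) (by norm_num)
  have hX := XX_pos (α := α) (τ := Yf α (97 / 100) / B) (by positivity)
  rcases le_total (cos θ * cos η) (97 / 100) with h | h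
  · have h1 := Pf_nonneg hα hα2 hB hB2 hη0 hη1 hθ0 hθ1 h
    have h2 : 0 ≤ (α + 2) * XX α (Yf α (97 / 100) / B) * (sin θ * sin η) * (π / 2) := by
      have : 0 ≤ α + 2 := by linarith
      have := pi_pos
      positivity
    linarith
  · have hpr := pr_le η θ
    have hc1 : 97 / 100 ≤ cos θ := by nlinarith [Real.cos_le_one η]
    have h3 : XX α (Yf α (cos θ) / B) ≤ XX α (Yf α (97 / 100) / B) := by
      refine XX_anti hα (by positivity) ?_
      exact div_le_div_of_nonneg_right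
        (Yf_mono hα (by norm_num) hc1 (Real.cos_le_one θ)) hB.le
    have h4 := P_low hα ht.1 (p := cos θ * cos η) (r := sin θ * sin η)
      (m := -XX α (Yf α (97 / 100) / B)) (mul_nonneg hcθ hcη) (mul_nonneg hsθ hsη) hpr
      (fun a ha1 ha2 => by
        have := Dτ_ge hα hα2 ht.1 ht.2 (a := a) (by linarith) (by linarith)
        linarith)
    unfold Pf
    linarith

/-- lower bound on the window -/
theorem zoneP (hα : 1 < α) (hα2 : α ≤ 10 / 7) (hB : 0 < B) (hB2 : 1 ≤ B * 2 ^ α)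
    (hη0 : 0 ≤ η) (hη1 : η ≤ 1 / 4) (hθ0 : 71 / 100 ≤ θ) (hθ1 : θ ≤ 79 / 100) :
    (α + 2) * (18 / 25 * XX α (Yf α (97 / 100) / B)) * (sin θ * sin η) * (π / 2) ≤
      Pf α B η θ := by
  have hπ := Real.pi_gt_d2
  have hcθ : 0 ≤ cos θ := Real.cos_nonneg_of_mem_Icc ⟨by linarith, by linarith⟩
  have hsθ : 0 ≤ sin θ := Real.sin_nonneg_of_nonneg_of_le_pi (by linarith) (by linarith)
  have hcη : 0 ≤ cos η := Real.cos_nonneg_of_mem_Icc ⟨by linarith, by linarith⟩
  have hsη : 0 ≤ sin η := Real.sin_nonneg_of_nonneg_of_le_pi hη0 (by linarith)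
  have ht := tau_ok hα hB hB2 θ
  have hY := Yf_pos (α := α) (s := 97 / 100) (by norm_num) (by norm_num)
  have c1 : 1 / 2 ≤ cos θ * cos η - sin θ * sin η := by
    rw [← Real.cos_add, ← Real.cos_pi_div_three]
    exact Real.cos_le_cos_of_nonneg_of_le_pi (by linarith) (by linarith) (by linarith)
  have c2 : cos θ * cos η + sin θ * sin η ≤ 9 / 10 := by
    rw [← Real.cos_sub]
    have h1 : cos (θ - η) ≤ cos (23 / 50) :=
      Real.cos_le_cos_of_nonneg_of_le_pi (by norm_num) (by linarith) (by linarith)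
    have h2 := abs_le.1 (Real.cos_bound (x := 23 / 50) (by norm_num [abs_of_pos]))
    have h3 : |(23 / 50 : ℝ)| = 23 / 50 := abs_of_pos (by norm_num)
    rw [h3] at h2
    norm_num at h2
    linarith [h2.2]
  have c3 : cos θ ≤ 97 / 100 := by
    have h1 : cos θ ≤ cos (71 / 100) :=
      Real.cos_le_cos_of_nonneg_of_le_pi (by norm_num) (by linarith) (by linarith)
    have h2 := abs_le.1 (Real.cos_bound (x := 71 / 100) (by norm_num [abs_of_pos]))
    have h3 : |(71 / 100 : ℝ)| = 71 / 100 := abs_of_pos (by norm_num)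
    rw [h3] at h2
    norm_num at h2
    linarith [h2.2]
  have h3 : XX α (Yf α (97 / 100) / B) ≤ XX α (Yf α (cos θ) / B) := by
    refine XX_anti hα ht.1 ?_
    exact div_le_div_of_nonneg_right (Yf_mono hα hcθ c3 (by norm_num)) hB.le
  have h4 := P_low hα ht.1 (p := cos θ * cos η) (r := sin θ * sin η)
    (m := 18 / 25 * XX α (Yf α (97 / 100) / B)) (mul_nonneg hcθ hcη) (mul_nonneg hsθ hsη)
    (pr_le η θ)
    (fun a ha1 ha2 => by
      have := Dτ_low hα hα2 ht.1 ht.2 (a := a) (by linarith) (by linarith)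
      linarith)
  unfold Pf
  linarith

/-- small `η` -/
theorem intW_pos (hα : 1 < α) (hα2 : α ≤ 10 / 7) (hB : 0 < B) (hB2 : 1 ≤ B * 2 ^ α)
    (hη0 : 0 ≤ η) (hη1 : η ≤ 1 / 4) :
    0 ≤ ∫ θ in (0 : ℝ)..(π / 2), sin θ ^ 2 * Yd α (cos θ) * Pf α B η θ := by
  have hπ := Real.pi_gt_d2
  have hWc := W_cont hα hB η
  have hη2 : η ≤ π / 2 := by linarith
  have hsη : 0 ≤ sin η := Real.sin_nonneg_of_nonneg_of_le_pi hη0 (by linarith)
  have hY := Yf_pos (α := α) (s := 97 / 100) (by norm_num) (by norm_num)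
  have hX := XX_pos (α := α) (τ := Yf α (97 / 100) / B) (by positivity)
  set Λ : ℝ := (α + 2) * XX α (Yf α (97 / 100) / B) * sin η * (π / 2) * (α / 2 * (α - 1)) with hΛ
  have hΛ0 : 0 ≤ Λ := by
    rw [hΛ]
    have h1 : 0 ≤ α + 2 := by linarith
    have h2 : 0 ≤ α - 1 := by linarith
    have h3 : 0 ≤ π / 2 := by linarith
    positivity
  have hbasic : ∀ θ : ℝ, 0 ≤ θ → θ ≤ π / 2 → 0 ≤ cos θ ∧ 0 ≤ sin θ ∧ 0 ≤ Yd α (cos θ) := by
    intro θ h0 h1
    have hc : 0 ≤ cos θ := Real.cos_nonneg_of_mem_Icc ⟨by linarith, h1⟩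
    exact ⟨hc, Real.sin_nonneg_of_nonneg_of_le_pi h0 (by linarith),
      Yd_nonneg hα hc (Real.cos_le_one θ)⟩
  have hge : ∀ θ : ℝ, 1 / 4 ≤ θ → θ ≤ π / 2 →
      0 ≤ sin θ ^ 2 * Yd α (cos θ) * Pf α B η θ := by
    intro θ h0 h1
    obtain ⟨b1, b2, b3⟩ := hbasic θ (by linarith) h1
    have h4 : cos θ * cos η ≤ 97 / 100 := by
      have h2 : cos θ ≤ cos (1 / 4) :=
        Real.cos_le_cos_of_nonneg_of_le_pi (by norm_num) (by linarith) h0
      have h3 := abs_le.1 (Real.cos_bound (x := 1 / 4) (by norm_num [abs_of_pos]))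
      have h5 : |(1 / 4 : ℝ)| = 1 / 4 := abs_of_pos (by norm_num)
      rw [h5] at h3
      norm_num at h3
      have h6 := Real.cos_le_one η
      nlinarith [h3.2]
    have := Pf_nonneg hα hα2 hB hB2 hη0 hη2 (by linarith) h1 h4
    positivity
  have s1 : ∫ θ in (0 : ℝ)..(π / 2), sin θ ^ 2 * Yd α (cos θ) * Pf α B η θ =
      (∫ θ in (0 : ℝ)..(1 / 4), sin θ ^ 2 * Yd α (cos θ) * Pf α B η θ) +
      (∫ θ in (1 / 4)..(71 / 100), sin θ ^ 2 * Yd α (cos θ) * Pf α B η θ) +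
      (∫ θ in (71 / 100)..(79 / 100), sin θ ^ 2 * Yd α (cos θ) * Pf α B η θ) +
      ∫ θ in (79 / 100)..(π / 2), sin θ ^ 2 * Yd α (cos θ) * Pf α B η θ := by
    rw [intervalIntegral.integral_add_adjacent_intervals (hWc.intervalIntegrable _ _)
      (hWc.intervalIntegrable _ _), intervalIntegral.integral_add_adjacent_intervals
      (hWc.intervalIntegrable _ _) (hWc.intervalIntegrable _ _),
      intervalIntegral.integral_add_adjacent_intervals
      (hWc.intervalIntegrable _ _) (hWc.intervalIntegrable _ _)]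
  have s2 : 0 ≤ ∫ θ in (1 / 4)..(71 / 100), sin θ ^ 2 * Yd α (cos θ) * Pf α B η θ :=
    intervalIntegral.integral_nonneg (by norm_num) fun θ hθ =>
      hge θ hθ.1 (by linarith [hθ.2])
  have s3 : 0 ≤ ∫ θ in (79 / 100)..(π / 2), sin θ ^ 2 * Yd α (cos θ) * Pf α B η θ :=
    intervalIntegral.integral_nonneg (by linarith) fun θ hθ =>
      hge θ (by linarith [hθ.1]) hθ.2
  have s4 : (∫ θ in (0 : ℝ)..(1 / 4), -(Λ * (3 / 2)) * θ ^ 2) ≤
      ∫ θ in (0 : ℝ)..(1 / 4), sin θ ^ 2 * Yd α (cos θ) * Pf α B η θ := by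
    refine intervalIntegral.integral_mono_on (by norm_num)
      (Continuous.intervalIntegrable (by fun_prop) _ _) (hWc.intervalIntegrable _ _) ?_
    intro θ hθ
    obtain ⟨b1, b2, b3⟩ := hbasic θ hθ.1 (by linarith [hθ.2])
    have h1 := zoneN hα hα2 hB hB2 hη0 hη2 hθ.1 (by linarith [hθ.2] : θ ≤ π / 2)
    have h2 := Yd_upper (α := α) hα hθ.1 (by linarith [hθ.2] : θ ≤ π / 2)
    have h3 : 0 ≤ (α + 2) * XX α (Yf α (97 / 100) / B) * sin η * (π / 2) := by
      have h1 : 0 ≤ α + 2 := by linarith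
      have h3 : 0 ≤ π / 2 := by linarith
      positivity
    have h4 := mul_le_mul_of_nonneg_left h1 (show 0 ≤ sin θ ^ 2 * Yd α (cos θ) by positivity)
    have h5 := mul_le_mul_of_nonneg_left h2 h3
    calc -(Λ * (3 / 2)) * θ ^ 2 = -((α + 2) * XX α (Yf α (97 / 100) / B) * sin η * (π / 2) *
          (α / 2 * ((α - 1) * (3 / 2 * θ ^ 2)))) := by rw [hΛ]; ring
      _ ≤ -((α + 2) * XX α (Yf α (97 / 100) / B) * sin η * (π / 2) *
          (sin θ ^ 3 * Yd α (cos θ))) := by linarith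
      _ = sin θ ^ 2 * Yd α (cos θ) *
          -((α + 2) * XX α (Yf α (97 / 100) / B) * (sin θ * sin η) * (π / 2)) := by ring
      _ ≤ _ := h4
  rw [intervalIntegral.integral_const_mul, integral_pow] at s4
  have s5 : (∫ _ in (71 / 100)..(79 / 100), Λ * (117 / 1000)) ≤
      ∫ θ in (71 / 100)..(79 / 100), sin θ ^ 2 * Yd α (cos θ) * Pf α B η θ := by
    refine intervalIntegral.integral_mono_on (by norm_num)
      intervalIntegrable_const (hWc.intervalIntegrable _ _) ?_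
    intro θ hθ
    obtain ⟨b1, b2, b3⟩ := hbasic θ (by linarith [hθ.1]) (by linarith [hθ.2])
    have h1 := zoneP hα hα2 hB hB2 hη0 hη1 hθ.1 hθ.2
    have h2 := Yd_lower (α := α) hα (by linarith) b1 (Real.cos_le_one θ)
    have hs : 62 / 100 ≤ sin θ := by
      have h5 := Real.sin_gt_sub_cube (x := 71 / 100) (by norm_num)
      have h6 : sin (71 / 100) ≤ sin θ :=
        Real.sin_le_sin_of_le_of_le_pi_div_two (by linarith) (by linarith [hθ.2]) hθ.1
      norm_num at h5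
      linarith
    have hc : 6879 / 10000 ≤ cos θ := by
      have h5 := Real.one_sub_sq_div_two_le_cos (x := θ)
      nlinarith [hθ.1, hθ.2]
    have h3 : 0 ≤ (α + 2) * XX α (Yf α (97 / 100) / B) * sin η * (π / 2) := by
      have h1 : 0 ≤ α + 2 := by linarith
      have h3 : 0 ≤ π / 2 := by linarith
      positivity
    have h4 := mul_le_mul_of_nonneg_left h1 (show 0 ≤ sin θ ^ 2 * Yd α (cos θ) by positivity)
    have h7 : (62 / 100 : ℝ) ^ 3 * (6879 / 10000) ≤ sin θ ^ 3 * cos θ :=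
      mul_le_mul (pow_le_pow_left₀ (by norm_num) hs 3) hc (by norm_num) (by positivity)
    have h8 : α / 2 * (α - 1) * ((62 / 100 : ℝ) ^ 3 * (6879 / 10000)) ≤
        sin θ ^ 3 * Yd α (cos θ) := by
      have h9 : 0 ≤ α / 2 * (α - 1) := mul_nonneg (by linarith) (by linarith)
      calc α / 2 * (α - 1) * ((62 / 100 : ℝ) ^ 3 * (6879 / 10000))
          ≤ α / 2 * (α - 1) * (sin θ ^ 3 * cos θ) := mul_le_mul_of_nonneg_left h7 h9
        _ = sin θ ^ 3 * (α / 2 * ((α - 1) * cos θ)) := by ring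
        _ ≤ _ := mul_le_mul_of_nonneg_left h2 (by positivity)
    have h10 := mul_le_mul_of_nonneg_left h8 h3
    calc Λ * (117 / 1000) ≤ 18 / 25 * (Λ * ((62 / 100 : ℝ) ^ 3 * (6879 / 10000))) := by
          nlinarith
      _ = 18 / 25 * ((α + 2) * XX α (Yf α (97 / 100) / B) * sin η * (π / 2) *
          (α / 2 * (α - 1) * ((62 / 100 : ℝ) ^ 3 * (6879 / 10000)))) := by rw [hΛ]; ring
      _ ≤ 18 / 25 * ((α + 2) * XX α (Yf α (97 / 100) / B) * sin η * (π / 2) *
          (sin θ ^ 3 * Yd α (cos θ))) := by linarith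
      _ = sin θ ^ 2 * Yd α (cos θ) *
          ((α + 2) * (18 / 25 * XX α (Yf α (97 / 100) / B)) * (sin θ * sin η) * (π / 2)) := by
          ring
      _ ≤ _ := h4
  rw [intervalIntegral.integral_const, smul_eq_mul] at s5
  rw [s1]
  norm_num at s4 s5
  nlinarith

theorem dI_nonneg2 (hα : 1 < α) (hα2 : α ≤ 10 / 7) (hB : 0 < B) (hB2 : 1 ≤ B * 2 ^ α)
    (hη0 : 0 ≤ η) (hη1 : η ≤ π / 2) : 0 ≤ dI α B η := by
  rw [dI_Pf hα hB]
  refine mul_nonneg (by positivity) ?_
  rcases le_total η (1 / 4) with h | h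
  · exact intW_pos hα hα2 hB hB2 hη0 h
  · refine intervalIntegral.integral_nonneg (by positivity) fun θ hθ => ?_
    have hc : 0 ≤ cos θ := Real.cos_nonneg_of_mem_Icc ⟨by linarith [pi_pos, hθ.1], hθ.2⟩
    have hYd := Yd_nonneg hα hc (Real.cos_le_one θ)
    have h4 : cos θ * cos η ≤ 97 / 100 := by
      have h2 : cos η ≤ cos (1 / 4) :=
        Real.cos_le_cos_of_nonneg_of_le_pi (by norm_num) (by linarith [pi_pos]) h
      have h3 := abs_le.1 (Real.cos_bound (x := 1 / 4) (by norm_num [abs_of_pos]))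
      have h5 : |(1 / 4 : ℝ)| = 1 / 4 := abs_of_pos (by norm_num)
      rw [h5] at h3
      norm_num at h3
      have h6 := Real.cos_le_one θ
      have h7 : 0 ≤ cos η := Real.cos_nonneg_of_mem_Icc ⟨by linarith [pi_pos], hη1⟩
      nlinarith [h3.2]
    have := Pf_nonneg hα hα2 hB hB2 hη0 hη1 hθ.1 hθ.2 h4
    positivity

/-- strict positivity near `π / 2` -/
theorem dI_pos (hα : 1 < α) (hα2 : α ≤ 10 / 7) (hB : 0 < B) (hB2 : 1 ≤ B * 2 ^ α)
    (hη0 : 1 ≤ η) (hη1 : η < π / 2) : 0 < dI α B η := by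
  have hπ := Real.pi_gt_d2
  have hπ4 := Real.pi_le_four
  have hS0 : 0 < cos η := Real.cos_pos_of_mem_Ioo ⟨by linarith, hη1⟩
  have hS1 : cos η ≤ 3 / 5 := by
    have h2 : cos η ≤ cos 1 :=
      Real.cos_le_cos_of_nonneg_of_le_pi (by norm_num) (by linarith) hη0
    have := Real.cos_one_le
    linarith
  have hC0 : 0 < sin η := Real.sin_pos_of_pos_of_lt_pi (by linarith) (by linarith)
  have hC1 := Real.sin_le_one η
  set θ : ℝ := cos η / 4 with hθ
  have hθ0 : 0 < θ := by positivity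
  have hθ1 : θ ≤ 3 / 20 := by rw [hθ]; linarith
  have hsθ : 0 < sin θ := Real.sin_pos_of_pos_of_lt_pi hθ0 (by linarith)
  have hsθ1 : sin θ ≤ θ := Real.sin_le hθ0.le
  have hcθ : 98 / 100 ≤ cos θ := by
    have h5 := Real.one_sub_sq_div_two_le_cos (x := θ)
    nlinarith
  have hcθ1 := Real.cos_le_one θ
  have ht := tau_ok hα hB hB2 θ
  -- positivity of `Pf` at `θ`
  have hr0 : 0 < sin θ * sin η := mul_pos hsθ hC0
  have hr1 : sin θ * sin η ≤ cos η / 4 := by
    calc sin θ * sin η ≤ θ * 1 := mul_le_mul hsθ1 hC1 hC0.le hθ0.le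
      _ = cos η / 4 := by rw [hθ, mul_one]
  have hp0 : 98 / 100 * cos η ≤ cos θ * cos η := mul_le_mul_of_nonneg_right hcθ hS0.le
  have hp1 : cos θ * cos η ≤ cos η := by nlinarith
  have hsub : Icc (cos θ * cos η - sin θ * sin η) (cos θ * cos η + sin θ * sin η) ⊆
      Icc (-1) 1 := Icc_subset_Icc (by linarith) (by linarith)
  obtain ⟨a₀, ha₀, hmin⟩ := isCompact_Icc.exists_isMinOn
    (nonempty_Icc.2 (show cos θ * cos η - sin θ * sin η ≤ cos θ * cos η + sin θ * sin η by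
      linarith)) ((D_continuousOn hα ht.1).mono hsub)
  have hm0 : 0 < D α (Yf α (cos θ) / B) a₀ :=
    Dτ_pos hα hα2 ht.1 ht.2 (by linarith [ha₀.1]) (by linarith [ha₀.2])
  have hP : 0 < Pf α B η θ := by
    have h4 := P_low hα ht.1 (p := cos θ * cos η) (r := sin θ * sin η)
      (m := D α (Yf α (cos θ) / B) a₀) (by positivity) hr0.le
      (pr_le η θ) (fun a ha1 ha2 => hmin ⟨ha1, ha2⟩)
    have h5 : 0 < (α + 2) * D α (Yf α (cos θ) / B) a₀ * (sin θ * sin η) * (π / 2) := by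
      have : 0 < α + 2 := by linarith
      have : 0 < π / 2 := by linarith
      positivity
    unfold Pf
    linarith
  have hYd : 0 < Yd α (cos θ) := by
    have h2 := Yd_lower (α := α) hα (by linarith) (by linarith) hcθ1
    have h3 : 0 < α / 2 * ((α - 1) * cos θ) :=
      mul_pos (by linarith) (mul_pos (by linarith) (by linarith))
    linarith
  rw [dI_Pf hα hB]
  refine mul_pos (by positivity) ?_
  refine intervalIntegral.integral_pos (by linarith) (W_cont hα hB η).continuousOn ?_ ?_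
  · intro x hx
    have hc : 0 ≤ cos x := Real.cos_nonneg_of_mem_Icc ⟨by linarith [hx.1], hx.2⟩
    have hYd := Yd_nonneg hα hc (Real.cos_le_one x)
    have h4 : cos x * cos η ≤ 97 / 100 := by nlinarith [Real.cos_le_one x]
    have := Pf_nonneg hα hα2 hB hB2 (by linarith) hη1.le hx.1.le hx.2 h4
    positivity
  · exact ⟨θ, ⟨hθ0.le, by linarith⟩, by positivity⟩

theorem dI_cont (hα : 1 < α) (hB : 0 ≤ B) : Continuous (dI α B) := by
  set G : ℝ → ℝ → ℝ → ℝ := fun η θ φ =>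
    PP α B η θ φ * (RR α B η θ φ * (-(cos θ * sin η) + sin θ * cos η * cos φ)) with hG
  have hGc : ∀ {X : Type} [TopologicalSpace X] {f g h : X → ℝ}, Continuous f → Continuous g →
      Continuous h → Continuous fun z => G (f z) (g z) (h z) := by
    intro X _ f g h hf hg hh
    rw [hG]
    exact (cont_PP hα hB hf hg hh).mul ((cont_RR hα hf hg hh).mul (by fun_prop))
  have hpar : Continuous (Function.uncurry fun η θ => sin θ * ∫ φ in (0 : ℝ)..π, G η θ φ) := by
    refine Continuous.mul (by fun_prop) ?_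
    exact intervalIntegral.continuous_parametric_intervalIntegral_of_continuous'
      (f := fun (z : ℝ × ℝ) φ => G z.1 z.2 φ)
      (hGc (continuous_fst.comp continuous_fst) (continuous_snd.comp continuous_fst)
        continuous_snd) 0 π
  exact intervalIntegral.continuous_parametric_intervalIntegral_of_continuous' hpar 0 π

theorem II_lt (hα : 1 < α) (hα2 : α ≤ 10 / 7) (hB : 0 < B) (hB2 : 1 ≤ B * 2 ^ α)
    (hη0 : 0 ≤ η) (hη1 : η < π / 2) : II α B η < II α B (π / 2) := by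
  have hπ := Real.pi_gt_d2
  have hc := dI_cont hα hB.le
  set m : ℝ := max η 1 with hm
  have hm1 : m < π / 2 := max_lt hη1 (by linarith)
  have h2 := II_sub hα hB.le η (π / 2)
  have s1 := intervalIntegral.integral_add_adjacent_intervals
    (hc.intervalIntegrable (μ := volume) η m) (hc.intervalIntegrable m (π / 2))
  have s2 : 0 ≤ ∫ x in η..m, dI α B x :=
    intervalIntegral.integral_nonneg (le_max_left _ _) fun x hx =>
      dI_nonneg2 hα hα2 hB hB2 (hη0.trans hx.1) (hx.2.trans hm1.le)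
  have s3 : 0 < ∫ x in m..(π / 2), dI α B x :=
    intervalIntegral.intervalIntegral_pos_of_pos_on (hc.intervalIntegrable _ _)
      (fun x hx => dI_pos hα hα2 hB hB2 ((le_max_right _ _).trans hx.1.le) hx.2) hm1
  linarith

end

end LpSec.Avg
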