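import Mathlib
import Pool.Agent.Lib.MP_1dbab3_gt.W.RidTail
import Pool.Agent.Lib.MP_1dbab3_gt.WAvg.D4

/-!
# The ridge for `α ≤ 10/7`, part D5
-/

open Real MeasureTheory Set Filter Topology

namespace LpSec

variable {α : ℝ}

namespace Avg

/-- averaging of any pair, `α ≤ 10/7`, strict -/
theorem avg_small (hα : 1 < α) (hα2 : α ≤ 10 / 7) {x y z : ℝ} (hz : 0 < z) (hz2 : z ≤ 1 / 2)
    (hy : 0 < y) (hyx : y < x) (hs : x + y + z = 1) :
    J α ![x, y, z] < J α ![(x + y) / 2, (x + y) / 2, z] := by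
  have hx : 0 < x := by linarith
  rw [J_eq_II hα hx.le hy.le hz hs (by linarith) (by linarith) (by linarith),
    J_eq_II (x := (x + y) / 2) (y := (x + y) / 2) hα (by linarith) (by linarith) hz
      (by linarith) (by linarith) (by linarith) (by linarith)]
  have e1 : (x + y) / 2 + (x + y) / 2 = x + y := by ring
  rw [e1, sub_self, zero_div, arccos_zero]
  have hk := kap_pos hα
  have hX : 0 < x + y := by linarith
  refine mul_lt_mul_of_pos_left ?_ (by positivity)
  refine II_lt hα hα2 (by positivity) ?_ (arccos_nonneg _) ?_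
  · rw [← mul_rpow (by positivity) (by norm_num)]
    have e2 : (x + y) / (2 * z) * 2 = (x + y) / z := by
      field_simp
    rw [e2]
    exact one_le_rpow ((one_le_div hz).2 (by linarith)) (by linarith)
  · rw [arccos_lt_pi_div_two]
    exact div_pos (by linarith) hX

end Avg

theorem J_swap12 (α x y z : ℝ) : J α ![x, y, z] = J α ![x, z, y] := by
  rw [← J_perm α ![x, z, y] (Equiv.swap 1 2)]
  congr 1
  funext i
  fin_cases i
  · simp [Equiv.swap_apply_of_ne_of_ne]
  · simp
  · simp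

theorem J_rot (α x y z : ℝ) : J α ![x, y, z] = J α ![z, x, y] := by
  rw [← J_perm α ![z, x, y] (finRotate 3)]
  congr 1
  funext i
  fin_cases i
  · rfl
  · rfl
  · rfl

/-- value on the ridge -/
theorem ridge_eq {m l : ℝ} (hm : 0 < m) (h : (2 + l) * m = 1) :
    (2 + l) * Nf α l = J α ![m, m, l * m] := by
  rw [J_ridge α hm]
  have : (2 + l) = 1 / m := by
    rw [eq_div_iff hm.ne']
    exact h
  rw [this]
  ring

/-- one step along the ridge -/
theorem ridge_step (hα : 1 < α) (hα2 : α ≤ 10 / 7) {l : ℝ} (h0 : 0 < l) (h1 : l < 1) :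
    (2 + l) * Nf α l < (2 + 2 * (1 + l) / (3 + l)) * Nf α (2 * (1 + l) / (3 + l)) := by
  set m : ℝ := 1 / (2 + l) with hm
  have hm0 : 0 < m := by positivity
  have hm1 : (2 + l) * m = 1 := by
    rw [hm]
    field_simp
  have hm2 : m ≤ 1 / 2 := by
    rw [hm]
    exact one_div_le_one_div_of_le (by norm_num) (by linarith)
  set μ : ℝ := (m + l * m) / 2 with hμ
  have hμ0 : 0 < μ := by positivity
  have hlm : l * m < m := by nlinarith
  have hμm : μ ≤ m := by rw [hμ]; linarith
  have s1 : (2 + l) * Nf α l = J α ![m, m, l * m] := ridge_eq hm0 hm1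
  have s2 : J α ![m, m, l * m] < J α ![μ, μ, m] := by
    rw [J_swap12]
    exact Avg.avg_small hα hα2 hm0 hm2 (by positivity) hlm (by linarith)
  have s3 : J α ![μ, μ, m] ≤ J α ![(m + μ) / 2, (m + μ) / 2, μ] := by
    rw [J_rot]
    exact Avg.avg3 hα (by linarith) m μ μ hμ0 le_rfl hμm (by rw [hμ]; linarith)
  have e1 : 2 * (1 + l) / (3 + l) * ((m + μ) / 2) = μ := by
    rw [hμ]
    field_simp
    ring
  have e2 : (2 + 2 * (1 + l) / (3 + l)) * ((m + μ) / 2) = 1 := by
    rw [add_mul, e1, hμ]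
    linarith
  have s4 := ridge_eq (α := α) (m := (m + μ) / 2) (l := 2 * (1 + l) / (3 + l))
    (by positivity) e2
  rw [e1] at s4
  rw [s1, s4]
  exact s2.trans_le s3

theorem Nf_tendsto (hα : 1 < α) {u : ℕ → ℝ} (hu : ∀ n, 0 ≤ u n) (hlim : Tendsto u atTop (𝓝 1)) :
    Tendsto (fun n => Nf α (u n)) atTop (𝓝 (Nf α 1)) := by
  unfold Nf
  refine MeasureTheory.tendsto_integral_of_dominated_convergence (fun s => Phi α s ^ 2)
    (fun n => ?_) (Phi_sq_integrable hα) (fun n => ?_) ?_
  · have h1 : ContinuousOn (fun s => Phi α s ^ 2 * Phi α (u n * s)) (Ici 0) := by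
      refine ((Phi_continuousOn hα).pow 2).mul ?_
      exact (Phi_continuousOn hα).comp (by fun_prop) fun s hs => mul_nonneg (hu n) hs
    exact (h1.mono Ioi_subset_Ici_self).aestronglyMeasurable measurableSet_Ioi
  · refine (ae_restrict_mem measurableSet_Ioi).mono fun s hs => ?_
    have h1 := Phi_abs_le_one hα (s := u n * s) (mul_nonneg (hu n) (le_of_lt hs))
    rw [Real.norm_eq_abs, abs_mul, abs_of_nonneg (sq_nonneg _)]
    calc Phi α s ^ 2 * |Phi α (u n * s)| ≤ Phi α s ^ 2 * 1 :=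
          mul_le_mul_of_nonneg_left h1 (sq_nonneg _)
      _ = _ := mul_one _
  · refine (ae_restrict_mem measurableSet_Ioi).mono fun s hs => ?_
    refine Tendsto.const_mul _ ?_
    have hs' : (0 : ℝ) < 1 * s := by rw [one_mul]; exact hs
    have h1 : ContinuousAt (Phi α) (1 * s) :=
      (Phi_continuousOn hα).continuousAt (Ici_mem_nhds hs')
    exact h1.tendsto.comp (hlim.mul_const s)

/-- **the ridge for `1 < α ≤ 10/7`** -/
theorem ridge_small (hα : 1 < α) (hα2 : α ≤ 10 / 7) {l : ℝ} (h0 : 0 < l) (h1 : l < 1) :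
    (2 + l) * Nf α l < vv α 3 := by
  set g : ℝ → ℝ := fun l => 2 * (1 + l) / (3 + l) with hg
  have hg0 : ∀ x, 0 < x → 0 < g x := fun x hx => by
    rw [hg]
    positivity
  have hg1 : ∀ x, 0 < x → x < 1 → g x < 1 := fun x hx hx1 => by
    rw [hg]
    simp only
    rw [div_lt_one (by linarith)]
    linarith
  have hg2 : ∀ x, 0 < x → x < 1 → 1 - g x ≤ (1 - x) / 3 := fun x hx hx1 => by
    rw [hg]
    simp only
    have e : 1 - 2 * (1 + x) / (3 + x) = (1 - x) / (3 + x) := by
      field_simp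
      ring
    rw [e]
    exact div_le_div_of_nonneg_left (by linarith) (by norm_num) (by linarith)
  set u : ℕ → ℝ := fun n => g^[n] (g l) with hu
  have hu0 : ∀ n, 0 < u n ∧ u n < 1 ∧ 1 - u n ≤ (1 / 3) ^ n := by
    intro n
    induction n with
    | zero =>
      simp only [hu, Function.iterate_zero, id_eq, pow_zero]
      exact ⟨hg0 l h0, hg1 l h0 h1, by linarith [hg0 l h0]⟩
    | succ n ih =>
      have e : u (n + 1) = g (u n) := by
        simp only [hu]
        rw [Function.iterate_succ_apply']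
      rw [e]
      refine ⟨hg0 _ ih.1, hg1 _ ih.1 ih.2.1, ?_⟩
      have := hg2 _ ih.1 ih.2.1
      rw [pow_succ]
      linarith [ih.2.2]
  have hlim : Tendsto u atTop (𝓝 1) := by
    have h2 : Tendsto (fun n : ℕ => 1 - (1 / 3 : ℝ) ^ n) atTop (𝓝 (1 - 0)) :=
      (tendsto_pow_atTop_nhds_zero_of_lt_one (by norm_num) (by norm_num)).const_sub 1
    rw [sub_zero] at h2
    exact tendsto_of_tendsto_of_tendsto_of_le_of_le h2 tendsto_const_nhds
      (fun n => by linarith [(hu0 n).2.2]) (fun n => (hu0 n).2.1.le)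
  have hmono : ∀ n, (2 + g l) * Nf α (g l) ≤ (2 + u n) * Nf α (u n) := by
    intro n
    induction n with
    | zero => simp [hu]
    | succ n ih =>
      have e : u (n + 1) = g (u n) := by
        simp only [hu]
        rw [Function.iterate_succ_apply']
      rw [e]
      exact ih.trans (ridge_step hα hα2 (hu0 n).1 (hu0 n).2.1).le
  have hlim2 : Tendsto (fun n => (2 + u n) * Nf α (u n)) atTop (𝓝 ((2 + 1) * Nf α 1)) :=
    (hlim.const_add 2).mul (Nf_tendsto hα (fun n => (hu0 n).1.le) hlim)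
  have h3 := ge_of_tendsto' hlim2 hmono
  have h4 := ridge_step hα hα2 h0 h1
  rw [vv3_eq]
  have e : (2 + 1 : ℝ) = 3 := by norm_num
  rw [e] at h3
  exact h4.trans_le h3

/-- dimension three for `1 < α ≤ 10/7` -/
theorem core_three_small (hα : 1 < α) (hα2 : α ≤ 10 / 7) : Core α 3 :=
  core_three_of_ridge hα (fun y z w hw hwz hzy hs => Avg.avg3 hα (by linarith) y z w hw hwz hzy hs)
    fun _ h0 h1 => lt_max_of_lt_right (ridge_small hα hα2 h0 h1)

end LpSec
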