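import Mathlib
import Pool.Agent.Lib.MP_1dbab3_gt.WAvg.D5

/-!
# Dimension three, assembly of the ranges of `α`
-/

open Real MeasureTheory Set Filter Topology

namespace LpSec

/-- `Core α 3` for all `α` from the ridge on `[u₀, 7/10]` and `Core α 3` below `u₀ ≥ 1/4` -/
theorem core_three_of_parts {u₀ : ℝ} (hu₀ : 1 / 4 ≤ u₀)
    (hR : ∀ α : ℝ, 1 < α → u₀ ≤ 1 / α → 1 / α ≤ 7 / 10 → ∀ l : ℝ, 0 < l → l < 1 →
      (2 + l) * Nf α l < max (AA α) (vv α 3))
    (hM : ∀ α : ℝ, 1 < α → 1 / α ≤ u₀ → Core α 3) {α : ℝ} (hα : 1 < α) : Core α 3 := by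
  have hα0 : 0 < α := by linarith
  rcases le_total (1 / α) u₀ with h1 | h1
  · exact hM α hα h1
  rcases le_total α (10 / 7) with h2 | h2
  · exact core_three_small hα h2
  have h3 : 1 / α ≤ 7 / 10 := by
    rw [div_le_iff₀ hα0]
    linarith
  have h4 : α ≤ 4 := by
    have := hu₀.trans h1
    rw [div_le_div_iff₀ (by norm_num) hα0] at this
    linarith
  exact core_three_of_ridge hα
    (fun y z w hw hwz hzy hs => Avg.avg3 hα h4 y z w hw hwz hzy hs)
    (fun l hl0 hl1 => hR α hα h1 h3 l hl0 hl1)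

end LpSec
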